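import Pool.Agent.Lib.MP_b4c8d9_an.Baire

-- part Pool.Agent.Lib.MP_b4c8d9_an.Loc
section

/-! Local consequences of the uniform majorant property, by lacunary selection of scales. -/

namespace Pool.Agent.Lib.MP_b4c8d9_an

open Complex Real Metric Set Filter Topology MeasureTheory

variable {lam : ℕ → ℂ}

lemma norm_exp_neg (τ : ℂ) : ‖cexp (-τ)‖ = Real.exp (-τ.re) := by
  rw [Complex.norm_exp, neg_re]

lemma one_sub_exp_le {τ : ℂ} (h : 0 ≤ τ.re) : ‖1 - cexp (-τ)‖ ≤ ‖τ‖ := by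
  have hc : Convex ℝ {z : ℂ | 0 ≤ z.re} := convex_halfSpace_re_ge 0
  have := hc.norm_image_sub_le_of_norm_hasDerivWithin_le (𝕜 := ℂ) (f := fun z => cexp (-z))
    (f' := fun z => cexp (-z) * (-1)) (C := 1) (x := τ) (y := 0)
    (fun z _ => ((hasDerivAt_neg z).cexp).hasDerivWithinAt)
    (fun z hz => by
      rw [norm_mul, norm_exp_neg, norm_neg, norm_one, mul_one]
      exact Real.exp_le_one_iff.2 (by simpa using hz)) h (by simp)
  simpa using this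

lemma le_one_sub_exp {τ : ℂ} (h : ‖τ‖ ≤ 1 / 2) : ‖τ‖ / 2 ≤ ‖1 - cexp (-τ)‖ := by
  have h1 := Complex.norm_exp_sub_one_sub_id_le (x := -τ) (by rw [norm_neg]; linarith)
  rw [norm_neg] at h1
  have h2 : ‖τ‖ ≤ ‖1 - cexp (-τ)‖ + ‖cexp (-τ) - 1 - -τ‖ := by
    have := norm_add_le (1 - cexp (-τ)) (cexp (-τ) - 1 - -τ)
    rwa [show 1 - cexp (-τ) + (cexp (-τ) - 1 - -τ) = τ by ring] at this
  nlinarith [norm_nonneg τ]

lemma exp_neg_le {d : ℝ} (h : 0 ≤ d) : Real.exp (-d) ≤ 1 / (1 + d) := by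
  rw [Real.exp_neg, one_div]
  exact inv_anti₀ (by positivity) (by linarith [Real.add_one_le_exp d])

lemma exp_neg_le' {d : ℝ} (h : 0 ≤ d) (h1 : d ≤ 1) : Real.exp (-d) ≤ 1 - d / 2 := by
  refine (exp_neg_le h).trans ?_
  rw [div_le_iff₀ (by positivity)]
  nlinarith

lemma lac_select {O : Type*} (d : O → ℝ) (Bad : O → Prop)
    (h : ∀ δ : ℝ, 0 < δ → ∃ o, Bad o ∧ 0 < d o ∧ d o < δ) {δ : ℝ} (hδ : 0 < δ) :
    ∃ o : ℕ → O, (∀ j, Bad (o j) ∧ 0 < d (o j) ∧ d (o j) < δ) ∧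
      ∀ i j, i < j → 24 * d (o j) ≤ d (o i) := by
  have : Nonempty O := ⟨(h 1 one_pos).choose⟩
  choose! g hg using h
  let e : ℕ → ℝ := fun n => Nat.rec δ (fun _ x => d (g x) / 24) n
  have he0 : e 0 = δ := rfl
  have hes : ∀ n, e (n + 1) = d (g (e n)) / 24 := fun n => rfl
  have hpos : ∀ n, 0 < e n := by
    intro n
    induction n with
    | zero => exact hδ
    | succ n ih => rw [hes]; linarith [(hg _ ih).2.1]
  have hanti : Antitone e := antitone_nat_of_succ_le fun n => by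
    rw [hes]; linarith [(hg _ (hpos n)).2.1, (hg _ (hpos n)).2.2]
  refine ⟨fun j => g (e j), fun j => ⟨(hg _ (hpos j)).1, (hg _ (hpos j)).2.1, ?_⟩, ?_⟩
  · exact (hg _ (hpos j)).2.2.trans_le (he0 ▸ hanti (Nat.zero_le j))
  · intro i j hij
    have h1 := hanti (show i + 1 ≤ j from hij)
    rw [hes] at h1
    linarith [(hg _ (hpos j)).2.2]

lemma lac_sum (m : ℕ) {d W : ℕ → ℝ} (hlac : ∀ i j, i < j → 24 * d j ≤ d i) {u a b : ℝ}
    (ha0 : 0 ≤ a) (hb0 : 0 ≤ b) (ha : ∀ j < m, W j ≤ a)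
    (hb : ∀ j < m, ¬(d j / 8 < u ∧ u < 3 * d j) → W j ≤ b) :
    ∑ j ∈ Finset.range m, W j ≤ a + m * b := by
  by_cases hex : ∃ j₀, d j₀ / 8 < u ∧ u < 3 * d j₀
  · obtain ⟨j₀, h1, h2⟩ := hex
    have h3 : ∀ j ∈ Finset.range m, W j ≤ (if j = j₀ then a else 0) + b := by
      intro j hj
      split_ifs with h
      · linarith [ha j (Finset.mem_range.1 hj)]
      · rw [zero_add]
        apply hb j (Finset.mem_range.1 hj)
        rintro ⟨h4, h5⟩
        rcases lt_or_gt_of_ne h with h6 | h6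
        · linarith [hlac _ _ h6]
        · linarith [hlac _ _ h6]
    refine (Finset.sum_le_sum h3).trans ?_
    rw [Finset.sum_add_distrib, Finset.sum_ite_eq']
    simp only [Finset.sum_const, Finset.card_range, nsmul_eq_mul]
    split_ifs <;> linarith
  · push Not at hex
    have h3 : ∀ j ∈ Finset.range m, W j ≤ b := fun j hj =>
      hb j (Finset.mem_range.1 hj) fun h => absurd h.2 (not_lt.2 (hex j h.1))
    have := Finset.sum_le_card_nsmul _ _ _ h3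
    simp only [Finset.card_range, nsmul_eq_mul] at this
    linarith

lemma core_pj {g : ℂ → ℂ} (hg : DifferentiableOn ℂ g (ball 0 1)) {r c : ℝ} (hr : r < 1)
    {Ψ : ℂ → ℝ} (hΨ : ContinuousOn Ψ (sphere 0 r))
    (hb : ∀ z, ‖z‖ = r → ‖g z‖ ≤ Real.exp (c + Ψ z)) {w : ℂ} (hw : ‖w‖ < r) :
    ‖g w‖ ≤ Real.exp (c + (2 * π)⁻¹ *
      ∫ ψ in (0:ℝ)..2 * π, PK r w (circleMap 0 r ψ) * Ψ (circleMap 0 r ψ)) := by
  have h0 : 0 < r := (norm_nonneg w).trans_lt hw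
  have h := PJ (diffCont_of_disc hg h0 hr) (Ψ := fun z => c + Ψ z) (continuousOn_const.add hΨ) hb hw
  have e : circleAverage (fun z => PK r w z * (c + Ψ z)) 0 r =
      c + circleAverage (fun z => PK r w z * Ψ z) 0 r := by
    rw [av_congr h0 (g := fun z => c * PK r w z + PK r w z * Ψ z) fun z _ => by ring,
      av_add h0 (f := fun z => c * PK r w z) (g := fun z => PK r w z * Ψ z)
        (continuousOn_const.mul (PK_cont hw)) ((PK_cont hw).mul hΨ), av_rmul, av_PK hw, mul_one]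
  rw [e, circleAverage_def] at h
  exact h

lemma core_sum {m : ℕ} {G : ℕ → ℝ → ℝ} (hG : ∀ j < m, Continuous (G j)) {A M r : ℝ} (h0 : 0 < r)
    (hA0 : 0 ≤ A) (hA : ∀ ψ, ∑ j ∈ Finset.range m, G j ψ ≤ A) {Ψ : ℂ → ℝ}
    (hΨ : ContinuousOn Ψ (sphere 0 r)) (hΨ0 : ∀ z, 0 ≤ Ψ z) (hM : circleAverage Ψ 0 r ≤ M) :
    ∑ j ∈ Finset.range m, (2 * π)⁻¹ * ∫ ψ in (0:ℝ)..2 * π, G j ψ * Ψ (circleMap 0 r ψ) ≤ A * M := by
  have hc := cont_cm h0 hΨ
  rw [← Finset.mul_sum, ← intervalIntegral.integral_finsetSum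
    (f := fun j ψ => G j ψ * Ψ (circleMap 0 r ψ)) fun j hj =>
    ((hG j (Finset.mem_range.1 hj)).mul hc).intervalIntegrable _ _]
  have h1 : ∫ ψ in (0:ℝ)..2 * π, ∑ j ∈ Finset.range m, G j ψ * Ψ (circleMap 0 r ψ) ≤
      ∫ ψ in (0:ℝ)..2 * π, A * Ψ (circleMap 0 r ψ) := by
    apply intervalIntegral.integral_mono_on (by positivity)
    · exact (continuous_finsetSum _ fun j hj =>
        (hG j (Finset.mem_range.1 hj)).mul hc).intervalIntegrable _ _
    · exact (continuous_const.mul hc).intervalIntegrable _ _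
    · intro ψ _
      rw [← Finset.sum_mul]
      exact mul_le_mul_of_nonneg_right (hA ψ) (hΨ0 _)
  rw [intervalIntegral.integral_const_mul] at h1
  rw [circleAverage_def, smul_eq_mul] at hM
  calc _ ≤ (2 * π)⁻¹ * (A * ∫ ψ in (0:ℝ)..2 * π, Ψ (circleMap 0 r ψ)) := by gcongr
    _ = A * ((2 * π)⁻¹ * ∫ ψ in (0:ℝ)..2 * π, Ψ (circleMap 0 r ψ)) := by ring
    _ ≤ A * M := by gcongr

lemma PK_far {w z : ℂ} {s r c : ℝ} (hw : ‖w‖ = Real.exp (-s)) (hr0 : 0 ≤ r) (hr : r ≤ 1)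
    (hs : 0 ≤ s) (hc : 0 < c) (hcz : c ≤ ‖z - w‖) : PK r w z ≤ 2 * s / c ^ 2 := by
  unfold PK
  have h1 : r ^ 2 - ‖w‖ ^ 2 ≤ 2 * s := by
    rw [hw, ← Real.exp_nat_mul]
    have := Real.add_one_le_exp ((2 : ℕ) * -s)
    push_cast at this ⊢
    nlinarith
  calc (r ^ 2 - ‖w‖ ^ 2) / ‖z - w‖ ^ 2 ≤ 2 * s / ‖z - w‖ ^ 2 := by gcongr
    _ ≤ 2 * s / c ^ 2 := by gcongr

lemma exists_r (m : ℕ) {s : ℕ → ℝ} (hs : ∀ j, 0 < s j) :
    ∃ r : ℝ, 0 < r ∧ r < 1 ∧ ∀ j < m, 1 - s j / 4 ≤ r := by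
  have h1 : ∀ᶠ r : ℝ in 𝓝[<] 1, ∀ j ∈ Finset.range m, 1 - s j / 4 ≤ r := by
    rw [Filter.eventually_all_finset]
    intro j _
    exact nhdsWithin_le_nhds (le_mem_nhds (by linarith [hs j]))
  obtain ⟨r, hr1, hr2⟩ := (h1.and (Ioo_mem_nhdsLT (zero_lt_one' ℝ))).exists
  exact ⟨r, hr2.1, hr2.2, fun j hj => hr1 j (Finset.mem_range.2 hj)⟩

lemma dist_bounds (θ : ℝ) {τ : ℂ} (h0 : 0 ≤ τ.re) (h1 : ‖τ‖ ≤ 1 / 2) :
    ‖τ‖ / 2 ≤ ‖cexp (-(θ * I)) - cexp (-(θ * I + τ))‖ ∧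
    ‖cexp (-(θ * I)) - cexp (-(θ * I + τ))‖ ≤ ‖τ‖ := by
  have e : cexp (-(θ * I)) - cexp (-(θ * I + τ)) = cexp (-(θ * I)) * (1 - cexp (-τ)) := by
    rw [neg_add, Complex.exp_add]; ring
  rw [e, norm_mul, norm_exp_neg]
  simp only [mul_re, ofReal_re, I_re, mul_zero, ofReal_im, I_im, mul_one, sub_self, neg_zero,
    Real.exp_zero, one_mul]
  exact ⟨le_one_sub_exp h1, one_sub_exp_le h0⟩

lemma far_of_not {x w z : ℂ} {d : ℝ} (h1 : d / 4 ≤ ‖x - w‖) (h2 : ‖x - w‖ ≤ 2 * d)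
    (h : ¬(d / 8 < ‖z - x‖ ∧ ‖z - x‖ < 3 * d)) : d / 8 ≤ ‖z - w‖ := by
  have h3 : ‖x - w‖ ≤ ‖z - x‖ + ‖z - w‖ := by
    rw [norm_sub_rev z x]; exact norm_sub_le_norm_sub_add_norm_sub x z w
  have h4 : ‖z - x‖ ≤ ‖z - w‖ + ‖x - w‖ := by
    rw [norm_sub_rev x w]; exact norm_sub_le_norm_sub_add_norm_sub z w x
  rw [not_and_or, not_lt, not_lt] at h
  have := norm_nonneg (x - w)
  rcases h with h | h <;> linarith

def Good (lam : ℕ → ℂ) (α ℓ : ℝ) (a : ℂ) : Prop := ∀ f, Cls α 0 f → ‖T lam f a‖ ≤ Real.exp ℓ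

theorem loc (hK : HK lam) {α δ M : ℝ} (hδ : 0 ≤ δ) (hM : 1 ≤ M) (hU : UB lam α δ M) {η L : ℝ}
    (hη : 0 < η) (hL0 : 0 < L) (hL : 512 * M ≤ η * L ^ 2) (θ : ℝ) :
    ∃ δ' : ℝ, 0 < δ' ∧ ∀ τ : ℂ, 0 < τ.re → ‖τ‖ < δ' → L * τ.re ≤ ‖τ‖ →
      Good lam α (η / τ.re) (cexp (-(θ * I + τ))) := by
  by_contra hcon
  push Not at hcon
  obtain ⟨m, hm⟩ := exists_nat_ge (32 * M / η)
  have hm' : 32 * M ≤ m * η := by rwa [div_le_iff₀ hη] at hm
  have hm0 : 0 < m := by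
    rcases Nat.eq_zero_or_pos m with rfl | h
    · simp at hm'; linarith
    · exact h
  have hlm : 0 ≤ Real.log m := Real.log_natCast_nonneg m
  obtain ⟨o, ho, hlac⟩ := lac_select (O := ℂ × (ℂ → ℂ)) (fun o => ‖o.1‖)
    (fun o => 0 < o.1.re ∧ L * o.1.re ≤ ‖o.1‖ ∧ Cls α 0 o.2 ∧
      Real.exp (η / o.1.re) < ‖T lam o.2 (cexp (-(θ * I + o.1)))‖)
    (fun δ' hδ' => by
      obtain ⟨τ, h1, h2, h3, h4⟩ := hcon δ' hδ'
      simp only [Good, not_forall, not_le] at h4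
      obtain ⟨f, hf, h5⟩ := h4
      exact ⟨(τ, f), ⟨h1, h3, hf, h5⟩, h1.trans_le (re_le_norm τ), h2⟩)
    (δ := min (1 / 2) (η / (4 * (Real.log m + 1)))) (by positivity)
  set s : ℕ → ℝ := fun j => (o j).1.re with hs
  set w : ℕ → ℂ := fun j => cexp (-(θ * I + (o j).1)) with hw
  have hs0 : ∀ j, 0 < s j := fun j => (ho j).1.1
  have hd1 : ∀ j, ‖(o j).1‖ ≤ 1 / 2 := fun j => ((ho j).2.2.trans_le (min_le_left _ _)).le
  have hsd : ∀ j, s j ≤ ‖(o j).1‖ := fun j => re_le_norm _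
  have hwn : ∀ j, ‖w j‖ = Real.exp (-s j) := fun j => by
    simp only [hw, hs, norm_exp_neg]; simp
  obtain ⟨r, hr0, hr1, hr⟩ := exists_r m hs0
  have hwr : ∀ j < m, s j / 4 ≤ r - ‖w j‖ := by
    intro j hj
    have := exp_neg_le' (hs0 j).le (by linarith [hd1 j, hsd j])
    rw [hwn]; linarith [hr j hj]
  have hwr' : ∀ j < m, ‖w j‖ < r := fun j hj => by linarith [hwr j hj, hs0 j]
  obtain ⟨Ψ, hΨc, hΨ0, hΨa, hΨ⟩ := hU m (fun j => (o j).2) (fun _ => 0) (fun j _ => (ho j).1.2.2.1)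
    (fun _ => le_rfl) (by simpa using hδ) r hr0 hr1
  have hsum := core_sum (m := m) (G := fun j ψ => s j * PK r (w j) (circleMap 0 r ψ))
    (fun j hj => continuous_const.mul (cont_cm hr0 (PK_cont (hwr' j hj))))
    (A := 8 + m * (128 / L ^ 2)) hr0 (by positivity) ?_ hΨc hΨ0 hΨa
  · have h1 : ∀ j ∈ Finset.range m, 3 / 4 * η < (2 * π)⁻¹ * ∫ ψ in (0:ℝ)..2 * π,
        s j * PK r (w j) (circleMap 0 r ψ) * Ψ (circleMap 0 r ψ) := by
      intro j hj
      have hj := Finset.mem_range.1 hj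
      have h2 := (ho j).1.2.2.2.trans_le
        (core_pj (T_diff hK (ho j).1.2.2.1.1) hr1 hΨc (hΨ j hj) (hwr' j hj))
      rw [Real.exp_lt_exp, div_lt_iff₀ (hs0 j)] at h2
      have h3 : s j * (Real.log m + 1) ≤ η / 4 := by
        have := (hsd j).trans ((ho j).2.2.trans_le (min_le_right _ _)).le
        rw [le_div_iff₀ (by positivity)] at this
        linarith
      simp only [mul_assoc (s j)]
      rw [intervalIntegral.integral_const_mul]
      have h4 := hs0 j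
      simp only [hs] at h3 h4 ⊢
      nlinarith
    have h2 := Finset.sum_lt_sum_of_nonempty (Finset.nonempty_range_iff.2 hm0.ne') h1
    simp only [Finset.sum_const, Finset.card_range, nsmul_eq_mul] at h2
    have h3 : 128 / L ^ 2 * M ≤ η / 4 := by
      rw [div_mul_eq_mul_div, div_le_iff₀ (by positivity)]; linarith
    have h4 : (m : ℝ) * (128 / L ^ 2 * M) ≤ m * (η / 4) := by gcongr
    have h5 : (0 : ℝ) < m * η := by positivity
    nlinarith
  · intro ψ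
    have hz := norm_cm hr0 ψ
    apply lac_sum m hlac (u := ‖circleMap 0 r ψ - cexp (-(θ * I))‖) (by norm_num) (by positivity)
    · intro j hj
      have h1 := PK_le (hwr' j hj) hz
      have h2 := hwr j hj
      have h3 := hs0 j
      have h4 : (r + ‖w j‖) / (r - ‖w j‖) ≤ 2 / (s j / 4) := by
        apply div_le_div₀ (by norm_num) (by linarith [hwr' j hj]) (by positivity) h2
      calc s j * PK r (w j) (circleMap 0 r ψ) ≤ s j * (2 / (s j / 4)) := by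
            gcongr; exact h1.trans h4
        _ = 8 := by field_simp; norm_num
    · intro j hj hn
      have hd0 := (ho j).2.1
      obtain ⟨h1, h2⟩ := dist_bounds θ (hs0 j).le (hd1 j)
      have h3 := far_of_not (w := w j) (by linarith) (by linarith) hn
      have h4 := PK_far (hwn j) hr0.le hr1.le (hs0 j).le (by positivity) h3
      have h5 := (ho j).1.2.1
      have h6 := hs0 j
      calc s j * PK r (w j) (circleMap 0 r ψ) ≤ s j * (2 * s j / (‖(o j).1‖ / 8) ^ 2) := by gcongr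
        _ = 128 * (s j / ‖(o j).1‖) ^ 2 := by field_simp; norm_num
        _ ≤ 128 * (1 / L) ^ 2 := by
            have : s j / ‖(o j).1‖ ≤ 1 / L := by rw [div_le_div_iff₀ hd0 hL0]; linarith
            gcongr
        _ = 128 / L ^ 2 := by field_simp

end Pool.Agent.Lib.MP_b4c8d9_an
end

-- part Pool.Agent.Lib.MP_b4c8d9_an.Q2
section

/-! The integral estimate for test functions with a small second mass. -/

namespace Pool.Agent.Lib.MP_b4c8d9_an

open Complex Real Metric Set Filter Topology MeasureTheory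

variable {lam : ℕ → ℂ}

noncomputable def wp (θ s t : ℝ) : ℂ := cexp (-(θ * I + (s - t * I)))

lemma wp_norm (θ s t : ℝ) : ‖wp θ s t‖ = Real.exp (-s) := by
  simp only [wp, norm_exp_neg]; simp

lemma wp_cont (θ s : ℝ) : Continuous (wp θ s) := by
  unfold wp; fun_prop

lemma q2_PKc (θ : ℝ) {s r : ℝ} (hr0 : 0 < r) (h : Real.exp (-s) < r) :
    Continuous fun p : ℝ × ℝ => PK r (wp θ s p.1) (circleMap 0 r p.2) := by
  unfold PK
  have h1 : Continuous fun p : ℝ × ℝ => wp θ s p.1 := (wp_cont θ s).comp continuous_fst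
  have h2 : Continuous fun p : ℝ × ℝ => circleMap 0 r p.2 :=
    (continuous_circleMap 0 r).comp continuous_snd
  apply Continuous.div (continuous_const.sub (h1.norm.pow 2)) ((h2.sub h1).norm.pow 2)
  intro p
  exact pow_ne_zero _ (norm_ne_zero_iff.2
    (sub_ne_of_norm ((wp_norm θ s _).trans_lt h) (norm_cm hr0 _)))

lemma q2_Gc (θ : ℝ) {s r : ℝ} (hr0 : 0 < r) (h : Real.exp (-s) < r) (a b : ℝ) :
    Continuous fun ψ : ℝ => ∫ t in a..b, PK r (wp θ s t) (circleMap 0 r ψ) := by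
  have h1 : Continuous fun p : ℝ × ℝ => PK r (wp θ s p.2) (circleMap 0 r p.1) :=
    (q2_PKc θ hr0 h).comp (f := fun p : ℝ × ℝ => (p.2, p.1)) (by fun_prop)
  exact intervalIntegral.continuous_parametric_intervalIntegral_of_continuous'
    (f := fun ψ t => PK r (wp θ s t) (circleMap 0 r ψ)) h1 a b

lemma q2_int {g : ℂ → ℂ} (hg : DifferentiableOn ℂ g (ball 0 1)) {r c : ℝ} (hr0 : 0 < r)
    (hr1 : r < 1) (hc : 0 ≤ c) {Ψ : ℂ → ℝ} (hΨc : ContinuousOn Ψ (sphere 0 r))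
    (hΨ0 : ∀ z, 0 ≤ Ψ z) (hb : ∀ z, ‖z‖ = r → ‖g z‖ ≤ Real.exp (c + Ψ z)) (θ : ℝ) {s a b : ℝ}
    (h : Real.exp (-s) < r) (hab : a ≤ b) :
    ∫ t in a..b, Real.posLog ‖g (wp θ s t)‖ ≤ (b - a) * c + (2 * π)⁻¹ *
      ∫ ψ in (0:ℝ)..2 * π, (∫ t in a..b, PK r (wp θ s t) (circleMap 0 r ψ)) *
        Ψ (circleMap 0 r ψ) := by
  have hc1 : Continuous (Function.uncurry fun t ψ =>
      PK r (wp θ s t) (circleMap 0 r ψ) * Ψ (circleMap 0 r ψ)) :=
    (q2_PKc θ hr0 h).mul ((cont_cm hr0 hΨc).comp continuous_snd)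
  have hc2 := intervalIntegral.continuous_parametric_intervalIntegral_of_continuous'
    (μ := volume) hc1 0 (2 * π)
  have h2 : ∫ t in a..b, Real.posLog ‖g (wp θ s t)‖ ≤
      ∫ t in a..b, (c + (2 * π)⁻¹ * ∫ ψ in (0:ℝ)..2 * π,
        PK r (wp θ s t) (circleMap 0 r ψ) * Ψ (circleMap 0 r ψ)) := by
    apply intervalIntegral.integral_mono_on hab
    · apply Continuous.intervalIntegrable
      apply Real.continuous_posLog.comp
      apply Continuous.norm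
      exact hg.continuousOn.comp_continuous (wp_cont θ s)
        fun t => mem_disc.2 ((wp_norm θ s t).trans_lt (h.trans hr1))
    · exact (continuous_const.add (continuous_const.mul hc2)).intervalIntegrable _ _
    · intro t _
      have h3 := (wp_norm θ s t).trans_lt h
      refine posLog_le_of_le_exp (norm_nonneg _) ?_ (core_pj hg hr1 hΨc hb h3)
      have : 0 ≤ ∫ ψ in (0:ℝ)..2 * π, PK r (wp θ s t) (circleMap 0 r ψ) * Ψ (circleMap 0 r ψ) :=
        intervalIntegral.integral_nonneg (by positivity) fun ψ _ =>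
          mul_nonneg (PK_nonneg h3.le _) (hΨ0 _)
      positivity
  rw [intervalIntegral.integral_add intervalIntegrable_const
    (f := fun _ => c) (g := fun t => (2 * π)⁻¹ * ∫ ψ in (0:ℝ)..2 * π,
        PK r (wp θ s t) (circleMap 0 r ψ) * Ψ (circleMap 0 r ψ))
    ((continuous_const.mul hc2).intervalIntegrable _ _), intervalIntegral.integral_const_mul,
    swap_int hc1 (by positivity), intervalIntegral.integral_const, smul_eq_mul] at h2
  simpa only [intervalIntegral.integral_mul_const] using h2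

lemma q2_near (θ ψ : ℝ) {s r a b : ℝ} (hr0 : 0 < r) (h : Real.exp (-s) < r) (hab : a ≤ b)
    (hb : b ≤ a + 2 * π) : ∫ t in a..b, PK r (wp θ s t) (circleMap 0 r ψ) ≤ 2 * π := by
  have hρ : ‖((Real.exp (-s) : ℝ) : ℂ)‖ < r := by
    rw [Complex.norm_real, Real.norm_eq_abs, abs_of_pos (Real.exp_pos _)]; exact h
  have e : ∀ t, PK r (wp θ s t) (circleMap 0 r ψ) =
      PK r (Real.exp (-s) : ℝ) (circleMap 0 r (ψ + θ - t)) := by
    intro t
    have e1 : circleMap 0 r ψ - wp θ s t = cexp ((t - θ : ℝ) * I) *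
        (circleMap 0 r (ψ + θ - t) - (Real.exp (-s) : ℝ)) := by
      simp only [circleMap, wp, zero_add]
      push_cast
      rw [mul_sub, mul_left_comm, ← Complex.exp_add, ← Complex.exp_add]
      congr 2
      · congr 1; ring
      · ring
    unfold PK
    rw [wp_norm, Complex.norm_real, Real.norm_eq_abs, abs_of_pos (Real.exp_pos _), e1, norm_mul,
      Complex.norm_exp_ofReal_mul_I, one_mul]
  simp only [e]
  rw [intervalIntegral.integral_comp_sub_left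
    (fun θ' => PK r (Real.exp (-s) : ℝ) (circleMap 0 r θ'))]
  have := arc_le hr0 (PK_cont hρ) (fun z _ => PK_nonneg hρ.le z)
    (a := ψ + θ - b) (b := ψ + θ - a) (by linarith) (by linarith)
  rwa [av_PK hρ, mul_one] at this

lemma q2_far (θ ψ : ℝ) {s r y : ℝ} (hr0 : 0 < r) (hr1 : r < 1) (h : Real.exp (-s) < r)
    (hs : 0 < s) (hsy : s ≤ y) (hy : y ≤ 1 / 4)
    (hn : ¬(y / 8 < ‖circleMap 0 r ψ - cexp (-(θ * I))‖ ∧
      ‖circleMap 0 r ψ - cexp (-(θ * I))‖ < 3 * y)) :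
    ∫ t in (y / 2)..y, PK r (wp θ s t) (circleMap 0 r ψ) ≤ 64 * s / y := by
  have h0 : 0 < y := hs.trans_le hsy
  have h1 : ∀ t ∈ Icc (y / 2) y, PK r (wp θ s t) (circleMap 0 r ψ) ≤ 2 * s / (y / 8) ^ 2 := by
    intro t ht
    have h2 : t ≤ ‖(s : ℂ) - t * I‖ := by
      have := Complex.abs_im_le_norm ((s : ℂ) - t * I)
      simp only [sub_im, ofReal_im, mul_im, ofReal_re, I_im, mul_one, I_re, mul_zero, add_zero,
        zero_sub, abs_neg] at this
      exact (le_abs_self t).trans this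
    have h3 : ‖(s : ℂ) - t * I‖ ≤ 2 * y := by
      refine (norm_sub_le _ _).trans ?_
      simp only [Complex.norm_real, Real.norm_eq_abs, norm_mul, norm_I, mul_one]
      rw [abs_of_pos hs, abs_of_pos (by linarith [ht.1])]
      linarith [ht.2]
    obtain ⟨h4, h5⟩ := dist_bounds θ (τ := (s : ℂ) - t * I) (by simpa using hs.le) (by linarith)
    have h6 := far_of_not (w := wp θ s t) (d := y) (le_trans (by linarith [ht.1]) h4)
      (h5.trans h3) hn
    exact PK_far (wp_norm θ s t) hr0.le hr1.le hs.le (by positivity) h6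
  have h2 := intervalIntegral.integral_mono_on (μ := volume) (by linarith : y / 2 ≤ y)
    (f := fun t => PK r (wp θ s t) (circleMap 0 r ψ))
    (((q2_PKc θ hr0 h).comp (f := fun t : ℝ => (t, ψ)) (by fun_prop)).intervalIntegrable _ _)
    intervalIntegrable_const h1
  refine h2.trans (le_of_eq ?_)
  rw [intervalIntegral.integral_const, smul_eq_mul]
  field_simp; ring

theorem q2 (hK : HK lam) {α δ M : ℝ} (hM : 1 ≤ M) (hU : UB lam α δ M) {β : ℝ}
    (hβ : 0 < β) (hβδ : β ≤ δ) :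
    ∃ γ : ℝ, 0 < γ ∧ ∀ θ : ℝ, ∃ δ' : ℝ, 0 < δ' ∧ ∀ y s : ℝ, 0 < y → y < δ' → 0 < s → s ≤ γ * y →
      ∀ f, Cls α β f → ∫ t in (y / 2)..y, Real.posLog ‖T lam f (wp θ s t)‖ ≤
        2 * (8 * M + 1) / δ * β := by
  have hδ : 0 < δ := hβ.trans_le hβδ
  obtain ⟨m, hm1, hm2, hm3⟩ : ∃ m : ℕ, 1 ≤ m ∧ m * β ≤ δ ∧ δ ≤ 2 * (m * β) := by
    have hm1 : 1 ≤ ⌊δ / β⌋₊ := Nat.le_floor (by rw [Nat.cast_one, le_div_iff₀ hβ]; linarith)
    have hm1' : (1 : ℝ) ≤ ⌊δ / β⌋₊ := by exact_mod_cast hm1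
    refine ⟨⌊δ / β⌋₊, hm1, ?_, ?_⟩
    · have := Nat.floor_le (a := δ / β) (by positivity)
      rwa [le_div_iff₀ hβ] at this
    · have := Nat.lt_floor_add_one (δ / β)
      rw [div_lt_iff₀ hβ] at this
      nlinarith
  have hm1' : (1 : ℝ) ≤ m := by exact_mod_cast hm1
  have hlm : 0 ≤ Real.log m := Real.log_natCast_nonneg m
  refine ⟨1 / (64 * m), by positivity, fun θ => ?_⟩
  by_contra hcon
  push Not at hcon
  obtain ⟨o, ho, hlac⟩ := lac_select (O := ℝ × ℝ × (ℂ → ℂ)) (fun o => o.1)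
    (fun o => 0 < o.2.1 ∧ o.2.1 ≤ 1 / (64 * m) * o.1 ∧ Cls α β o.2.2 ∧ 2 * (8 * M + 1) / δ * β <
      ∫ t in (o.1 / 2)..o.1, Real.posLog ‖T lam o.2.2 (wp θ o.2.1 t)‖)
    (fun δ' hδ' => by
      obtain ⟨y, s, h1, h2, h3, h4, f, hf, h5⟩ := hcon δ' hδ'
      exact ⟨(y, s, f), ⟨h3, h4, hf, h5⟩, h1, h2⟩)
    (δ := min (1 / 4) (1 / (m * (Real.log m + 1)))) (by positivity)
  obtain ⟨y, s, f, hs0, hsy, hf, hbad, hy0, hy1, hy2, hlac⟩ :
      ∃ (y s : ℕ → ℝ) (f : ℕ → ℂ → ℂ), (∀ j, 0 < s j) ∧ (∀ j, 64 * m * s j ≤ y j) ∧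
      (∀ j, Cls α β (f j)) ∧ (∀ j, 2 * (8 * M + 1) / δ * β <
        ∫ t in (y j / 2)..y j, Real.posLog ‖T lam (f j) (wp θ (s j) t)‖) ∧ (∀ j, 0 < y j) ∧
      (∀ j, y j ≤ 1 / 4) ∧ (∀ j, y j * (Real.log m + 1) ≤ 1 / m) ∧
      ∀ i j, i < j → 24 * y j ≤ y i := by
    refine ⟨fun j => (o j).1, fun j => (o j).2.1, fun j => (o j).2.2, fun j => (ho j).1.1,
      fun j => ?_, fun j => (ho j).1.2.2.1, fun j => (ho j).1.2.2.2, fun j => (ho j).2.1,
      fun j => ((ho j).2.2.trans_le (min_le_left _ _)).le, fun j => ?_, hlac⟩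
    · have := (ho j).1.2.1
      rw [div_mul_eq_mul_div, le_div_iff₀ (by positivity)] at this
      linarith
    · have := ((ho j).2.2.trans_le (min_le_right _ _)).le
      rw [le_div_iff₀ (by positivity)] at this
      rw [le_div_iff₀ (by positivity)]
      linarith
  have hsy' : ∀ j, s j ≤ y j := fun j => by nlinarith [hsy j, hs0 j]
  obtain ⟨r, hr0, hr1, hr⟩ := exists_r m hs0
  have hwr' : ∀ j < m, Real.exp (-s j) < r := by
    intro j hj
    have := exp_neg_le' (hs0 j).le (by linarith [hy1 j, hsy' j])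
    linarith [hr j hj, hs0 j]
  obtain ⟨Ψ, hΨc, hΨ0, hΨa, hΨ⟩ := hU m f (fun _ => β)
    (fun j _ => hf j) (fun _ => hβ.le) (by simpa using hm2) r hr0 hr1
  have hsum := core_sum (m := m)
    (G := fun j ψ => ∫ t in (y j / 2)..y j, PK r (wp θ (s j) t) (circleMap 0 r ψ))
    (fun j hj => q2_Gc θ hr0 (hwr' j hj) _ _)
    (A := 2 * π + m * (1 / m)) hr0 (by positivity) ?_ hΨc hΨ0 hΨa
  · have h1 : ∀ j ∈ Finset.range m, 2 * (8 * M + 1) / δ * β - 1 / m < (2 * π)⁻¹ *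
        ∫ ψ in (0:ℝ)..2 * π, (∫ t in (y j / 2)..y j, PK r (wp θ (s j) t) (circleMap 0 r ψ)) *
          Ψ (circleMap 0 r ψ) := by
      intro j hj
      have hj := Finset.mem_range.1 hj
      have h5 := hy0 j
      have h2 := q2_int (T_diff hK (hf j).1) hr0 hr1 hlm hΨc hΨ0 (hΨ j hj) θ (hwr' j hj)
        (by linarith : y j / 2 ≤ y j)
      have h3 := hy2 j
      have h6 : (y j - y j / 2) * Real.log m ≤ 1 / m := by nlinarith
      linarith [hbad j]
    have h2 := Finset.sum_lt_sum_of_nonempty (Finset.nonempty_range_iff.2 (by omega)) h1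
    simp only [Finset.sum_const, Finset.card_range, nsmul_eq_mul] at h2
    have h3 : (m : ℝ) * (1 / m) = 1 := by field_simp
    have h4 : 8 * M + 1 ≤ m * (2 * (8 * M + 1) / δ * β) := by
      calc 8 * M + 1 = (8 * M + 1) / δ * δ := by field_simp
        _ ≤ (8 * M + 1) / δ * (2 * (m * β)) := by gcongr
        _ = _ := by ring
    rw [h3] at hsum
    rw [mul_sub, h3] at h2
    have h5 : (2 * π + 1) * M ≤ 8 * M := by gcongr; linarith [Real.pi_lt_d2]
    linarith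
  · intro ψ
    apply lac_sum m hlac (u := ‖circleMap 0 r ψ - cexp (-(θ * I))‖) (by positivity) (by positivity)
    · intro j hj
      exact q2_near θ ψ hr0 (hwr' j hj) (by linarith [hy0 j])
        (by linarith [hy1 j, hy0 j, Real.pi_gt_three])
    · intro j hj hn
      refine (q2_far θ ψ hr0 hr1 (hwr' j hj) (hs0 j) (hsy' j) (hy1 j) hn).trans ?_
      rw [div_le_div_iff₀ (hy0 j) (by positivity)]
      linarith [hsy j]

end Pool.Agent.Lib.MP_b4c8d9_an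
end

-- part Pool.Agent.Lib.MP_b4c8d9_an.Kern
section

/-! Approximate continuation kernels. -/

namespace Pool.Agent.Lib.MP_b4c8d9_an

open Complex Real Metric Set Filter Topology MeasureTheory

variable {lam : ℕ → ℂ}

noncomputable def Ek (α : ℝ) (p y : ℂ) : ℂ := cexp (α * (Phi y - Phi p))

lemma Ek_self (α : ℝ) (p : ℂ) : Ek α p p = 1 := by simp [Ek]

lemma Ek_norm (α : ℝ) (p y : ℂ) : ‖Ek α p y‖ = Real.exp (α * P y - α * P p) := by
  rw [Ek, Complex.norm_exp, re_ofReal_mul, sub_re, re_Phi, re_Phi, mul_sub]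

lemma Ek_diff (α : ℝ) (p : ℂ) : DifferentiableOn ℂ (Ek α p) (ball 0 1) :=
  ((Phi_diff.sub_const _).const_mul _).cexp

lemma comp_rot {g : ℂ → ℂ} (hg : DifferentiableOn ℂ g (ball 0 1)) {c : ℂ} (hc : ‖c‖ = 1) :
    DifferentiableOn ℂ (fun y => g (c * y)) (ball 0 1) :=
  hg.comp (by fun_prop) fun y hy => mem_disc.2 (by rw [norm_mul, hc, one_mul]; exact mem_disc.1 hy)

lemma dslope_diff {g : ℂ → ℂ} (hg : DifferentiableOn ℂ g (ball 0 1)) {p : ℂ} (hp : ‖p‖ < 1) :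
    DifferentiableOn ℂ (dslope g p) (ball 0 1) :=
  (Complex.differentiableOn_dslope (isOpen_ball.mem_nhds (mem_disc.2 hp))).2 hg

lemma dslope_eq (g : ℂ → ℂ) {p y : ℂ} (h : y ≠ p) : dslope g p y = (g y - g p) / (y - p) := by
  rw [dslope_of_ne _ h, slope_def_field]

lemma dslope_bound {g q : ℂ → ℂ} (hg : DifferentiableOn ℂ g (ball 0 1))
    (hq : DifferentiableOn ℂ q (ball 0 1)) {p : ℂ} (hp : ‖p‖ < 1) {c : ℝ}
    (hb : ∀ y : ℂ, ‖y‖ < 1 → ‖g y - g p‖ ≤ c * Real.exp (q y).re) {y : ℂ} (hy : ‖y‖ < 1) :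
    ‖dslope g p y‖ ≤ 2 * c / (1 - ‖p‖) * Real.exp (q y).re := by
  have hx : 0 < 1 - ‖p‖ := by linarith
  have hc : 0 ≤ c := by
    have := hb p hp
    rw [sub_self, norm_zero] at this
    exact nonneg_of_mul_nonneg_left this (Real.exp_pos _)
  have far : ∀ v : ℂ, ‖v‖ < 1 → (1 - ‖p‖) / 2 ≤ ‖v - p‖ →
      ‖dslope g p v‖ ≤ 2 * c / (1 - ‖p‖) * Real.exp (q v).re := by
    intro v hv h
    have h0 : 0 < ‖v - p‖ := by linarith
    rw [dslope_eq g (sub_ne_zero.1 (norm_pos_iff.1 h0)), norm_div]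
    calc ‖g v - g p‖ / ‖v - p‖ ≤ c * Real.exp (q v).re / ((1 - ‖p‖) / 2) := by
          gcongr; exact hb v hv
      _ = _ := by field_simp
  by_cases h : (1 - ‖p‖) / 2 ≤ ‖y - p‖
  · exact far y hy h
  have hsub : closedBall p ((1 - ‖p‖) / 2) ⊆ ball 0 1 := by
    intro v hv
    rw [mem_closedBall, dist_eq_norm] at hv
    have := norm_le_insert' v p
    exact mem_disc.2 (by linarith)
  have hF : DiffContOnCl ℂ (fun v => dslope g p v * cexp (-q v)) (ball p ((1 - ‖p‖) / 2)) := by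
    apply DifferentiableOn.diffContOnCl
    rw [closure_ball p (by positivity)]
    exact ((dslope_diff hg hp).mul hq.neg.cexp).mono hsub
  have h1 : ‖dslope g p y * cexp (-q y)‖ ≤ 2 * c / (1 - ‖p‖) := by
    apply Complex.norm_le_of_forall_mem_frontier_norm_le isBounded_ball hF _
      (subset_closure (by rw [mem_ball, dist_eq_norm]; linarith))
    intro v hv
    rw [frontier_ball p (by positivity)] at hv
    have h2 := far v (mem_disc.1 (hsub (sphere_subset_closedBall hv)))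
      (by rw [mem_sphere, dist_eq_norm] at hv; exact hv.ge)
    rw [norm_mul, Complex.norm_exp, neg_re, Real.exp_neg, ← div_eq_mul_inv,
      div_le_iff₀ (Real.exp_pos _)]
    exact h2
  rwa [norm_mul, Complex.norm_exp, neg_re, Real.exp_neg, ← div_eq_mul_inv,
    div_le_iff₀ (Real.exp_pos _)] at h1

noncomputable def H (lam : ℕ → ℂ) (g : ℂ → ℂ) (a p : ℂ) : ℂ := p * T lam (dslope g p) a

lemma ne_of_norm_ne {z y : ℂ} {ρ : ℝ} (hz : ‖z‖ ≠ ρ) (hy : ‖y‖ = ρ) : z - y ≠ 0 := by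
  intro h
  rw [sub_eq_zero] at h
  exact hz (h ▸ hy)

lemma H_eq (hK : HK lam) {g : ℂ → ℂ} (hg : DifferentiableOn ℂ g (ball 0 1)) {p z : ℂ}
    (hp : ‖p‖ < 1) (hp0 : p ≠ 0) {ρ : ℝ} (h1 : ‖z * p‖ < ρ) (h2 : ρ < 1) (h3 : ‖z‖ ≠ ρ) :
    H lam g (z * p) p =
      circleAverage (fun y => (g (z * p / y) - g p) * (y / (z - y)) * Kf lam y) 0 ρ := by
  have h0 : 0 < ρ := (norm_nonneg _).trans_lt h1
  rw [H, T_eq hK (dslope_diff hg hp) h1 h2, ← av_cmul]
  apply av_congr h0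
  intro y hy
  have hy0 := ne_zero_of_norm h0 hy
  have hzy := ne_of_norm_ne h3 hy
  have e : z * p / y - p = p * (z - y) / y := by field_simp
  have hne : z * p / y ≠ p := by
    rw [← sub_ne_zero, e]; exact div_ne_zero (mul_ne_zero hp0 hzy) hy0
  rw [dslope_eq g hne, e]
  field_simp

lemma H_int_cont (hK : HK lam) {g : ℂ → ℂ} (hg : DifferentiableOn ℂ g (ball 0 1)) {a z : ℂ} (c : ℂ)
    {ρ : ℝ} (h1 : ‖a‖ < ρ) (h2 : ρ < 1) (h3 : ‖z‖ ≠ ρ) :
    ContinuousOn (fun y => (g (a / y) - c) * (y / (z - y)) * Kf lam y) (sphere 0 ρ) :=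
  (((cont_div hg.continuousOn h1).sub continuousOn_const).mul
    (continuousOn_id.div (by fun_prop) fun _ hy => ne_of_norm_ne h3 (mem_sph.1 hy))).mul
    (K_cont hK h2)

lemma exists_rho {u : ℝ} (hu : u < 1) (v : ℝ) : ∃ ρ : ℝ, u < ρ ∧ ρ < 1 ∧ v ≠ ρ := by
  obtain ⟨ρ, h1, h2⟩ := exists_between hu
  by_cases h : v = ρ
  · obtain ⟨ρ', h3, h4⟩ := exists_between h2
    exact ⟨ρ', h1.trans h3, h4, h ▸ h3.ne⟩
  · exact ⟨ρ, h1, h2, h⟩

noncomputable def Gp (lam : ℕ → ℂ) (α : ℝ) (a p : ℂ) : ℂ := H lam (Ek α p) a p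

lemma good_scale (hK : HK lam) {α ℓ C : ℝ} {a : ℂ} (ha : ‖a‖ < 1) (hG : Good lam α ℓ a)
    (hC : 0 < C) {h : ℂ → ℂ} (hh : DifferentiableOn ℂ h (ball 0 1))
    (hb : ∀ y : ℂ, ‖y‖ < 1 → ‖h y‖ ≤ C * (Real.exp (α * P y) * Lw y)) :
    ‖T lam h a‖ ≤ C * Real.exp ℓ := by
  have h1 := hG (fun y => ((C⁻¹ : ℝ) : ℂ) * h y) (cls_zero (hh.const_mul _) fun y hy => by
    rw [norm_mul, Complex.norm_real, Real.norm_eq_abs, abs_of_pos (by positivity),
      inv_mul_le_iff₀ hC]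
    exact hb y hy)
  rwa [T_cmul hK hh _ ha, norm_mul, Complex.norm_real, Real.norm_eq_abs, abs_of_pos (by positivity),
    inv_mul_le_iff₀ hC] at h1

lemma aPhi_diff (α : ℝ) : DifferentiableOn ℂ (fun y => (α : ℂ) * Phi y) (ball 0 1) :=
  Phi_diff.const_mul _

lemma H_good (hK : HK lam) {α ℓ c : ℝ} {a p : ℂ} (ha : ‖a‖ < 1) (hG : Good lam α ℓ a)
    (hp : ‖p‖ < 1) (hc : 0 < c) {g : ℂ → ℂ} (hg : DifferentiableOn ℂ g (ball 0 1))
    (hb : ∀ y : ℂ, ‖y‖ < 1 → ‖g y - g p‖ ≤ c * Real.exp (α * P y)) :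
    ‖H lam g a p‖ ≤ 2 * c / (1 - ‖p‖) * Real.exp ℓ := by
  have hx : 0 < 1 - ‖p‖ := by linarith
  have h1 := good_scale hK ha hG (C := 2 * c / (1 - ‖p‖)) (by positivity) (dslope_diff hg hp)
    fun y hy => by
      have h2 := dslope_bound hg (aPhi_diff α) hp (c := c)
        (fun y hy => by rw [re_ofReal_mul, re_Phi]; exact hb y hy) hy
      rw [re_ofReal_mul, re_Phi] at h2
      refine h2.trans ?_
      gcongr
      exact le_mul_of_one_le_right (Real.exp_pos _).le (one_le_Lw hy)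
  rw [H, norm_mul]
  exact (mul_le_of_le_one_left (norm_nonneg _) hp.le).trans h1

lemma Gp_bound (hK : HK lam) {α ℓ : ℝ} (hα : 0 ≤ α) {a p : ℂ} (ha : ‖a‖ < 1)
    (hG : Good lam α ℓ a) (hp : ‖p‖ < 1) : ‖Gp lam α a p‖ ≤ 4 / (1 - ‖p‖) * Real.exp ℓ := by
  have := H_good hK ha hG hp two_pos (Ek_diff α p) fun y hy => by
    rw [Ek_self]
    refine (norm_sub_le _ _).trans ?_
    rw [Ek_norm, norm_one]
    have h1 : 1 ≤ Real.exp (α * P y) := Real.one_le_exp (mul_nonneg hα (P_nonneg hy))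
    have h2 : Real.exp (α * P y - α * P p) ≤ Real.exp (α * P y) :=
      Real.exp_le_exp.2 (by linarith [mul_nonneg hα (P_nonneg hp)])
    linarith
  rwa [show (2 : ℝ) * 2 = 4 by norm_num] at this

lemma cauchy_diff {h : ℂ → ℂ} {a : ℂ} {ρ R : ℝ} (h0 : 0 < ρ) (hh : ContinuousOn h (sphere 0 ρ))
    (hR : ∀ y : ℂ, ‖y‖ = ρ → ‖a / y‖ = R) :
    DifferentiableOn ℂ (fun p => circleAverage (fun y => h y * (a / y - p)⁻¹) 0 ρ) (ball 0 R) := by
  intro p₀ hp₀
  have hne : ∀ p ∈ ball (0 : ℂ) R, ∀ y : ℂ, ‖y‖ = ρ → a / y - p ≠ 0 :=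
    fun p hp y hy => sub_ne_of_norm (mem_disc.1 hp) (hR y hy)
  have hdiv : ContinuousOn (fun y => a / y) (sphere 0 ρ) :=
    continuousOn_const.div continuousOn_id fun y hy => ne_zero_of_norm h0 (mem_sph.1 hy)
  refine (hasDerivAt_av (F := fun p y => h y * (a / y - p)⁻¹)
    (F' := fun p y => h y * ((a / y - p) ^ 2)⁻¹) isOpen_ball hp₀ h0 ?_ ?_
    ?_).differentiableAt.differentiableWithinAt
  · intro p hp
    exact hh.mul ((hdiv.sub continuousOn_const).inv₀ fun y hy => hne p hp y (mem_sph.1 hy))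
  · apply ContinuousOn.mul (hh.comp continuousOn_snd fun q hq => hq.2)
    apply ContinuousOn.inv₀
    · exact ((hdiv.comp continuousOn_snd fun q hq => hq.2).sub continuousOn_fst).pow 2
    · intro q hq
      exact pow_ne_zero _ (hne _ hq.1 _ (mem_sph.1 hq.2))
  · intro p hp y hy
    have := (((hasDerivAt_id p).const_sub (a / y)).inv (hne p hp y hy)).const_mul (h y)
    refine HasDerivAt.congr_deriv this ?_
    simp only [id]
    ring

lemma Gp_diff (hK : HK lam) (α : ℝ) {a : ℂ} (ha : ‖a‖ < 1) (ha0 : a ≠ 0) :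
    DifferentiableOn ℂ (Gp lam α a) (ball 0 1) := by
  intro p₀ hp₀
  obtain ⟨R, hR1, hR2⟩ := exists_between (max_lt ha (mem_disc.1 hp₀))
  have hRa : ‖a‖ < R := (le_max_left _ _).trans_lt hR1
  have hRp : ‖p₀‖ < R := (le_max_right _ _).trans_lt hR1
  have han : 0 < ‖a‖ := norm_pos_iff.2 ha0
  have hR0 : 0 < R := han.trans hRa
  have h0 : 0 < ‖a‖ / R := by positivity
  have h1 : ‖a‖ < ‖a‖ / R := by rw [lt_div_iff₀ hR0]; nlinarith
  have h2 : ‖a‖ / R < 1 := (div_lt_one hR0).2 hRa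
  have hR : ∀ y : ℂ, ‖y‖ = ‖a‖ / R → ‖a / y‖ = R := by
    intro y hy; rw [norm_div, hy]; field_simp
  have hc1 : ContinuousOn (fun y => cexp (α * Phi (a / y)) * Kf lam y) (sphere 0 (‖a‖ / R)) :=
    (cont_div (aPhi_diff α).cexp.continuousOn h1).mul (K_cont hK h2)
  have hA := cauchy_diff h0 hc1 hR
  have hB := cauchy_diff h0 (K_cont hK h2) hR
  have hsub : ball (0 : ℂ) R ⊆ ball 0 1 := ball_subset_ball hR2.le
  have hd : DifferentiableOn ℂ (fun p => p * (cexp (-(α * Phi p)) * circleAverage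
      (fun y => cexp (α * Phi (a / y)) * Kf lam y * (a / y - p)⁻¹) 0 (‖a‖ / R) -
      circleAverage (fun y => Kf lam y * (a / y - p)⁻¹) 0 (‖a‖ / R))) (ball 0 R) :=
    differentiableOn_id.mul (((((aPhi_diff α).mono hsub).neg.cexp).mul hA).sub hB)
  have hd' : DifferentiableOn ℂ (Gp lam α a) (ball 0 R) := by
    refine hd.congr fun p hp => ?_
    have hp1 : ‖p‖ < 1 := mem_disc.1 (hsub hp)
    have hne : ∀ y : ℂ, ‖y‖ = ‖a‖ / R → a / y - p ≠ 0 :=
      fun y hy => sub_ne_of_norm (mem_disc.1 hp) (hR y hy)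
    have hinv : ContinuousOn (fun y => (a / y - p)⁻¹) (sphere 0 (‖a‖ / R)) :=
      ((continuousOn_const.div continuousOn_id fun y hy =>
        ne_zero_of_norm h0 (mem_sph.1 hy)).sub continuousOn_const).inv₀
        fun y hy => hne y (mem_sph.1 hy)
    rw [Gp, H, T_eq hK (dslope_diff (Ek_diff α p) hp1) h1 h2, ← av_cmul (cexp (-(α * Phi p))),
      ← av_sub h0 (f := fun y => cexp (-(α * Phi p)) *
        (cexp (α * Phi (a / y)) * Kf lam y * (a / y - p)⁻¹))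
        (g := fun y => Kf lam y * (a / y - p)⁻¹)
        (continuousOn_const.mul (hc1.mul hinv)) ((K_cont hK h2).mul hinv)]
    congr 1
    apply av_congr h0
    intro y hy
    rw [dslope_eq _ (sub_ne_zero.1 (hne y hy)), Ek_self, Ek, mul_sub, sub_eq_add_neg (α * Phi _),
      Complex.exp_add]
    ring
  exact (hd'.differentiableAt (isOpen_ball.mem_nhds (mem_disc.2 hRp))).differentiableWithinAt

lemma two_point (hK : HK lam) (α β : ℝ) {p z c : ℂ} (hp : ‖p‖ < 1) (hp0 : p ≠ 0) (hc : ‖c‖ = 1)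
    (hz : ‖z * p‖ < 1) :
    Gp lam α (z * p) p - Gp lam β (z * (c * p)) (c * p) =
      H lam (fun y => Ek α p y - Ek β (c * p) (c * y)) (z * p) p := by
  obtain ⟨ρ, h1, h2, h3⟩ := exists_rho hz ‖z‖
  have h0 : 0 < ρ := (norm_nonneg _).trans_lt h1
  have hc0 : c ≠ 0 := ne_zero_of_norm one_pos hc
  have hcp : ‖c * p‖ < 1 := by rwa [norm_mul, hc, one_mul]
  have h1' : ‖z * (c * p)‖ < ρ := by rwa [norm_mul, norm_mul, hc, one_mul, ← norm_mul]
  rw [Gp, Gp, H_eq hK (Ek_diff α p) hp hp0 h1 h2 h3,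
    H_eq hK (Ek_diff β _) hcp (mul_ne_zero hc0 hp0) h1' h2 h3,
    H_eq hK (g := fun y => Ek α p y - Ek β (c * p) (c * y))
      ((Ek_diff α p).sub (comp_rot (Ek_diff β _) hc)) hp hp0 h1 h2 h3,
    ← av_sub h0 (H_int_cont hK (Ek_diff α p) _ h1 h2 h3) (H_int_cont hK (Ek_diff β _) _ h1' h2 h3)]
  congr 1
  funext y
  rw [show c * (z * p / y) = z * (c * p) / y by ring]
  ring

lemma K_bound {B : ℝ} (hB : ∀ n, ‖lam n‖ ≤ B) {y : ℂ} (hy : ‖y‖ < 1) :
    ‖Kf lam y‖ ≤ B / (1 - ‖y‖) := by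
  have h := (hasSum_geometric_of_lt_one (norm_nonneg y) hy).mul_left B
  rw [div_eq_mul_inv]
  refine tsum_of_norm_bounded h fun n => ?_
  rw [norm_mul, norm_pow]
  gcongr
  exact hB n

lemma Gp_sub_K (hK : HK lam) {B : ℝ} (hB : ∀ n, ‖lam n‖ ≤ B) {α : ℝ} (hα : 0 ≤ α) {p z : ℂ}
    (hp : ‖p‖ < 1) (hp0 : p ≠ 0) {ρ : ℝ} (h1 : ‖z‖ < ρ) (h2 : ρ < 1) :
    ‖Kf lam z - Gp lam α (z * p) p‖ ≤
      Real.exp (α * (2 / (1 - ‖z * p‖ / ρ)) - α * P p) * (ρ / (ρ - ‖z‖)) * (B / (1 - ρ)) := by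
  have h0 : 0 < ρ := (norm_nonneg _).trans_lt h1
  have h3 : ‖z * p‖ < ρ := by
    rw [norm_mul]; exact (mul_le_of_le_one_right (norm_nonneg _) hp.le).trans_lt h1
  have hKz : circleAverage (fun y => (y / (y - z)) * Kf lam y) 0 ρ = Kf lam z := by
    have h4 := diffCont_of_disc (K_diff hK) h0 h2
    rw [← abs_of_pos h0] at h4
    simpa using h4.circleAverage_smul_div (w := z) (by rw [abs_of_pos h0]; exact mem_disc.2 h1)
  have hc : ContinuousOn (fun y => (y / (y - z)) * Kf lam y) (sphere 0 ρ) :=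
    (continuousOn_id.div (by fun_prop) fun y hy => sub_ne_of_norm h1 (mem_sph.1 hy)).mul
      (K_cont hK h2)
  rw [Gp, H_eq hK (Ek_diff α p) hp hp0 h3 h2 h1.ne, ← hKz,
    ← av_sub h0 hc (H_int_cont hK (Ek_diff α p) _ h3 h2 h1.ne)]
  apply av_norm_le h0
  intro y hy
  have hyz := sub_ne_of_norm h1 hy
  have hzy := ne_of_norm_ne h1.ne hy
  have e : y / (y - z) * Kf lam y - (Ek α p (z * p / y) - Ek α p p) * (y / (z - y)) * Kf lam y =
      Ek α p (z * p / y) * (y / (y - z)) * Kf lam y := by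
    rw [Ek_self]; field_simp; ring
  have h4 := K_bound hB (hy.trans_lt h2)
  have h5 := P_le (norm_div_lt h3 hy)
  have h6 : ρ - ‖z‖ ≤ ‖y - z‖ := hy ▸ norm_sub_norm_le y z
  have h7 : 0 < ρ - ‖z‖ := by linarith
  rw [norm_div, hy] at h5
  rw [hy] at h4
  rw [e, norm_mul, norm_mul, Ek_norm, norm_div, hy]
  gcongr

end Pool.Agent.Lib.MP_b4c8d9_an
end

-- part Pool.Agent.Lib.MP_b4c8d9_an.Lip
section

/-! The kernel in logarithmic coordinates and its dependence on the base point. -/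

namespace Pool.Agent.Lib.MP_b4c8d9_an

open Complex Real Metric Set Filter Topology MeasureTheory

variable {lam : ℕ → ℂ}

lemma exp_neg_lt_one {τ : ℂ} (h : 0 < τ.re) : ‖cexp (-τ)‖ < 1 := by
  rw [norm_exp_neg]; exact Real.exp_lt_one_iff.2 (by linarith)

lemma P_low {τ : ℂ} (h : 0 < τ.re) : 2 * τ.re / ((1 + 2 * τ.re) * ‖τ‖ ^ 2) ≤ P (cexp (-τ)) := by
  have h1 := one_sub_exp_le h.le
  have h2 : 0 < ‖1 - cexp (-τ)‖ := norm_pos_iff.2 (one_sub_ne (exp_neg_lt_one h))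
  have h3 : 2 * τ.re / (1 + 2 * τ.re) ≤ 1 - ‖cexp (-τ)‖ ^ 2 := by
    rw [norm_exp_neg, ← Real.exp_nat_mul]
    have := exp_neg_le (d := 2 * τ.re) (by positivity)
    have e : 2 * τ.re / (1 + 2 * τ.re) = 1 - 1 / (1 + 2 * τ.re) := by field_simp; ring
    rw [e, show ((2 : ℕ) : ℝ) * -τ.re = -(2 * τ.re) by push_cast; ring]
    linarith
  rw [P, ← div_div]
  have h4 : 0 ≤ 2 * τ.re / (1 + 2 * τ.re) := by positivity
  gcongr
  linarith

lemma P_cone {τ : ℂ} (h : 0 < τ.re) (h2 : τ.re ≤ 2) (h3 : |τ.im| ≤ 8 * τ.re) :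
    1 / (200 * τ.re) ≤ P (cexp (-τ)) := by
  refine le_trans ?_ (P_low h)
  have h4 : ‖τ‖ ^ 2 ≤ 65 * τ.re ^ 2 := by
    rw [Complex.sq_norm, normSq_apply]
    have : τ.im ^ 2 ≤ (8 * τ.re) ^ 2 := sq_le_sq' (abs_le.1 h3).1 (abs_le.1 h3).2
    nlinarith
  have h5 : 0 < ‖τ‖ := h.trans_le (re_le_norm τ)
  rw [div_le_div_iff₀ (by positivity) (by positivity)]
  have h6 : (1 + 2 * τ.re) * ‖τ‖ ^ 2 ≤ 5 * (65 * τ.re ^ 2) := by gcongr; linarith
  nlinarith

lemma P_low' {τ : ℂ} (h : 0 < τ.re) (h2 : τ.re ≤ 1 / 2) : τ.re / ‖τ‖ ^ 2 ≤ P (cexp (-τ)) := by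
  refine le_trans ?_ (P_low h)
  have h5 : 0 < ‖τ‖ := h.trans_le (re_le_norm τ)
  rw [div_le_div_iff₀ (by positivity) (by positivity)]
  have : τ.re * ((1 + 2 * τ.re) * ‖τ‖ ^ 2) ≤ τ.re * (2 * ‖τ‖ ^ 2) := by gcongr; linarith
  linarith

lemma P_up {τ : ℂ} (h : 0 < τ.re) (h2 : ‖τ‖ ≤ 1 / 2) : P (cexp (-τ)) ≤ 8 * τ.re / ‖τ‖ ^ 2 := by
  have h1 := le_one_sub_exp h2
  have h5 : 0 < ‖τ‖ := h.trans_le (re_le_norm τ)
  have h3 : 1 - ‖cexp (-τ)‖ ^ 2 ≤ 2 * τ.re := by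
    rw [norm_exp_neg, ← Real.exp_nat_mul]
    have := Real.add_one_le_exp ((2 : ℕ) * -τ.re)
    push_cast at this ⊢
    linarith
  calc P (cexp (-τ)) ≤ 2 * τ.re / (‖τ‖ / 2) ^ 2 := by
        rw [P]; gcongr
    _ = _ := by field_simp; ring

lemma one_sub_norm_exp {τ : ℂ} {d : ℝ} (h0 : 0 ≤ d) (h1 : d ≤ 1) (h : d ≤ τ.re) :
    d / 2 ≤ 1 - ‖cexp (-τ)‖ := by
  rw [norm_exp_neg]
  have := exp_neg_le' h0 h1
  have h2 : Real.exp (-τ.re) ≤ Real.exp (-d) := Real.exp_le_exp.2 (by linarith)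
  linarith

noncomputable def Gl (lam : ℕ → ℂ) (α : ℝ) (b ω : ℂ) : ℂ :=
  Gp lam α (cexp (-b)) (cexp (-(b - ω)))

lemma exp_split (b ω : ℂ) : cexp (-b) = cexp (-ω) * cexp (-(b - ω)) := by
  rw [← Complex.exp_add]; congr 1; ring

noncomputable def hP (α : ℝ) (p y : ℂ) : ℂ := cexp (α * Phi y) * (1 - y * p) / (1 - y) ^ 2

lemma hP_diff (α : ℝ) (p : ℂ) : DifferentiableOn ℂ (hP α p) (ball 0 1) :=
  ((aPhi_diff α).cexp.mul (by fun_prop)).div (by fun_prop)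
    fun y hy => pow_ne_zero _ (one_sub_ne (mem_disc.1 hy))

lemma hP_cls (α : ℝ) {p : ℂ} (hp : ‖p‖ < 1) : Cls α 0 (hP α p) := by
  apply cls_zero (hP_diff α p)
  intro y hy
  have h1 : ‖1 - y * p‖ ≤ 4 := by
    have h2 := norm_sub_le (1 : ℂ) (y * p)
    have h3 : ‖y * p‖ ≤ 1 := by
      rw [norm_mul]; exact mul_le_one₀ hy.le (norm_nonneg _) hp.le
    rw [norm_one] at h2; linarith
  rw [hP, norm_div, norm_mul, Complex.norm_exp, re_ofReal_mul, re_Phi, norm_pow, Lw, mul_div_assoc]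
  gcongr

lemma cont_Phi {X : Type*} [TopologicalSpace X] {f : X → ℂ} {S : Set X} (hf : ContinuousOn f S)
    (h : ∀ x ∈ S, ‖f x‖ < 1) : ContinuousOn (fun x => Phi (f x)) S :=
  Phi_diff.continuousOn.comp hf fun x hx => mem_disc.2 (h x hx)

lemma Gl_deriv (hK : HK lam) (α : ℝ) {b₀ ω : ℂ} (h1 : 0 < b₀.re) (h2 : ω.re < b₀.re) :
    HasDerivAt (fun b => Gl lam α b ω)
      (-(2 * α * cexp (-(b₀ - ω)) * cexp (-(α * Phi (cexp (-(b₀ - ω))))) /
        (1 - cexp (-(b₀ - ω))) ^ 2) * T lam (hP α (cexp (-(b₀ - ω)))) (cexp (-b₀))) b₀ := by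
  obtain ⟨ρ, hρ1, hρ2, hρ3⟩ := exists_rho (exp_neg_lt_one h1) ‖cexp (-ω)‖
  have h0 : 0 < ρ := (norm_nonneg _).trans_lt hρ1
  set U : Set ℂ := {b | ‖cexp (-b)‖ < ρ ∧ ω.re < b.re} with hU
  have hUo : IsOpen U := (isOpen_lt (f := fun b => ‖cexp (-b)‖) (g := fun _ => ρ) (by fun_prop)
    continuous_const).inter (isOpen_lt (f := fun _ => ω.re) continuous_const Complex.continuous_re)
  have hb₀ : b₀ ∈ U := ⟨hρ1, h2⟩
  have hp : ∀ b ∈ U, ‖cexp (-(b - ω))‖ < 1 := fun b hb =>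
    exp_neg_lt_one (by rw [sub_re]; linarith [hb.2])
  have hF := hasDerivAt_av
    (F := fun b y => (Ek α (cexp (-(b - ω))) (cexp (-b) / y) - 1) * (y / (cexp (-ω) - y)) * Kf lam y)
    (F' := fun b y => -(2 * α * cexp (-(b - ω)) * cexp (-(α * Phi (cexp (-(b - ω))))) /
        (1 - cexp (-(b - ω))) ^ 2) * (hP α (cexp (-(b - ω))) (cexp (-b) / y) * Kf lam y))
    hUo hb₀ h0 ?_ ?_ ?_
  · rw [av_cmul, ← T_eq hK (hP_diff α _) hρ1 hρ2] at hF
    refine hF.congr_of_eventuallyEq ?_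
    filter_upwards [hUo.mem_nhds hb₀] with b hb
    have := H_eq hK (Ek_diff α (cexp (-(b - ω)))) (hp b hb) (Complex.exp_ne_zero _)
      (z := cexp (-ω)) (by rw [← exp_split]; exact hb.1) hρ2 hρ3
    rw [← exp_split, Ek_self] at this
    exact this
  · intro b hb
    exact H_int_cont hK (Ek_diff α _) 1 hb.1 hρ2 hρ3
  · have hc1 : ContinuousOn (fun q : ℂ × ℂ => cexp (-(q.1 - ω))) (U ×ˢ sphere 0 ρ) := by fun_prop
    have hc2 : ContinuousOn (fun q : ℂ × ℂ => cexp (-q.1) / q.2) (U ×ˢ sphere 0 ρ) :=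
      ContinuousOn.div (by fun_prop) (by fun_prop)
        fun q hq => ne_zero_of_norm h0 (mem_sph.1 hq.2)
    have hn2 : ∀ q ∈ U ×ˢ sphere (0 : ℂ) ρ, ‖cexp (-q.1) / q.2‖ < 1 :=
      fun q hq => norm_div_lt hq.1.1 (mem_sph.1 hq.2)
    have hc3 := cont_Phi hc1 fun q hq => hp _ hq.1
    have hc4 := cont_Phi hc2 hn2
    have hc5 : ContinuousOn (fun q : ℂ × ℂ => Kf lam q.2) (U ×ˢ sphere 0 ρ) :=
      (K_cont hK hρ2).comp continuousOn_snd fun q hq => hq.2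
    refine ContinuousOn.mul (ContinuousOn.neg (ContinuousOn.div ?_ ?_ ?_))
      (ContinuousOn.mul (ContinuousOn.div ?_ ?_ ?_) hc5)
    · exact (continuousOn_const.mul hc1).mul (continuousOn_const.mul hc3).neg.cexp
    · exact (continuousOn_const.sub hc1).pow 2
    · intro q hq; exact pow_ne_zero _ (one_sub_ne (hp _ hq.1))
    · exact (continuousOn_const.mul hc4).cexp.mul (continuousOn_const.sub (hc2.mul hc1))
    · exact (continuousOn_const.sub hc2).pow 2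
    · intro q hq; exact pow_ne_zero _ (one_sub_ne (hn2 q hq))
  · intro b hb y hy
    have hy0 := ne_zero_of_norm h0 hy
    have hzy := ne_of_norm_ne hρ3 hy
    have hv := norm_div_lt hb.1 hy
    have d1 : HasDerivAt (fun b => cexp (-b) / y) (cexp (-b) * (-1) / y) b :=
      ((hasDerivAt_neg b).cexp).div_const y
    have d2 : HasDerivAt (fun b => cexp (-(b - ω))) (cexp (-(b - ω)) * (-1)) b :=
      (((hasDerivAt_id b).sub_const ω).neg).cexp
    have d3 := (Phi_hasDeriv hv).comp b d1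
    have d4 := (Phi_hasDeriv (hp b hb)).comp b d2
    have d5 := (((((d3.sub d4).const_mul (α : ℂ)).cexp).sub_const 1).mul_const
      (y / (cexp (-ω) - y))).mul_const (Kf lam y)
    refine HasDerivAt.congr_deriv d5 ?_
    have e1 := one_sub_ne hv
    have e2 := one_sub_ne (hp b hb)
    simp only [Function.comp_apply, Pi.sub_apply, hP]
    rw [mul_sub (α : ℂ) (Phi _), sub_eq_add_neg (α * Phi _), Complex.exp_add]
    rw [exp_split b ω] at e1 ⊢
    generalize cexp (-ω) = z at *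
    generalize cexp (-(b - ω)) = p at *
    have e3 : y - z * p ≠ 0 := by
      intro h
      apply e1
      rw [sub_eq_zero] at h
      rw [← h, div_self hy0, sub_self]
    have e4 : 1 - z * p / y = (y - z * p) / y := by field_simp
    rw [e4]
    field_simp
    ring

lemma Gl_lip (hK : HK lam) {α ℓ d E : ℝ} (hα : 0 ≤ α) (hd0 : 0 < d) (hd1 : d ≤ 1) {ω : ℂ}
    {S : Set ℂ} (hS : Convex ℝ S) (h1 : ∀ b ∈ S, 0 < b.re) (h2 : ∀ b ∈ S, d ≤ (b - ω).re)
    (h3 : ∀ b ∈ S, Good lam α ℓ (cexp (-b)))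
    (h4 : ∀ b ∈ S, Real.exp (-(α * P (cexp (-(b - ω))))) ≤ E) {b₁ b₂ : ℂ} (hb₁ : b₁ ∈ S)
    (hb₂ : b₂ ∈ S) :
    ‖Gl lam α b₂ ω - Gl lam α b₁ ω‖ ≤ 8 * α / d ^ 2 * E * Real.exp ℓ * ‖b₂ - b₁‖ := by
  refine hS.norm_image_sub_le_of_norm_hasDerivWithin_le (𝕜 := ℂ) (f := fun b => Gl lam α b ω)
    (fun b hb => (Gl_deriv hK α (h1 b hb) (by
      have := h2 b hb; rw [sub_re] at this; linarith)).hasDerivWithinAt) ?_ hb₁ hb₂
  intro b hb
  have hp := exp_neg_lt_one (hd0.trans_le (h2 b hb))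
  have h5 := h3 b hb _ (hP_cls α hp)
  have h6 : d / 2 ≤ ‖1 - cexp (-(b - ω))‖ :=
    (one_sub_norm_exp hd0.le hd1 (h2 b hb)).trans (by simpa using norm_sub_norm_le (1 : ℂ) _)
  have h7 := h4 b hb
  have hE : 0 ≤ E := (Real.exp_pos _).le.trans h7
  rw [norm_mul, norm_neg, norm_div, norm_mul, norm_mul, norm_mul, Complex.norm_exp (-(α * _)),
    neg_re, re_ofReal_mul, re_Phi, norm_pow, Complex.norm_real, Real.norm_eq_abs, abs_of_nonneg hα]
  calc ‖(2 : ℂ)‖ * α * ‖cexp (-(b - ω))‖ * Real.exp (-(α * P (cexp (-(b - ω))))) /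
        ‖1 - cexp (-(b - ω))‖ ^ 2 * ‖T lam (hP α (cexp (-(b - ω)))) (cexp (-b))‖
      ≤ 2 * α * 1 * E / (d / 2) ^ 2 * Real.exp ℓ := by
        gcongr
        simp
    _ = _ := by field_simp; ring

lemma Gl_bound (hK : HK lam) {α ℓ d : ℝ} (hα : 0 ≤ α) (hd0 : 0 < d) (hd1 : d ≤ 1) {b ω : ℂ}
    (h1 : 0 < b.re) (h2 : d ≤ (b - ω).re) (h3 : Good lam α ℓ (cexp (-b))) :
    ‖Gl lam α b ω‖ ≤ 8 / d * Real.exp ℓ := by
  refine (Gp_bound hK hα (exp_neg_lt_one h1) h3 (exp_neg_lt_one (hd0.trans_le h2))).trans ?_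
  have := one_sub_norm_exp hd0.le hd1 h2
  calc 4 / (1 - ‖cexp (-(b - ω))‖) * Real.exp ℓ ≤ 4 / (d / 2) * Real.exp ℓ := by gcongr
    _ = _ := by field_simp; ring

lemma Gl_diff (hK : HK lam) (α : ℝ) {b : ℂ} (h1 : 0 < b.re) :
    DifferentiableOn ℂ (Gl lam α b) {ω | ω.re < b.re} :=
  (Gp_diff hK α (exp_neg_lt_one h1) (Complex.exp_ne_zero _)).comp
    (f := fun ω => cexp (-(b - ω))) (by fun_prop)
    fun ω hω => mem_disc.2 (exp_neg_lt_one (by rw [sub_re]; exact sub_pos.2 hω))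

noncomputable def Kl (lam : ℕ → ℂ) (ω : ℂ) : ℂ := Kf lam (cexp (-ω))

lemma Kl_diff (hK : HK lam) : DifferentiableOn ℂ (Kl lam) {ω | 0 < ω.re} :=
  (K_diff hK).comp (f := fun ω => cexp (-ω)) (by fun_prop) fun _ hω => mem_disc.2 (exp_neg_lt_one hω)

lemma Kl_bound {B d : ℝ} (hB : ∀ n, ‖lam n‖ ≤ B) (hd0 : 0 < d) (hd1 : d ≤ 1) {ω : ℂ}
    (h : d ≤ ω.re) : ‖Kl lam ω‖ ≤ 2 * B / d := by
  have hB0 : 0 ≤ B := (norm_nonneg _).trans (hB 0)
  refine (K_bound hB (exp_neg_lt_one (hd0.trans_le h))).trans ?_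
  have := one_sub_norm_exp hd0.le hd1 h
  calc B / (1 - ‖cexp (-ω)‖) ≤ B / (d / 2) := by gcongr
    _ = _ := by field_simp

lemma Kl_sub_Gl (hK : HK lam) {B α : ℝ} (hB : ∀ n, ‖lam n‖ ≤ B) (hα : 0 ≤ α) {b ω : ℂ}
    (h0 : 0 < b.re) (h1 : b.re ≤ 1) (h2 : b.re / 128 ≤ (b - ω).re) (h3 : ‖b - ω‖ ≤ 3 * b.re / 128) :
    ‖Kl lam ω - Gl lam α b ω‖ ≤ 32 * B / b.re ^ 2 * Real.exp (-(α * (6 / b.re))) := by
  have hB0 : 0 ≤ B := (norm_nonneg _).trans (hB 0)
  have hτ : 0 < (b - ω).re := by linarith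
  have h4 : (b - ω).re ≤ 3 * b.re / 128 := (re_le_norm _).trans h3
  have h5 : 3 * b.re / 4 ≤ ω.re := by rw [sub_re] at h4; linarith
  have h6 : ‖cexp (-ω)‖ < Real.exp (-(b.re / 2)) := by
    rw [norm_exp_neg]; exact Real.exp_lt_exp.2 (by linarith)
  have h7 : Real.exp (-(b.re / 2)) ≤ 1 - b.re / 4 := by
    have := exp_neg_le' (d := b.re / 2) (by linarith) (by linarith); linarith
  have h := Gp_sub_K hK hB hα (exp_neg_lt_one hτ) (Complex.exp_ne_zero _) h6 (by linarith)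
  rw [← exp_split] at h
  refine h.trans ?_
  have e1 : ‖cexp (-b)‖ / Real.exp (-(b.re / 2)) = Real.exp (-(b.re / 2)) := by
    rw [norm_exp_neg, ← Real.exp_sub]; congr 1; ring
  have h8 : 14 / b.re ≤ P (cexp (-(b - ω))) := by
    refine le_trans ?_ (P_low' hτ (by linarith))
    have h9 : 0 < ‖b - ω‖ := hτ.trans_le (re_le_norm _)
    calc 14 / b.re ≤ (b.re / 128) / (3 * b.re / 128) ^ 2 := by
          rw [div_le_div_iff₀ h0 (by positivity)]; nlinarith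
      _ ≤ (b - ω).re / ‖b - ω‖ ^ 2 := by gcongr
  have h9 : 2 / (1 - Real.exp (-(b.re / 2))) ≤ 8 / b.re := by
    rw [div_le_div_iff₀ (by linarith) h0]; linarith
  have h10 : Real.exp (-(b.re / 2)) / (Real.exp (-(b.re / 2)) - ‖cexp (-ω)‖) ≤ 8 / b.re := by
    have h11 : ‖cexp (-ω)‖ ≤ Real.exp (-(b.re / 2)) * (1 - b.re / 8) := by
      have h12 := exp_neg_le' (d := b.re / 4) (by linarith) (by linarith)
      calc ‖cexp (-ω)‖ ≤ Real.exp (-(b.re / 2)) * Real.exp (-(b.re / 4)) := by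
            rw [norm_exp_neg, ← Real.exp_add]; exact Real.exp_le_exp.2 (by linarith)
        _ ≤ _ := by gcongr; linarith
    rw [div_le_div_iff₀ (by linarith) h0]
    linarith
  have h11 : B / (1 - Real.exp (-(b.re / 2))) ≤ B / (b.re / 4) := by gcongr; linarith
  have h12 : 0 < 1 - Real.exp (-(b.re / 2)) := by linarith
  have h13 : 0 < Real.exp (-(b.re / 2)) - ‖cexp (-ω)‖ := by linarith
  rw [e1]
  calc _ ≤ Real.exp (α * (8 / b.re) - α * (14 / b.re)) * (8 / b.re) * (B / (b.re / 4)) := by gcongr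
    _ = _ := by
      rw [show α * (8 / b.re) - α * (14 / b.re) = -(α * (6 / b.re)) by ring]
      field_simp; ring

end Pool.Agent.Lib.MP_b4c8d9_an
end

-- part Pool.Agent.Lib.MP_b4c8d9_an.Arc
section

/-! The difference of the two one-sided continuations: estimate on an arc. -/

namespace Pool.Agent.Lib.MP_b4c8d9_an

open Complex Real Metric Set Filter Topology MeasureTheory

variable {lam : ℕ → ℂ}

noncomputable def pv (x v : ℝ) : ℂ := cexp (-(x - v * I))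

noncomputable def cv (v : ℝ) : ℂ := cexp (-(v * I))

noncomputable def g2 (α β x v : ℝ) (y : ℂ) : ℂ :=
  Ek α (pv x v) y - Ek β (cv v * pv x v) (cv v * y)

noncomputable def F2 (α β κ x v : ℝ) (y : ℂ) : ℂ :=
  ((x * Real.exp κ / 8 : ℝ) : ℂ) * dslope (g2 α β x v) (pv x v) y

lemma pv_norm (x v : ℝ) : ‖pv x v‖ = Real.exp (-x) := by
  simp only [pv, norm_exp_neg]; simp

lemma cv_norm (v : ℝ) : ‖cv v‖ = 1 := by
  simp only [cv, norm_exp_neg]; simp

lemma cv_pv (x v : ℝ) : cv v * pv x v = cexp (-(x : ℂ)) := by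
  rw [cv, pv, ← Complex.exp_add]; congr 1; ring

lemma pv_lt {x : ℝ} (hx : 0 < x) (v : ℝ) : ‖pv x v‖ < 1 := by
  rw [pv_norm]; exact Real.exp_lt_one_iff.2 (by linarith)

lemma g2_diff (α β x v : ℝ) : DifferentiableOn ℂ (g2 α β x v) (ball 0 1) :=
  (Ek_diff α _).sub (comp_rot (Ek_diff β _) (cv_norm v))

lemma g2_self (α β x v : ℝ) : g2 α β x v (pv x v) = 0 := by
  simp [g2, Ek_self]

lemma P_real {x : ℝ} (hx : 0 < x) (hx1 : x ≤ 1 / 2) : 1 / x ≤ P (cexp (-(x : ℂ))) := by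
  have := P_low' (τ := (x : ℂ)) (by simpa using hx) (by simpa using hx1)
  rw [ofReal_re, Complex.norm_real, Real.norm_eq_abs, abs_of_pos hx] at this
  refine le_trans (le_of_eq ?_) this
  field_simp

lemma F2_cls {α β κ x v : ℝ} (hα : 0 ≤ α) (hβ : 0 ≤ β) (hx : 0 < x) (hx1 : x ≤ 1 / 2)
    (h1 : κ ≤ α * P (pv x v)) (h2 : κ ≤ β / x) : Cls α β (F2 α β κ x v) := by
  have hp := pv_lt hx v
  refine cls_point hβ (cv_norm v) ((dslope_diff (g2_diff α β x v) hp).const_mul _) fun y hy => ?_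
  have hq : DifferentiableOn ℂ (fun y => (α : ℂ) * Phi y + β * Phi (cv v * y)) (ball 0 1) :=
    (aPhi_diff α).add (comp_rot (aPhi_diff β) (cv_norm v))
  have hre : ∀ y : ℂ, ((α : ℂ) * Phi y + β * Phi (cv v * y)).re = α * P y + β * P (cv v * y) := by
    intro y; rw [add_re, re_ofReal_mul, re_ofReal_mul, re_Phi, re_Phi]
  have h3 := dslope_bound (g2_diff α β x v) hq hp (c := 2 * Real.exp (-κ)) (fun y hy => by
    rw [g2_self, sub_zero, hre, g2]
    refine (norm_sub_le _ _).trans ?_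
    rw [Ek_norm, Ek_norm, cv_pv]
    have h4 : 0 ≤ α * P y := mul_nonneg hα (P_nonneg hy)
    have h5 : 0 ≤ β * P (cv v * y) :=
      mul_nonneg hβ (P_nonneg (by rwa [norm_mul, cv_norm, one_mul]))
    have h6 : κ ≤ β * P (cexp (-(x : ℂ))) := by
      refine h2.trans ?_
      rw [div_eq_mul_one_div]
      exact mul_le_mul_of_nonneg_left (P_real hx hx1) hβ
    have h7 : Real.exp (α * P y - α * P (pv x v)) ≤
        Real.exp (-κ) * Real.exp (α * P y + β * P (cv v * y)) := by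
      rw [← Real.exp_add]; exact Real.exp_le_exp.2 (by linarith)
    have h8 : Real.exp (β * P (cv v * y) - β * P (cexp (-(x : ℂ)))) ≤
        Real.exp (-κ) * Real.exp (α * P y + β * P (cv v * y)) := by
      rw [← Real.exp_add]; exact Real.exp_le_exp.2 (by linarith)
    linarith) hy
  rw [hre] at h3
  have h4 : x / 2 ≤ 1 - ‖pv x v‖ := one_sub_norm_exp hx.le (by linarith) (by simp)
  rw [F2, norm_mul, Complex.norm_real, Real.norm_eq_abs, abs_of_pos (by positivity)]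
  calc x * Real.exp κ / 8 * ‖dslope (g2 α β x v) (pv x v) y‖
      ≤ x * Real.exp κ / 8 * (2 * (2 * Real.exp (-κ)) / (x / 2) *
        Real.exp (α * P y + β * P (cv v * y))) := by
        gcongr
        refine h3.trans ?_
        gcongr
    _ = Real.exp (α * P y + β * P (cv v * y)) := by
        rw [Real.exp_neg]; field_simp; norm_num
    _ ≤ _ := le_mul_of_one_le_right (Real.exp_pos _).le (one_le_Lw hy)

lemma F2_cont (hK : HK lam) (α β κ θ : ℝ) {x s : ℝ} (hs : 0 < s) (hsx : s ≤ x) :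
    Continuous fun q : ℝ × ℝ => T lam (F2 α β κ x q.1) (wp θ s q.2) := by
  have hx : 0 < x := hs.trans_le hsx
  obtain ⟨ρ, hρ1, hρ2⟩ := exists_between (Real.exp_lt_one_iff.2 (by linarith : -s < 0))
  have h0 : 0 < ρ := (Real.exp_pos _).trans hρ1
  have hw : ∀ t, ‖wp θ s t‖ < ρ := fun t => (wp_norm θ s t).trans_lt hρ1
  have hne : ∀ v t : ℝ, ∀ y : ℂ, ‖y‖ = ρ → wp θ s t / y - pv x v ≠ 0 := by
    intro v t y hy
    refine sub_ne_of_norm (R := Real.exp (-s) / ρ) ?_ (by rw [norm_div, wp_norm, hy])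
    rw [pv_norm, lt_div_iff₀ h0]
    have h1 : Real.exp (-x) ≤ Real.exp (-s) := Real.exp_le_exp.2 (by linarith)
    nlinarith [Real.exp_pos (-x)]
  have e : (fun q : ℝ × ℝ => T lam (F2 α β κ x q.1) (wp θ s q.2)) = fun q : ℝ × ℝ =>
      (2 * π)⁻¹ • ∫ ψ in (0:ℝ)..2 * π, ((x * Real.exp κ / 8 : ℝ) : ℂ) *
        (g2 α β x q.1 (wp θ s q.2 / circleMap 0 ρ ψ) /
          (wp θ s q.2 / circleMap 0 ρ ψ - pv x q.1)) * Kf lam (circleMap 0 ρ ψ) := by
    funext q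
    rw [T_eq hK (f := F2 α β κ x q.1)
      ((dslope_diff (g2_diff α β x q.1) (pv_lt hx _)).const_mul _) (hw q.2) hρ2,
      av_congr h0 (g := fun y => ((x * Real.exp κ / 8 : ℝ) : ℂ) *
        (g2 α β x q.1 (wp θ s q.2 / y) / (wp θ s q.2 / y - pv x q.1)) * Kf lam y), circleAverage_def]
    intro y hy
    rw [F2, dslope_eq _ (sub_ne_zero.1 (hne _ _ y hy)), g2_self, sub_zero]
  rw [e]
  apply Continuous.fun_const_smul
  have c1 : Continuous fun r : (ℝ × ℝ) × ℝ => wp θ s r.1.2 / circleMap 0 ρ r.2 :=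
    ((wp_cont θ s).comp (continuous_snd.comp continuous_fst)).div
      ((continuous_circleMap 0 ρ).comp continuous_snd)
      fun r => ne_zero_of_norm h0 (norm_cm h0 _)
  have n1 : ∀ r : (ℝ × ℝ) × ℝ, ‖wp θ s r.1.2 / circleMap 0 ρ r.2‖ < 1 :=
    fun r => norm_div_lt (hw _) (norm_cm h0 _)
  have c2 : Continuous fun r : (ℝ × ℝ) × ℝ => pv x r.1.1 := by unfold pv; fun_prop
  have c3 : Continuous fun r : (ℝ × ℝ) × ℝ => cv r.1.1 := by unfold cv; fun_prop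
  have cP : ∀ {f : (ℝ × ℝ) × ℝ → ℂ}, Continuous f → (∀ r, ‖f r‖ < 1) →
      Continuous fun r => Phi (f r) := fun hf h =>
    Phi_diff.continuousOn.comp_continuous hf fun r => mem_disc.2 (h r)
  have c4 := cP c1 n1
  have c5 := cP c2 fun r => pv_lt hx _
  have c6 := cP (c3.mul c1) fun r => by
    simp only [Pi.mul_apply]; rw [norm_mul, cv_norm, one_mul]; exact n1 r
  have c7 := cP (c3.mul c2) fun r => by
    simp only [Pi.mul_apply]; rw [norm_mul, cv_norm, one_mul]; exact pv_lt hx _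
  have c8 : Continuous fun r : (ℝ × ℝ) × ℝ =>
      g2 α β x r.1.1 (wp θ s r.1.2 / circleMap 0 ρ r.2) :=
    (continuous_const.mul (c4.sub c5)).cexp.sub (continuous_const.mul (c6.sub c7)).cexp
  have c9 : Continuous fun r : (ℝ × ℝ) × ℝ => ((x * Real.exp κ / 8 : ℝ) : ℂ) *
      (g2 α β x r.1.1 (wp θ s r.1.2 / circleMap 0 ρ r.2) /
        (wp θ s r.1.2 / circleMap 0 ρ r.2 - pv x r.1.1)) * Kf lam (circleMap 0 ρ r.2) :=
    (continuous_const.mul (c8.div (c1.sub c2) fun r => hne _ _ _ (norm_cm h0 _))).mul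
      ((cont_cm h0 (K_cont hK hρ2)).comp continuous_snd)
  exact intervalIntegral.continuous_parametric_intervalIntegral_of_continuous'
    (f := fun (q : ℝ × ℝ) (ψ : ℝ) => ((x * Real.exp κ / 8 : ℝ) : ℂ) *
        (g2 α β x q.1 (wp θ s q.2 / circleMap 0 ρ ψ) /
          (wp θ s q.2 / circleMap 0 ρ ψ - pv x q.1)) * Kf lam (circleMap 0 ρ ψ)) c9 _ _

/-- base points on a vertical line -/
noncomputable def bp (θ s v : ℝ) : ℂ := s + (θ + v : ℝ) * I

@[simp] lemma bp_re (θ s v : ℝ) : (bp θ s v).re = s := by simp [bp]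

@[simp] lemma bp_im (θ s v : ℝ) : (bp θ s v).im = θ + v := by simp [bp]

lemma bp_sub_norm (θ s v v' : ℝ) : ‖bp θ s v - bp θ s v'‖ = |v - v'| := by
  have : bp θ s v - bp θ s v' = ((v - v' : ℝ) : ℂ) * I := by simp only [bp]; push_cast; ring
  rw [this, norm_mul, norm_I, mul_one, Complex.norm_real, Real.norm_eq_abs]

lemma vert_convex (s a b : ℝ) : Convex ℝ {z : ℂ | z.re = s ∧ a ≤ z.im ∧ z.im ≤ b} :=
  (convex_halfSpace_re_le s |>.inter (convex_halfSpace_re_ge s) |>.inter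
    ((convex_halfSpace_im_ge a).inter (convex_halfSpace_im_le b))) |> fun h => by
    convert h using 1
    ext z
    simp only [mem_ofPred_eq, mem_inter_iff]
    constructor
    · rintro ⟨h1, h2⟩; exact ⟨⟨h1.le, h1.ge⟩, h2⟩
    · rintro ⟨h1, h2⟩; exact ⟨le_antisymm h1.1 h1.2, h2⟩

lemma eq_bp {θ s : ℝ} {b : ℂ} (h : b.re = s) : b = bp θ s (b.im - θ) :=
  Complex.ext (by simp [h]) (by simp)

lemma vert_lip (hK : HK lam) {α ℓ θ s x y y' κ v₁ v₂ : ℝ} (hα : 0 ≤ α) (hs : 0 < s) (hx : 0 < x)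
    (hxy : x ≤ y) (hy : y ≤ 1 / 2) (hκ : κ ≤ α * (x / (10 * y ^ 2))) (hv : v₁ ≤ v₂)
    (hG : ∀ v, v₁ ≤ v → v ≤ v₂ → Good lam α ℓ (cexp (-bp θ s v)))
    (h1 : y' - 3 * y ≤ v₁) (h2 : v₂ ≤ y' + 3 * y) :
    ‖Gl lam α (bp θ s v₂) (bp θ (s - x) y') - Gl lam α (bp θ s v₁) (bp θ (s - x) y')‖ ≤
      8 * α / x ^ 2 * Real.exp (-κ) * Real.exp ℓ * (v₂ - v₁) := by
  have h := Gl_lip hK (ℓ := ℓ) (E := Real.exp (-κ)) hα hx (by linarith) (ω := bp θ (s - x) y')
    (vert_convex s (θ + v₁) (θ + v₂)) (fun b hb => hb.1 ▸ hs) (fun b hb => by simp [hb.1])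
    (fun b hb => by
      rw [eq_bp (θ := θ) hb.1]
      exact hG _ (by linarith [hb.2.1]) (by linarith [hb.2.2]))
    (fun b hb => by
      have h3 : (b - bp θ (s - x) y').re = x := by simp [hb.1]
      have h4 := P_low' (τ := b - bp θ (s - x) y') (by rwa [h3]) (by rw [h3]; linarith)
      have h5 : ‖b - bp θ (s - x) y'‖ ^ 2 ≤ 10 * y ^ 2 := by
        rw [Complex.sq_norm, normSq_apply, h3]
        have h6 : (b - bp θ (s - x) y').im ^ 2 ≤ (3 * y) ^ 2 := by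
          apply sq_le_sq' <;> simp only [sub_im, bp_im] <;> linarith [hb.2.1, hb.2.2]
        nlinarith
      have h6 : 0 < ‖b - bp θ (s - x) y'‖ := (h3 ▸ hx).trans_le (re_le_norm _)
      have h7 : x / (10 * y ^ 2) ≤ P (cexp (-(b - bp θ (s - x) y'))) := by
        refine le_trans ?_ h4
        rw [h3]; gcongr
      exact Real.exp_le_exp.2 (by nlinarith [mul_le_mul_of_nonneg_left h7 hα]))
    (b₁ := bp θ s v₁) (b₂ := bp θ s v₂) ⟨by simp, by simp, by simpa using hv⟩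
    ⟨by simp, by simpa using hv, by simp⟩
  rwa [bp_sub_norm, abs_of_nonneg (by linarith)] at h

lemma arc_est (hK : HK lam) {α β ℓ θ s ϑ x y y' t κ Λ : ℝ} (hβ : 0 ≤ β) (hβα : β ≤ α) (hs : 0 < s)
    (hx : 0 < x) (hxy : x ≤ y) (hy : y ≤ 1 / 12) (hϑ : 2 * ϑ ≤ y) (hϑ0 : 0 ≤ ϑ)
    (hκ : κ ≤ α * (x / (10 * y ^ 2))) (hκ2 : κ ≤ β / x)
    (hG : ∀ v, ϑ ≤ |v| → |v| ≤ 2 * y → Good lam α ℓ (cexp (-bp θ s v)))
    (hΛ : 16 * (α + 1) / x ^ 2 * Real.exp ℓ ≤ Real.exp Λ) (hℓ : 0 ≤ ℓ)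
    (hy1 : y ≤ y') (hy2 : y' ≤ 2 * y) (ht1 : y / 2 ≤ t) (ht2 : t ≤ y) :
    ‖Gl lam α (bp θ s (-ϑ)) (bp θ (s - x) y') - Gl lam α (bp θ s ϑ) (bp θ (s - x) y')‖ ≤
      Real.exp (Λ - κ + Real.posLog ‖T lam (F2 α β κ x (y' + t)) (wp θ s t)‖) := by
  have hα : 0 ≤ α := hβ.trans hβα
  have hy0 : 0 < y := hx.trans_le hxy
  set ω := bp θ (s - x) y' with hω
  have T1 := vert_lip hK (θ := θ) (ℓ := ℓ) (y' := y') hα hs hx hxy (by linarith) hκ
    (v₁ := -t) (v₂ := -ϑ) (by linarith)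
    (fun v h1 h2 => hG v (by rw [abs_of_nonpos (by linarith)]; linarith)
      (by rw [abs_of_nonpos (by linarith)]; linarith)) (by linarith) (by linarith)
  have T4 := vert_lip hK (θ := θ) (ℓ := ℓ) (y' := y') hα hs hx hxy (by linarith) hκ
    (v₁ := ϑ) (v₂ := y') (by linarith)
    (fun v h1 h2 => hG v (by rw [abs_of_nonneg (by linarith)]; linarith)
      (by rw [abs_of_nonneg (by linarith)]; linarith)) (by linarith) (by linarith)
  have e1 : cexp (-(bp θ s (-t) - ω)) = pv x (y' + t) := by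
    simp only [hω, bp, pv]; congr 1; push_cast; ring
  have e2 : cexp (-(bp θ s y' - ω)) = cexp (-(x : ℂ)) := by
    simp only [hω, bp]; congr 1; push_cast; ring
  have e3 : cexp (-bp θ s (-t)) = wp θ s t := by
    simp only [bp, wp]; congr 1; push_cast; ring
  have hx1 : ‖cexp (-(x : ℂ))‖ < 1 := exp_neg_lt_one (by simpa using hx)
  have hx2 : x / 2 ≤ 1 - ‖cexp (-(x : ℂ))‖ := one_sub_norm_exp hx.le (by linarith) (by simp)
  have T2 : ‖Gl lam α (bp θ s (-t)) ω - Gl lam β (bp θ s y') ω‖ ≤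
      8 / x * Real.exp (-κ) * ‖T lam (F2 α β κ x (y' + t)) (wp θ s t)‖ := by
    have e4 : cexp (-ω) * pv x (y' + t) = wp θ s t := by rw [← e1, ← exp_split, e3]
    have hw : ‖wp θ s t‖ < 1 := by rw [wp_norm]; exact Real.exp_lt_one_iff.2 (by linarith)
    have h := two_point hK α β (pv_lt hx (y' + t)) (Complex.exp_ne_zero _) (cv_norm (y' + t))
      (z := cexp (-ω)) (by rwa [e4])
    rw [Gl, Gl, exp_split (bp θ s (-t)) ω, exp_split (bp θ s y') ω, e1, e2, ← cv_pv x (y' + t), h,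
      e4, H, norm_mul]
    have h2 := T_cmul hK (dslope_diff (g2_diff α β x (y' + t)) (pv_lt hx (y' + t)))
      ((x * Real.exp κ / 8 : ℝ) : ℂ) hw
    have h3 : ‖T lam (F2 α β κ x (y' + t)) (wp θ s t)‖ = x * Real.exp κ / 8 *
        ‖T lam (dslope (g2 α β x (y' + t)) (pv x (y' + t))) (wp θ s t)‖ := by
      rw [show F2 α β κ x (y' + t) = fun z => ((x * Real.exp κ / 8 : ℝ) : ℂ) *
        dslope (g2 α β x (y' + t)) (pv x (y' + t)) z from rfl, h2, norm_mul, Complex.norm_real,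
        Real.norm_eq_abs, abs_of_pos (by positivity)]
    rw [h3]
    refine (mul_le_of_le_one_left (norm_nonneg _) (pv_lt hx _).le).trans (le_of_eq ?_)
    rw [Real.exp_neg, ← mul_assoc]
    rw [show 8 / x * (Real.exp κ)⁻¹ * (x * Real.exp κ / 8) = 1 by field_simp, one_mul]
    rfl
  have T3 : ‖Gl lam α (bp θ s y') ω - Gl lam β (bp θ s y') ω‖ ≤
      8 / x * Real.exp (-κ) * Real.exp ℓ := by
    have hb : ‖cexp (-bp θ s y')‖ < 1 := exp_neg_lt_one (by simpa using hs)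
    have e4 : cexp (-ω) * cexp (-(x : ℂ)) = cexp (-bp θ s y') := by rw [← e2, ← exp_split]
    have h := two_point hK α β hx1 (Complex.exp_ne_zero _) (c := 1) norm_one
      (z := cexp (-ω)) (by rwa [e4])
    simp only [one_mul] at h
    rw [e4] at h
    rw [Gl, Gl, e2, h]
    have h2 := H_good hK hb (hG y' (by rw [abs_of_nonneg (by linarith)]; linarith)
      (by rw [abs_of_nonneg (by linarith)]; linarith)) hx1 (c := 2 * Real.exp (-κ)) (by positivity)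
      (g := fun y => Ek α (cexp (-(x : ℂ))) y - Ek β (cexp (-(x : ℂ))) y)
      ((Ek_diff α _).sub (Ek_diff β _)) fun v hv => by
        simp only [Ek_self, sub_self, sub_zero]
        refine (norm_sub_le _ _).trans ?_
        rw [Ek_norm, Ek_norm]
        have h4 := P_nonneg hv
        have h5 := P_nonneg hx1
        have h6 : κ ≤ β * P (cexp (-(x : ℂ))) := by
          refine hκ2.trans ?_
          rw [div_eq_mul_one_div]
          exact mul_le_mul_of_nonneg_left (P_real hx (by linarith)) hβ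
        have h7 : Real.exp (α * P v - α * P (cexp (-(x : ℂ)))) ≤
            Real.exp (-κ) * Real.exp (α * P v) := by
          rw [← Real.exp_add]; exact Real.exp_le_exp.2 (by nlinarith)
        have h8 : Real.exp (β * P v - β * P (cexp (-(x : ℂ)))) ≤
            Real.exp (-κ) * Real.exp (α * P v) := by
          rw [← Real.exp_add]; exact Real.exp_le_exp.2 (by nlinarith)
        linarith
    refine h2.trans ?_
    calc 2 * (2 * Real.exp (-κ)) / (1 - ‖cexp (-(x : ℂ))‖) * Real.exp ℓ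
        ≤ 2 * (2 * Real.exp (-κ)) / (x / 2) * Real.exp ℓ := by gcongr
      _ = _ := by field_simp; ring
  set t2 := ‖T lam (F2 α β κ x (y' + t)) (wp θ s t)‖ with ht2'
  have hsum : ‖Gl lam α (bp θ s (-ϑ)) ω - Gl lam α (bp θ s ϑ) ω‖ ≤
      ‖Gl lam α (bp θ s (-ϑ)) ω - Gl lam α (bp θ s (-t)) ω‖ +
      ‖Gl lam α (bp θ s (-t)) ω - Gl lam β (bp θ s y') ω‖ +
      ‖Gl lam α (bp θ s y') ω - Gl lam β (bp θ s y') ω‖ +
      ‖Gl lam α (bp θ s y') ω - Gl lam α (bp θ s ϑ) ω‖ := by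
    have e : Gl lam α (bp θ s (-ϑ)) ω - Gl lam α (bp θ s ϑ) ω =
        (Gl lam α (bp θ s (-ϑ)) ω - Gl lam α (bp θ s (-t)) ω) +
        (Gl lam α (bp θ s (-t)) ω - Gl lam β (bp θ s y') ω) -
        (Gl lam α (bp θ s y') ω - Gl lam β (bp θ s y') ω) +
        (Gl lam α (bp θ s y') ω - Gl lam α (bp θ s ϑ) ω) := by ring
    rw [e]
    refine (norm_add_le _ _).trans ?_
    gcongr
    refine (norm_sub_le _ _).trans ?_
    gcongr
    exact norm_add_le _ _
  have a1 : 1 ≤ Real.exp ℓ := Real.one_le_exp hℓ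
  have a2 : 1 ≤ Real.exp (Real.posLog t2) := Real.one_le_exp Real.posLog_nonneg
  have a3 : t2 ≤ Real.exp (Real.posLog t2) := le_exp_posLog (norm_nonneg _)
  have a4 : 8 / x ≤ 8 / x ^ 2 := by
    apply div_le_div_of_nonneg_left (by norm_num) (by positivity); nlinarith
  have a5 : 0 ≤ t2 := norm_nonneg _
  have b1 : 8 * α / x ^ 2 * Real.exp (-κ) * Real.exp ℓ * (-ϑ - -t) +
      8 * α / x ^ 2 * Real.exp (-κ) * Real.exp ℓ * (y' - ϑ) ≤
      8 * α / x ^ 2 * Real.exp (-κ) * Real.exp ℓ * Real.exp (Real.posLog t2) := by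
    rw [← mul_add]; gcongr; linarith
  have b2 : 8 / x * Real.exp (-κ) * t2 ≤
      8 / x ^ 2 * Real.exp (-κ) * Real.exp ℓ * Real.exp (Real.posLog t2) := by
    calc 8 / x * Real.exp (-κ) * t2 = 8 / x * Real.exp (-κ) * 1 * t2 := by ring
      _ ≤ _ := by gcongr
  have b3 : 8 / x * Real.exp (-κ) * Real.exp ℓ ≤
      8 / x ^ 2 * Real.exp (-κ) * Real.exp ℓ * Real.exp (Real.posLog t2) := by
    calc 8 / x * Real.exp (-κ) * Real.exp ℓ = 8 / x * Real.exp (-κ) * Real.exp ℓ * 1 := by ring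
      _ ≤ _ := by gcongr
  have b4 : 0 ≤ 8 * α / x ^ 2 * Real.exp (-κ) * Real.exp ℓ * Real.exp (Real.posLog t2) := by
    positivity
  calc _ ≤ 16 * (α + 1) / x ^ 2 * Real.exp ℓ * (Real.exp (-κ) * Real.exp (Real.posLog t2)) := by
        have : 16 * (α + 1) / x ^ 2 * Real.exp ℓ * (Real.exp (-κ) * Real.exp (Real.posLog t2)) =
          2 * (8 * α / x ^ 2 * Real.exp (-κ) * Real.exp ℓ * Real.exp (Real.posLog t2)) +
          2 * (8 / x ^ 2 * Real.exp (-κ) * Real.exp ℓ * Real.exp (Real.posLog t2)) := by ring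
        linarith
    _ ≤ Real.exp Λ * (Real.exp (-κ) * Real.exp (Real.posLog t2)) := by gcongr
    _ = _ := by rw [← Real.exp_add, ← Real.exp_add]; congr 1; ring

end Pool.Agent.Lib.MP_b4c8d9_an
end
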