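import Mathlib

/-! Definitions for the statement: the Nevanlinna class and its coefficient multipliers. -/

namespace Pool.Agent.Lib.MP_b4c8d9_an

/-- The power series with coefficients `a n` converges in the unit disc and its sum `f` has
bounded characteristic: the means of `log⁺ |f|` over the circles of radius `r`, `0 < r < 1`,
are bounded above. -/
def InN (a : ℕ → ℂ) : Prop :=
  (∀ z : ℂ, ‖z‖ < 1 → Summable fun n => a n * z ^ n) ∧
  ∃ M : ℝ, ∀ r : ℝ, 0 < r → r < 1 →
    Real.circleAverage (fun z : ℂ => Real.posLog ‖∑' n, a n * z ^ n‖) 0 r ≤ M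

/-- `lam` is a coefficient multiplier from the Nevanlinna class to itself. -/
def IsMult (lam : ℕ → ℂ) : Prop :=
  ∀ a : ℕ → ℂ, InN a → InN fun n => lam n * a n

end Pool.Agent.Lib.MP_b4c8d9_an
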