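import Mathlib
import Pool.Agent.Lib.MP_b4c8d9_an.Defs

-- part Pool.Agent.Lib.MP_b4c8d9_an.Basic
section

/-! Circle averages, power series in the disc, parametric integrals. -/

namespace Pool.Agent.Lib.MP_b4c8d9_an

open Complex Real Metric Set Filter Topology MeasureTheory

section Av

variable {E : Type*} [NormedAddCommGroup E] [NormedSpace ℝ E]

lemma norm_cm {R : ℝ} (hR : 0 < R) (θ : ℝ) : ‖circleMap 0 R θ‖ = R := by
  simp [abs_of_pos hR]

lemma mem_sph {R : ℝ} {z : ℂ} : z ∈ sphere (0 : ℂ) R ↔ ‖z‖ = R := by simp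

lemma mem_disc {R : ℝ} {z : ℂ} : z ∈ ball (0 : ℂ) R ↔ ‖z‖ < R := by simp

lemma cont_cm {F : Type*} [TopologicalSpace F] {f : ℂ → F} {R : ℝ} (hR : 0 < R)
    (hf : ContinuousOn f (sphere 0 R)) : Continuous fun θ : ℝ => f (circleMap 0 R θ) :=
  hf.comp_continuous (continuous_circleMap 0 R) fun θ => mem_sph.2 (norm_cm hR θ)

omit [NormedSpace ℝ E] in
lemma av_int {f : ℂ → E} {R : ℝ} (hR : 0 < R) (hf : ContinuousOn f (sphere 0 R)) :
    CircleIntegrable f 0 R := hf.circleIntegrable hR.le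

lemma av_mono {f g : ℂ → ℝ} {R : ℝ} (hR : 0 < R) (hf : ContinuousOn f (sphere 0 R))
    (hg : ContinuousOn g (sphere 0 R)) (h : ∀ z, ‖z‖ = R → f z ≤ g z) :
    circleAverage f 0 R ≤ circleAverage g 0 R :=
  circleAverage_mono (av_int hR hf) (av_int hR hg) fun z hz =>
    h z (by simpa [abs_of_pos hR] using hz)

lemma av_congr {f g : ℂ → E} {R : ℝ} (hR : 0 < R) (h : ∀ z, ‖z‖ = R → f z = g z) :
    circleAverage f 0 R = circleAverage g 0 R :=
  circleAverage_congr_sphere fun z hz => h z (by simpa [abs_of_pos hR] using hz)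

lemma av_norm_le {f : ℂ → E} {R C : ℝ} (hR : 0 < R) (h : ∀ z, ‖z‖ = R → ‖f z‖ ≤ C) :
    ‖circleAverage f 0 R‖ ≤ C := by
  rw [circleAverage_def, norm_smul]
  have h1 : ‖∫ θ in (0:ℝ)..2 * π, f (circleMap 0 R θ)‖ ≤ C * |2 * π - 0| :=
    intervalIntegral.norm_integral_le_of_norm_le_const fun θ _ => h _ (norm_cm hR θ)
  have h2 : (0:ℝ) < 2 * π := by positivity
  rw [sub_zero, abs_of_pos h2] at h1
  rw [Real.norm_eq_abs, abs_of_pos (by positivity)]
  calc (2 * π)⁻¹ * ‖∫ θ in (0:ℝ)..2 * π, f (circleMap 0 R θ)‖ ≤ (2 * π)⁻¹ * (C * (2 * π)) := by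
        gcongr
    _ = C := by field_simp

lemma av_add {f g : ℂ → E} {R : ℝ} (hR : 0 < R) (hf : ContinuousOn f (sphere 0 R))
    (hg : ContinuousOn g (sphere 0 R)) :
    circleAverage (fun z => f z + g z) 0 R = circleAverage f 0 R + circleAverage g 0 R :=
  circleAverage_fun_add (av_int hR hf) (av_int hR hg)

lemma av_sub {f g : ℂ → E} {R : ℝ} (hR : 0 < R) (hf : ContinuousOn f (sphere 0 R))
    (hg : ContinuousOn g (sphere 0 R)) :
    circleAverage (fun z => f z - g z) 0 R = circleAverage f 0 R - circleAverage g 0 R :=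
  circleAverage_fun_sub (av_int hR hf) (av_int hR hg)

lemma av_cmul (c : ℂ) (f : ℂ → ℂ) (R : ℝ) :
    circleAverage (fun z => c * f z) 0 R = c * circleAverage f 0 R := by
  simpa [smul_eq_mul] using circleAverage_fun_smul (a := c) (f := f) (c := 0) (R := R)

lemma av_rmul (c : ℝ) (f : ℂ → ℝ) (R : ℝ) :
    circleAverage (fun z => c * f z) 0 R = c * circleAverage f 0 R := by
  simpa [smul_eq_mul] using circleAverage_fun_smul (a := c) (f := f) (c := 0) (R := R)

lemma av_sum {ι : Type*} (s : Finset ι) {f : ι → ℂ → E} {R : ℝ} (hR : 0 < R)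
    (hf : ∀ i ∈ s, ContinuousOn (f i) (sphere 0 R)) :
    circleAverage (fun z => ∑ i ∈ s, f i z) 0 R = ∑ i ∈ s, circleAverage (f i) 0 R :=
  circleAverage_fun_sum fun i hi => av_int hR (hf i hi)

lemma hasSum_av [CompleteSpace E] {f : ℕ → ℂ → E} {g : ℂ → E} {R : ℝ} (hR : 0 < R)
    (hf : ∀ n, ContinuousOn (f n) (sphere 0 R)) {u : ℕ → ℝ} (hu : Summable u)
    (hb : ∀ n z, ‖z‖ = R → ‖f n z‖ ≤ u n) (hs : ∀ z, ‖z‖ = R → HasSum (fun n => f n z) (g z)) :
    HasSum (fun n => circleAverage (f n) 0 R) (circleAverage g 0 R) := by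
  simp only [circleAverage_def]
  apply HasSum.const_smul
  apply intervalIntegral.hasSum_integral_of_dominated_convergence (fun n _ => u n)
  · intro n
    exact (cont_cm hR (hf n)).aestronglyMeasurable
  · intro n
    exact ae_of_all _ fun θ _ => hb n _ (norm_cm hR θ)
  · exact ae_of_all _ fun θ _ => hu
  · exact intervalIntegrable_const
  · exact ae_of_all _ fun θ _ => hs _ (norm_cm hR θ)

/-- An arc carries at most the whole integral of a nonnegative function. -/
lemma arc_le {f : ℂ → ℝ} {R : ℝ} (hR : 0 < R) (hf : ContinuousOn f (sphere 0 R))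
    (h0 : ∀ z, ‖z‖ = R → 0 ≤ f z) {a b : ℝ} (hab : a ≤ b) (hb : b ≤ a + 2 * π) :
    ∫ θ in a..b, f (circleMap 0 R θ) ≤ 2 * π * circleAverage f 0 R := by
  have hc := cont_cm hR hf
  rw [circleAverage_eq_integral_add a, smul_eq_mul, ← mul_assoc,
    mul_inv_cancel₀ (by positivity), one_mul]
  have : ∫ θ in (0:ℝ)..2 * π, f (circleMap 0 R (θ + a)) =
      ∫ θ in a..(a + 2 * π), f (circleMap 0 R θ) := by
    rw [intervalIntegral.integral_comp_add_right (fun θ => f (circleMap 0 R θ))]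
    simp [add_comm]
  rw [this]
  apply intervalIntegral.integral_mono_interval le_rfl hab hb
  · exact ae_of_all _ fun θ => h0 _ (norm_cm hR θ)
  · exact hc.intervalIntegrable _ _

lemma av_rot (f : ℂ → E) (R : ℝ) {x : ℂ} (hx : ‖x‖ = 1) :
    circleAverage (fun z => f (x * z)) 0 R = circleAverage f 0 R := by
  rw [circleAverage_eq_integral_add (f := f) x.arg, circleAverage_def]
  congr 1
  apply intervalIntegral.integral_congr
  intro θ _
  have h : x * circleMap 0 R θ = circleMap 0 R (θ + x.arg) := by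
    have := norm_mul_exp_arg_mul_I x
    rw [hx] at this
    simp only [circleMap, zero_add, ofReal_add, add_mul, Complex.exp_add]
    rw [ofReal_one, one_mul] at this
    rw [this]; ring
  simp only [h]

end Av

/-- Fubini for jointly continuous functions on a rectangle. -/
lemma swap_int {f : ℝ → ℝ → ℝ} (hf : Continuous (Function.uncurry f)) {a b c d : ℝ}
    (hcd : c ≤ d) :
    ∫ x in a..b, ∫ y in c..d, f x y = ∫ y in c..d, ∫ x in a..b, f x y := by
  simp only [intervalIntegral.integral_of_le hcd]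
  apply MeasureTheory.intervalIntegral_integral_swap
  have h1 : IntegrableOn (Function.uncurry f) (uIcc a b ×ˢ Icc c d) (volume.prod volume) :=
    hf.continuousOn.integrableOn_compact (isCompact_uIcc.prod isCompact_Icc)
  rw [Measure.prod_restrict]
  exact h1.mono_set (prod_mono uIoc_subset_uIcc Ioc_subset_Icc_self)

lemma shear_le {h : ℝ → ℝ → ℝ} (hc : Continuous (Function.uncurry h)) (h0 : ∀ v t, 0 ≤ h v t)
    {a b c d C : ℝ} (hab : a ≤ b) (hcd : c ≤ d) 
    (hC : ∀ v ∈ Icc (a + c) (b + d), ∫ t in c..d, h v t ≤ C) :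
    ∫ y in a..b, ∫ t in c..d, h (y + t) t ≤ (b - a + (d - c)) * C := by
  have hc' : Continuous (Function.uncurry fun y t => h (y + t) t) :=
    hc.comp (f := fun p : ℝ × ℝ => (p.1 + p.2, p.2)) (by fun_prop)
  rw [swap_int hc' hcd]
  have h1 : ∫ t in c..d, ∫ y in a..b, h (y + t) t ≤ ∫ t in c..d, ∫ v in (a + c)..(b + d), h v t := by
    apply intervalIntegral.integral_mono_on hcd
    · apply Continuous.intervalIntegrable
      exact intervalIntegral.continuous_parametric_intervalIntegral_of_continuous'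
        (f := fun t y => h (y + t) t)
        (hc.comp (f := fun p : ℝ × ℝ => (p.2 + p.1, p.1)) (by fun_prop)) a b
    · apply Continuous.intervalIntegrable
      exact intervalIntegral.continuous_parametric_intervalIntegral_of_continuous'
        (f := fun t v => h v t)
        (hc.comp (f := fun p : ℝ × ℝ => (p.2, p.1)) (by fun_prop)) _ _
    · intro t ht
      rw [intervalIntegral.integral_comp_add_right (fun v => h v t)]
      apply intervalIntegral.integral_mono_interval (by linarith [ht.1]) (by linarith)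
        (by linarith [ht.2])
      · exact ae_of_all _ fun v => h0 v t
      · exact (hc.comp (f := fun v : ℝ => (v, t)) (by fun_prop)).intervalIntegrable _ _
  rw [← swap_int hc hcd] at h1
  refine h1.trans ?_
  have h2 : ∫ v in (a + c)..(b + d), ∫ t in c..d, h v t ≤ ∫ _ in (a + c)..(b + d), C := by
    apply intervalIntegral.integral_mono_on (by linarith)
    · apply Continuous.intervalIntegrable
      exact intervalIntegral.continuous_parametric_intervalIntegral_of_continuous' hc _ _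
    · exact intervalIntegrable_const
    · exact hC
  refine h2.trans (le_of_eq ?_)
  simp only [intervalIntegral.integral_const, smul_eq_mul]
  ring

/-- Differentiation under an interval integral, for jointly continuous data. -/
lemma hasDerivAt_int {F F' : ℂ → ℝ → ℂ} {U : Set ℂ} (hU : IsOpen U) {x₀ : ℂ} (hx : x₀ ∈ U)
    (a b : ℝ) (hF : ∀ x ∈ U, Continuous (F x))
    (hF' : ContinuousOn (Function.uncurry F') (U ×ˢ univ))
    (hd : ∀ x ∈ U, ∀ t, HasDerivAt (fun x => F x t) (F' x t) x) :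
    HasDerivAt (fun x => ∫ t in a..b, F x t) (∫ t in a..b, F' x₀ t) x₀ := by
  obtain ⟨ε, hε, hb⟩ := Metric.nhds_basis_closedBall.mem_iff.1 (hU.mem_nhds hx)
  have hK : IsCompact (closedBall x₀ ε ×ˢ uIcc a b) := (isCompact_closedBall _ _).prod isCompact_uIcc
  obtain ⟨C, hC⟩ := hK.exists_bound_of_continuousOn (hF'.mono (prod_mono hb (subset_univ _)))
  have hc0 : Continuous (F' x₀) :=
    hF'.comp_continuous (f := fun t : ℝ => (x₀, t)) (by fun_prop) fun t => ⟨hx, trivial⟩
  refine (intervalIntegral.hasDerivAt_integral_of_dominated_loc_of_deriv_le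
    (s := closedBall x₀ ε) (bound := fun _ => C) (closedBall_mem_nhds x₀ hε) ?_ ?_ ?_ ?_ ?_ ?_).2
  · filter_upwards [hU.mem_nhds hx] with x hx'
    exact (hF x hx').aestronglyMeasurable
  · exact (hF x₀ hx).intervalIntegrable _ _
  · exact hc0.aestronglyMeasurable
  · exact ae_of_all _ fun t ht x hx' => hC (x, t) ⟨hx', uIoc_subset_uIcc ht⟩
  · exact intervalIntegrable_const
  · exact ae_of_all _ fun t _ x hx' => hd x (hb hx') t

lemma hasDerivAt_av {F F' : ℂ → ℂ → ℂ} {U : Set ℂ} (hU : IsOpen U) {x₀ : ℂ} (hx : x₀ ∈ U)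
    {R : ℝ} (hR : 0 < R) (hF : ∀ x ∈ U, ContinuousOn (F x) (sphere 0 R))
    (hF' : ContinuousOn (Function.uncurry F') (U ×ˢ sphere 0 R))
    (hd : ∀ x ∈ U, ∀ y, ‖y‖ = R → HasDerivAt (fun x => F x y) (F' x y) x) :
    HasDerivAt (fun x => circleAverage (F x) 0 R) (circleAverage (F' x₀) 0 R) x₀ := by
  simp only [circleAverage_def]
  apply HasDerivAt.const_smul
  apply hasDerivAt_int (F := fun x θ => F x (circleMap 0 R θ))
    (F' := fun x θ => F' x (circleMap 0 R θ)) hU hx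
  · intro x hx'; exact cont_cm hR (hF x hx')
  · exact hF'.comp (f := fun p : ℂ × ℝ => (p.1, circleMap 0 R p.2)) (by fun_prop)
      fun p hp => ⟨hp.1, mem_sph.2 (norm_cm hR _)⟩
  · intro x hx' θ; exact hd x hx' _ (norm_cm hR θ)

section Series

variable {a : ℕ → ℂ}

lemma ser_norm (ha : ∀ z : ℂ, ‖z‖ < 1 → Summable fun n => a n * z ^ n) {r : ℝ} (h0 : 0 ≤ r)
    (hr : r < 1) : Summable fun n => ‖a n‖ * r ^ n := by
  have := (ha r (by simpa [abs_of_nonneg h0] using hr)).norm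
  simpa [abs_of_nonneg h0] using this

lemma ser_diff (ha : ∀ z : ℂ, ‖z‖ < 1 → Summable fun n => a n * z ^ n) :
    DifferentiableOn ℂ (fun z => ∑' n, a n * z ^ n) (ball 0 1) := by
  intro z hz
  obtain ⟨r, hr1, hr2⟩ := exists_between (mem_disc.1 hz)
  have h0 : 0 ≤ r := (norm_nonneg z).trans hr1.le
  have h : DifferentiableOn ℂ (fun z => ∑' n, a n * z ^ n) (ball 0 r) := by
    apply differentiableOn_tsum_of_summable_norm (ser_norm ha h0 hr2)
    · intro n; fun_prop
    · exact isOpen_ball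
    · intro n w hw
      rw [norm_mul, norm_pow]
      gcongr
      exact (mem_disc.1 hw).le
  exact (h.differentiableAt (isOpen_ball.mem_nhds (mem_disc.2 hr1))).differentiableWithinAt

lemma sph_sub {r : ℝ} (hr : r < 1) : sphere (0 : ℂ) r ⊆ ball 0 1 := fun _ hz =>
  mem_disc.2 ((mem_sph.1 hz).trans_lt hr)

lemma av_pow (k n : ℕ) {R : ℝ} (hR : 0 < R) :
    circleAverage (fun y : ℂ => y ^ n / y ^ k) 0 R = if n = k then 1 else 0 := by
  split_ifs with h
  · subst h
    rw [av_congr hR (g := fun _ => (1 : ℂ)), circleAverage_const]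
    intro z hz
    have : z ≠ 0 := by rintro rfl; simp at hz; exact hR.ne hz
    field_simp
  · rw [circleAverage_eq_circleIntegral hR.ne']
    have h1 : (∮ z in C(0, R), (z - 0)⁻¹ • (z ^ n / z ^ k)) =
        ∮ z in C(0, R), (z - 0) ^ ((n : ℤ) - k - 1) := by
      apply circleIntegral.integral_congr hR.le
      intro z hz
      have : z ≠ 0 := by rintro rfl; simp at hz; exact hR.ne hz
      simp only [sub_zero, smul_eq_mul]
      rw [zpow_sub₀ this, zpow_sub₀ this]
      simp only [zpow_natCast, zpow_one]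
      field_simp
    rw [h1, circleIntegral.integral_sub_zpow_of_ne (by omega), smul_zero]

/-- Cauchy's formula for the coefficients. -/
lemma av_coef (ha : ∀ z : ℂ, ‖z‖ < 1 → Summable fun n => a n * z ^ n) (k : ℕ) {R : ℝ}
    (hR : 0 < R) (hR1 : R < 1) :
    circleAverage (fun y : ℂ => (∑' n, a n * y ^ n) / y ^ k) 0 R = a k := by
  have h := hasSum_av (f := fun n y => a n * (y ^ n / y ^ k))
    (g := fun y : ℂ => (∑' n, a n * y ^ n) / y ^ k) hR ?_
    ((ser_norm ha hR.le hR1).div_const (R ^ k)) ?_ ?_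
  · simp only [av_cmul, av_pow _ _ hR, mul_ite, mul_one, mul_zero] at h
    have e : (fun n => if n = k then a n else 0) = fun n => if n = k then a k else 0 := by
      funext n; split_ifs with h <;> simp [h]
    rw [e] at h
    exact h.unique (hasSum_ite_eq k (a k))
  · intro n
    apply ContinuousOn.mul continuousOn_const
    apply ContinuousOn.div (by fun_prop) (by fun_prop)
    intro z hz
    apply pow_ne_zero
    rintro rfl; simp at hz; exact hR.ne hz
  · intro n z hz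
    simp [hz, mul_div_assoc]
  · intro z hz
    simpa [mul_div_assoc] using (ha z (hz.trans_lt hR1)).hasSum.div_const (z ^ k)

end Series

end Pool.Agent.Lib.MP_b4c8d9_an
end

-- part Pool.Agent.Lib.MP_b4c8d9_an.PJ
section

/-! The Poisson kernel and the Poisson-Jensen inequality. -/

namespace Pool.Agent.Lib.MP_b4c8d9_an

open Complex Real Metric Set Filter Topology MeasureTheory

lemma av_aff {f : ℂ → ℝ} {R : ℝ} (hR : 0 < R) (hf : ContinuousOn f (sphere 0 R)) (a b : ℝ) :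
    circleAverage (fun z => a * f z + b) 0 R = a * circleAverage f 0 R + b := by
  rw [av_add hR (f := fun z => a * f z) (continuousOn_const.mul hf) continuousOn_const, av_rmul,
    circleAverage_const]

/-- Poisson kernel of the disc of radius `R`. -/
noncomputable def PK (R : ℝ) (w z : ℂ) : ℝ := (R ^ 2 - ‖w‖ ^ 2) / ‖z - w‖ ^ 2

lemma PK_nonneg {R : ℝ} {w : ℂ} (hw : ‖w‖ ≤ R) (z : ℂ) : 0 ≤ PK R w z := by
  unfold PK
  apply div_nonneg _ (by positivity)
  have := norm_nonneg w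
  nlinarith

lemma sub_ne_of_norm {R : ℝ} {w z : ℂ} (hw : ‖w‖ < R) (hz : ‖z‖ = R) : z - w ≠ 0 := by
  intro h
  rw [sub_eq_zero] at h
  rw [← h, hz] at hw
  exact lt_irrefl _ hw

lemma PK_cont {R : ℝ} {w : ℂ} (hw : ‖w‖ < R) : ContinuousOn (PK R w) (sphere 0 R) := by
  unfold PK
  apply ContinuousOn.div (by fun_prop) (by fun_prop)
  intro z hz
  exact pow_ne_zero _ (norm_ne_zero_iff.2 (sub_ne_of_norm hw (mem_sph.1 hz)))

lemma PK_eq {R : ℝ} {w z : ℂ} (hz : ‖z‖ = R) : PK R w z = poissonKernel 0 w z := by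
  simp [PK, poissonKernel_def, hz]

lemma av_PK {R : ℝ} {w : ℂ} (hw : ‖w‖ < R) : circleAverage (PK R w) 0 R = 1 := by
  have hR : 0 < R := (norm_nonneg w).trans_lt hw
  have h := DiffContOnCl.circleAverage_poissonKernel_smul (f := fun _ : ℂ => (1 : ℂ)) (c := 0)
    (R := R) (w := w) diffContOnCl_const (mem_disc.2 hw)
  have h2 : circleAverage (Complex.ofRealCLM ∘ PK R w) 0 R = Complex.ofRealCLM (circleAverage (PK R w) 0 R) :=
    Complex.ofRealCLM.circleAverage_comp_comm (av_int hR (PK_cont hw))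
  have h3 : circleAverage (Complex.ofRealCLM ∘ PK R w) 0 R = 1 := by
    rw [← h]
    apply av_congr hR
    intro z hz
    simp [PK_eq hz]
  rw [h3] at h2
  have : ((circleAverage (PK R w) 0 R : ℝ) : ℂ) = 1 := h2.symm
  exact_mod_cast this

lemma PK_le {R : ℝ} {w z : ℂ} (hw : ‖w‖ < R) (hz : ‖z‖ = R) :
    PK R w z ≤ (R + ‖w‖) / (R - ‖w‖) := by
  have h1 : R - ‖w‖ ≤ ‖z - w‖ := hz ▸ norm_sub_norm_le z w
  have h2 : 0 < R - ‖w‖ := by linarith
  have h3 := norm_nonneg w
  unfold PK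
  calc (R ^ 2 - ‖w‖ ^ 2) / ‖z - w‖ ^ 2 ≤ (R ^ 2 - ‖w‖ ^ 2) / (R - ‖w‖) ^ 2 := by
        apply div_le_div_of_nonneg_left (by nlinarith) (by positivity)
        gcongr
    _ = (R + ‖w‖) / (R - ‖w‖) := by field_simp; ring

/-- Poisson-Jensen inequality. -/
theorem PJ {g : ℂ → ℂ} {Ψ : ℂ → ℝ} {R : ℝ} (hg : DiffContOnCl ℂ g (ball 0 R))
    (hΨ : ContinuousOn Ψ (sphere 0 R)) (hb : ∀ z, ‖z‖ = R → ‖g z‖ ≤ Real.exp (Ψ z))
    {w : ℂ} (hw : ‖w‖ < R) :
    ‖g w‖ ≤ Real.exp (circleAverage (fun z => PK R w z * Ψ z) 0 R) := by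
  have hR : 0 < R := (norm_nonneg w).trans_lt hw
  set h : ℂ → ℂ := fun v => circleAverage (fun ζ => herglotzRieszKernel 0 v ζ • (Ψ ζ : ℂ)) 0 R
    with hh
  have hΨc : ContinuousOn (fun ζ => (Ψ ζ : ℂ)) (sphere 0 R) :=
    Complex.continuous_ofReal.comp_continuousOn hΨ
  have hd : DifferentiableOn ℂ h (ball 0 R) :=
    differentiableOn_circleAverage_herglotzRieszKernel_smul (av_int hR hΨc)
  have hre : ∀ v : ℂ, ‖v‖ < R → (h v).re = circleAverage (fun z => PK R v z * Ψ z) 0 R := by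
    intro v hv
    rw [hh]
    simp only
    rw [re_circleAverage_herglotzRieszKernel_smul (av_int hR hΨ) (mem_disc.2 hv)]
    apply av_congr hR
    intro z hz
    rw [← poissonKernel_eq_re_herglotzRieszKernel, PK_eq hz]
    simp
  rw [← hre w hw]
  have key : ∀ ε : ℝ, 0 < ε → ‖g w‖ ≤ Real.exp ((h w).re + 3 * ε) := by
    intro ε hε
    obtain ⟨Cb, hCb⟩ := (isCompact_sphere (0 : ℂ) R).exists_bound_of_continuousOn hΨ
    have hCb0 : 0 ≤ Cb := (norm_nonneg _).trans (hCb (R : ℂ) (by simp [abs_of_pos hR]))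
    obtain ⟨δ, hδ, hδ'⟩ := Metric.uniformContinuousOn_iff.1
      ((isCompact_sphere (0 : ℂ) R).uniformContinuousOn_of_continuous hΨ) ε hε
    have hgc : ContinuousOn g (closedBall 0 R) := by
      have := hg.continuousOn
      rwa [closure_ball 0 hR.ne'] at this
    have hκ : 0 < Real.exp (-Cb) * (Real.exp ε - 1) :=
      mul_pos (Real.exp_pos _) (by linarith [Real.add_one_lt_exp hε.ne'])
    obtain ⟨δ₁, hδ₁, hδ₁'⟩ := Metric.uniformContinuousOn_iff.1
      ((isCompact_closedBall (0 : ℂ) R).uniformContinuousOn_of_continuous hgc) _ hκ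
    set C₁ := 2 * Cb / δ ^ 2 with hC₁
    have hC₁0 : 0 ≤ C₁ := by positivity
    have h1 : ∀ z z₀ : ℂ, ‖z‖ = R → ‖z₀‖ = R → Ψ z₀ - ε - C₁ * ‖z - z₀‖ ^ 2 ≤ Ψ z := by
      intro z z₀ hz hz₀
      by_cases hlt : ‖z - z₀‖ < δ
      · have := hδ' z (mem_sph.2 hz) z₀ (mem_sph.2 hz₀) (by rwa [dist_eq_norm])
        rw [Real.dist_eq, abs_lt] at this
        have : 0 ≤ C₁ * ‖z - z₀‖ ^ 2 := by positivity
        linarith
      · have h2 : 2 * Cb ≤ C₁ * ‖z - z₀‖ ^ 2 := by
          calc 2 * Cb = C₁ * δ ^ 2 := by rw [hC₁]; field_simp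
            _ ≤ C₁ * ‖z - z₀‖ ^ 2 := by gcongr; linarith
        have h3 := abs_le.1 (hCb z (mem_sph.2 hz))
        have h4 := abs_le.1 (hCb z₀ (mem_sph.2 hz₀))
        linarith
    have hev : ∀ᶠ t in 𝓝[<] R, ‖w‖ < t ∧ R - δ₁ < t ∧
        C₁ * (2 * (R ^ 2 - t ^ 2) + 2 * (R - t) ^ 2) < ε := by
      apply nhdsWithin_le_nhds
      refine (lt_mem_nhds hw).and ((lt_mem_nhds (by linarith)).and ?_)
      have hc : ContinuousAt (fun t : ℝ => C₁ * (2 * (R ^ 2 - t ^ 2) + 2 * (R - t) ^ 2)) R := by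
        fun_prop
      exact hc.eventually_lt continuousAt_const (by simpa using hε)
    obtain ⟨R', ⟨hR'1, hR'2, hR'3⟩, hR'4⟩ := (hev.and self_mem_nhdsWithin).exists
    have hR'4 : R' < R := hR'4
    have hR'0 : 0 < R' := (norm_nonneg w).trans_lt hR'1
    have hF : DiffContOnCl ℂ (fun v => g v * Complex.exp (-h v)) (ball 0 R') := by
      apply DifferentiableOn.diffContOnCl
      rw [closure_ball 0 hR'0.ne']
      exact (hg.differentiableOn.mul hd.neg.cexp).mono (closedBall_subset_ball hR'4)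
    have hbd : ‖g w * Complex.exp (-h w)‖ ≤ Real.exp (3 * ε) := by
      apply Complex.norm_le_of_forall_mem_frontier_norm_le isBounded_ball hF _
        (subset_closure (mem_disc.2 hR'1))
      intro v hv
      rw [frontier_ball 0 hR'0.ne'] at hv
      have hv : ‖v‖ = R' := mem_sph.1 hv
      set z₀ : ℂ := ((R / R' : ℝ) : ℂ) * v with hz₀
      have hz₀n : ‖z₀‖ = R := by
        rw [hz₀, norm_mul, hv, Complex.norm_real, Real.norm_eq_abs, abs_of_pos (by positivity)]
        field_simp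
      have hz₀v : ‖v - z₀‖ = R - R' := by
        have : v - z₀ = ((1 - R / R' : ℝ) : ℂ) * v := by rw [hz₀]; push_cast; ring
        rw [this, norm_mul, hv, Complex.norm_real, Real.norm_eq_abs, abs_of_neg]
        · field_simp; ring
        · rw [sub_neg, one_lt_div hR'0]; exact hR'4
      have hvR : ‖v‖ < R := hv ▸ hR'4
      have h2 : ‖g v‖ ≤ Real.exp (Ψ z₀ + ε) := by
        have h3 := hδ₁' v (by simp [hvR.le]) z₀ (by simp [hz₀n])
          (by rw [dist_eq_norm, hz₀v]; linarith)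
        rw [dist_eq_norm] at h3
        have h4 := hb z₀ hz₀n
        have h5 : ‖g v‖ ≤ ‖g z₀‖ + ‖g v - g z₀‖ := by
          simpa using norm_add_le (g z₀) (g v - g z₀)
        have h6 : Real.exp (-Cb) ≤ Real.exp (Ψ z₀) :=
          Real.exp_le_exp.2 (abs_le.1 (hCb z₀ (mem_sph.2 hz₀n))).1
        have h7 : 0 ≤ Real.exp ε - 1 := by linarith [Real.add_one_lt_exp hε.ne']
        rw [Real.exp_add]
        nlinarith [mul_le_mul_of_nonneg_right h6 h7]
      have h3 : Ψ z₀ - 2 * ε ≤ (h v).re := by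
        rw [hre v hvR]
        have h4 : circleAverage (fun z => (Ψ z₀ - ε - C₁ * (2 * (R - R') ^ 2)) * PK R v z +
            (-(C₁ * (2 * (R ^ 2 - R' ^ 2))))) 0 R ≤
            circleAverage (fun z => PK R v z * Ψ z) 0 R := by
          apply av_mono hR ((continuousOn_const.mul (PK_cont hvR)).add continuousOn_const)
            ((PK_cont hvR).mul hΨ)
          intro z hz
          have h5 := h1 z z₀ hz hz₀n
          have h6 := PK_nonneg hvR.le z
          have h7 : ‖z - z₀‖ ^ 2 ≤ 2 * ‖z - v‖ ^ 2 + 2 * (R - R') ^ 2 := by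
            have h8 : ‖z - z₀‖ ≤ ‖z - v‖ + (R - R') := by
              rw [← hz₀v]; exact norm_sub_le_norm_sub_add_norm_sub z v z₀
            have h9 : ‖z - z₀‖ ^ 2 ≤ (‖z - v‖ + (R - R')) ^ 2 := by gcongr
            nlinarith [sq_nonneg (‖z - v‖ - (R - R'))]
          have h8 : PK R v z * ‖z - v‖ ^ 2 = R ^ 2 - R' ^ 2 := by
            have := norm_ne_zero_iff.2 (sub_ne_of_norm hvR hz)
            unfold PK; rw [hv]; field_simp
          have h9 : Ψ z₀ - ε - C₁ * (2 * ‖z - v‖ ^ 2 + 2 * (R - R') ^ 2) ≤ Ψ z := by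
            nlinarith [mul_le_mul_of_nonneg_left h7 hC₁0]
          have h10 := mul_le_mul_of_nonneg_left h9 h6
          simp only [Pi.mul_apply, Pi.add_apply]
          rw [← h8]
          nlinarith
        rw [av_aff hR (PK_cont hvR), av_PK hvR] at h4
        nlinarith
      rw [norm_mul, Complex.norm_exp]
      calc ‖g v‖ * Real.exp (-h v).re ≤ Real.exp (Ψ z₀ + ε) * Real.exp (-h v).re := by gcongr
        _ = Real.exp (Ψ z₀ + ε - (h v).re) := by rw [← Real.exp_add]; simp [sub_eq_add_neg]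
        _ ≤ Real.exp (3 * ε) := Real.exp_le_exp.2 (by linarith)
    rw [norm_mul, Complex.norm_exp, Complex.neg_re, Real.exp_neg, ← div_eq_mul_inv,
      div_le_iff₀ (Real.exp_pos _), ← Real.exp_add, add_comm] at hbd
    exact hbd
  have hc : Tendsto (fun ε : ℝ => Real.exp ((h w).re + 3 * ε)) (𝓝[>] 0)
      (𝓝 (Real.exp ((h w).re + 3 * 0))) := by
    apply tendsto_nhdsWithin_of_tendsto_nhds
    apply Continuous.tendsto
    fun_prop
  rw [mul_zero, add_zero] at hc
  exact ge_of_tendsto hc (eventually_nhdsWithin_of_forall key)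

lemma diffCont_of_disc {g : ℂ → ℂ} (hg : DifferentiableOn ℂ g (ball 0 1)) {R : ℝ} (hR : 0 < R)
    (hR1 : R < 1) : DiffContOnCl ℂ g (ball 0 R) := by
  apply DifferentiableOn.diffContOnCl
  rw [closure_ball 0 hR.ne']
  exact hg.mono (closedBall_subset_ball hR1)

end Pool.Agent.Lib.MP_b4c8d9_an
end

-- part Pool.Agent.Lib.MP_b4c8d9_an.Op
section

/-! The multiplier operator on holomorphic functions, and the test class. -/

namespace Pool.Agent.Lib.MP_b4c8d9_an

open Complex Real Metric Set Filter Topology MeasureTheory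

lemma hasSum_of_eq {ι E : Type*} [AddCommMonoid E] [TopologicalSpace E] {f g : ι → E} {a : E}
    (h : HasSum f a) (e : ∀ n, g n = f n) : HasSum g a := by
  rw [funext e]; exact h

noncomputable def coef (f : ℂ → ℂ) (n : ℕ) : ℂ := iteratedDeriv n f 0 / (n.factorial : ℂ)

lemma hasSum_coef {f : ℂ → ℂ} (hf : DifferentiableOn ℂ f (ball 0 1)) {z : ℂ} (hz : ‖z‖ < 1) :
    HasSum (fun n => coef f n * z ^ n) (f z) := by
  have := Complex.hasSum_taylorSeries_on_ball hf (mem_disc.2 hz)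
  refine hasSum_of_eq this fun n => ?_
  simp only [coef, sub_zero, smul_eq_mul]
  ring

noncomputable def Kf (lam : ℕ → ℂ) (z : ℂ) : ℂ := ∑' n, lam n * z ^ n

noncomputable def T (lam : ℕ → ℂ) (f : ℂ → ℂ) (q : ℂ) : ℂ := ∑' n, lam n * coef f n * q ^ n

def HK (lam : ℕ → ℂ) : Prop := ∀ z : ℂ, ‖z‖ < 1 → Summable fun n => lam n * z ^ n

variable {lam : ℕ → ℂ}

lemma K_diff (hK : HK lam) : DifferentiableOn ℂ (Kf lam) (ball 0 1) := ser_diff hK

lemma K_cont (hK : HK lam) {ρ : ℝ} (hρ : ρ < 1) : ContinuousOn (Kf lam) (sphere 0 ρ) :=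
  (K_diff hK).continuousOn.mono (sph_sub hρ)

lemma ne_zero_of_norm {z : ℂ} {ρ : ℝ} (h0 : 0 < ρ) (hz : ‖z‖ = ρ) : z ≠ 0 := by
  rintro rfl; simp at hz; exact h0.ne hz

lemma norm_div_lt {a y : ℂ} {ρ : ℝ} (ha : ‖a‖ < ρ) (hy : ‖y‖ = ρ) : ‖a / y‖ < 1 := by
  have h0 : 0 < ρ := (norm_nonneg a).trans_lt ha
  rw [norm_div, hy, div_lt_one h0]; exact ha

lemma cont_div {F : Type*} [TopologicalSpace F] {f : ℂ → F} (hf : ContinuousOn f (ball 0 1))
    {a : ℂ} {ρ : ℝ} (ha : ‖a‖ < ρ) : ContinuousOn (fun y => f (a / y)) (sphere 0 ρ) := by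
  have h0 : 0 < ρ := (norm_nonneg a).trans_lt ha
  apply hf.comp (f := fun y => a / y)
  · exact continuousOn_const.div continuousOn_id fun y hy => ne_zero_of_norm h0 (mem_sph.1 hy)
  · intro y hy; exact mem_disc.2 (norm_div_lt ha (mem_sph.1 hy))

lemma TC (hK : HK lam) {f : ℂ → ℂ} (hf : DifferentiableOn ℂ f (ball 0 1)) {a : ℂ} {ρ : ℝ}
    (ha : ‖a‖ < ρ) (hρ : ρ < 1) :
    HasSum (fun n => lam n * coef f n * a ^ n)
      (circleAverage (fun y => f (a / y) * Kf lam y) 0 ρ) := by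
  have h0 : 0 < ρ := (norm_nonneg a).trans_lt ha
  obtain ⟨C, hC⟩ := (isCompact_sphere (0 : ℂ) ρ).exists_bound_of_continuousOn (K_cont hK hρ)
  have hs := ser_norm (fun z hz => (hasSum_coef hf hz).summable) (r := ‖a‖ / ρ) (by positivity)
    ((div_lt_one h0).2 ha)
  have h := hasSum_av (f := fun n y => (coef f n * a ^ n) * (Kf lam y / y ^ n))
    (g := fun y => f (a / y) * Kf lam y) h0 ?_ (hs.mul_right C) ?_ ?_
  · simp only [av_cmul] at h
    refine hasSum_of_eq h fun n => ?_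
    have := av_coef hK n h0 hρ
    unfold Kf
    rw [this]; ring
  · intro n
    apply continuousOn_const.mul ((K_cont hK hρ).div (by fun_prop) _)
    intro y hy
    exact pow_ne_zero _ (ne_zero_of_norm h0 (mem_sph.1 hy))
  · intro n y hy
    have := hC y (mem_sph.2 hy)
    rw [norm_mul, norm_mul, norm_div, norm_pow, norm_pow, hy, div_pow]
    calc ‖coef f n‖ * ‖a‖ ^ n * (‖Kf lam y‖ / ρ ^ n)
        = ‖coef f n‖ * (‖a‖ ^ n / ρ ^ n) * ‖Kf lam y‖ := by ring
      _ ≤ _ := by gcongr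
  · intro y hy
    refine hasSum_of_eq ((hasSum_coef hf (norm_div_lt ha hy)).mul_right (Kf lam y)) fun n => ?_
    rw [div_pow]; ring

lemma T_eq (hK : HK lam) {f : ℂ → ℂ} (hf : DifferentiableOn ℂ f (ball 0 1)) {a : ℂ} {ρ : ℝ}
    (ha : ‖a‖ < ρ) (hρ : ρ < 1) :
    T lam f a = circleAverage (fun y => f (a / y) * Kf lam y) 0 ρ := (TC hK hf ha hρ).tsum_eq

lemma T_diff (hK : HK lam) {f : ℂ → ℂ} (hf : DifferentiableOn ℂ f (ball 0 1)) :
    DifferentiableOn ℂ (T lam f) (ball 0 1) := by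
  apply ser_diff (a := fun n => lam n * coef f n)
  intro z hz
  obtain ⟨ρ, h1, h2⟩ := exists_between hz
  exact (TC hK hf h1 h2).summable

lemma T_cont (hK : HK lam) {f : ℂ → ℂ} (hf : DifferentiableOn ℂ f (ball 0 1)) {r : ℝ}
    (hr : r < 1) : ContinuousOn (T lam f) (sphere 0 r) :=
  (T_diff hK hf).continuousOn.mono (sph_sub hr)

lemma T_plog_cont (hK : HK lam) {f : ℂ → ℂ} (hf : DifferentiableOn ℂ f (ball 0 1)) {r : ℝ}
    (hr : r < 1) : ContinuousOn (fun z => Real.posLog ‖T lam f z‖) (sphere 0 r) :=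
  Real.continuous_posLog.comp_continuousOn (T_cont hK hf hr).norm

lemma T_cmul (hK : HK lam) {f : ℂ → ℂ} (hf : DifferentiableOn ℂ f (ball 0 1)) (c : ℂ) {a : ℂ}
    (ha : ‖a‖ < 1) : T lam (fun z => c * f z) a = c * T lam f a := by
  obtain ⟨ρ, h1, h2⟩ := exists_between ha
  rw [T_eq hK hf h1 h2, T_eq hK (hf.const_mul c) h1 h2, ← av_cmul]
  simp only [mul_assoc]

lemma T_sum (hK : HK lam) {ι : Type*} (s : Finset ι) {f : ι → ℂ → ℂ}
    (hf : ∀ i ∈ s, DifferentiableOn ℂ (f i) (ball 0 1)) {a : ℂ} (ha : ‖a‖ < 1) :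
    T lam (fun z => ∑ i ∈ s, f i z) a = ∑ i ∈ s, T lam (f i) a := by
  obtain ⟨ρ, h1, h2⟩ := exists_between ha
  have h0 : 0 < ρ := (norm_nonneg a).trans_lt h1
  rw [T_eq hK (DifferentiableOn.fun_sum hf) h1 h2,
    Finset.sum_congr rfl fun i hi => T_eq hK (hf i hi) h1 h2, ← av_sum s h0]
  · simp only [Finset.sum_mul]
  · intro i hi
    exact (cont_div (hf i hi).continuousOn h1).mul (K_cont hK h2)

lemma T_pow (hK : HK lam) (n : ℕ) {a : ℂ} (ha : ‖a‖ < 1) :
    T lam (fun z => z ^ n) a = lam n * a ^ n := by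
  obtain ⟨ρ, h1, h2⟩ := exists_between ha
  have h0 : 0 < ρ := (norm_nonneg a).trans_lt h1
  rw [T_eq hK (by fun_prop) h1 h2, ← av_coef hK n h0 h2, mul_comm, ← av_cmul]
  congr 1
  funext y
  rw [div_pow]; unfold Kf; ring

/-! The functions `Phi` and `P`. -/

noncomputable def Phi (v : ℂ) : ℂ := (1 + v) / (1 - v)

noncomputable def P (v : ℂ) : ℝ := (1 - ‖v‖ ^ 2) / ‖1 - v‖ ^ 2

lemma re_Phi (v : ℂ) : (Phi v).re = P v := by
  have := congrFun (poissonKernel_eq_re_herglotzRieszKernel (c := 0) (w := v)) 1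
  simp only [poissonKernel_def, herglotzRieszKernel_def, sub_zero, Function.comp_apply, norm_one,
    one_pow] at this
  exact this.symm

lemma one_sub_ne {v : ℂ} (hv : ‖v‖ < 1) : 1 - v ≠ 0 := sub_ne_of_norm hv norm_one

lemma P_nonneg {v : ℂ} (hv : ‖v‖ < 1) : 0 ≤ P v := by
  simpa [PK, P] using PK_nonneg hv.le 1

lemma P_le {v : ℂ} (hv : ‖v‖ < 1) : P v ≤ 2 / (1 - ‖v‖) := by
  have h : P v ≤ (1 + ‖v‖) / (1 - ‖v‖) := by simpa [PK, P] using PK_le hv (z := 1) norm_one
  refine h.trans ?_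
  have : 0 < 1 - ‖v‖ := by linarith
  gcongr
  linarith

lemma Phi_diff : DifferentiableOn ℂ Phi (ball 0 1) := by
  unfold Phi
  exact DifferentiableOn.div (by fun_prop) (by fun_prop) fun v hv => one_sub_ne (mem_disc.1 hv)

lemma Phi_hasDeriv {v : ℂ} (hv : ‖v‖ < 1) : HasDerivAt Phi (2 / (1 - v) ^ 2) v := by
  have h := ((hasDerivAt_id v).const_add 1).div ((hasDerivAt_id v).const_sub 1) (one_sub_ne hv)
  refine HasDerivAt.congr_deriv h ?_
  simp only [id]
  ring

lemma P_cont : ContinuousOn P (ball 0 1) := by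
  have : P = fun v => (Phi v).re := funext fun v => (re_Phi v).symm
  rw [this]
  exact Complex.continuous_re.comp_continuousOn Phi_diff.continuousOn

lemma av_P {r : ℝ} (h0 : 0 < r) (h1 : r < 1) : circleAverage P 0 r = 1 := by
  have h : circleAverage Phi 0 r = Phi 0 := by
    have := diffCont_of_disc Phi_diff h0 h1
    rw [← abs_of_pos h0] at this
    exact this.circleAverage
  have h2 := Complex.reCLM.circleAverage_comp_comm
    (av_int h0 (Phi_diff.continuousOn.mono (sph_sub h1)))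
  rw [h] at h2
  have e : P = Complex.reCLM ∘ Phi := funext fun v => (re_Phi v).symm
  rw [e, h2]
  simp [Phi]

/-- The fixed weight of the test class. -/
noncomputable def Lw (z : ℂ) : ℝ := 4 / ‖1 - z‖ ^ 2

lemma one_le_Lw {z : ℂ} (hz : ‖z‖ < 1) : 1 ≤ Lw z := by
  have h1 : ‖1 - z‖ ≤ 2 := by
    have := norm_sub_le (1 : ℂ) z
    rw [norm_one] at this; linarith
  have h2 : 0 < ‖1 - z‖ := norm_pos_iff.2 (one_sub_ne hz)
  unfold Lw
  rw [le_div_iff₀ (by positivity)]
  nlinarith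

lemma Lw_le {z : ℂ} (hz : ‖z‖ < 1) : Lw z ≤ 4 / (1 - ‖z‖) ^ 2 := by
  have h1 : 1 - ‖z‖ ≤ ‖1 - z‖ := by simpa using norm_sub_norm_le (1 : ℂ) z
  have h2 : 0 < 1 - ‖z‖ := by linarith
  unfold Lw
  gcongr

lemma logLw_cont : ContinuousOn (fun z => Real.log (Lw z)) (ball 0 1) := by
  apply ContinuousOn.log
  · unfold Lw
    apply ContinuousOn.div (by fun_prop) (by fun_prop)
    intro z hz
    exact pow_ne_zero _ (norm_ne_zero_iff.2 (one_sub_ne (mem_disc.1 hz)))
  · intro z hz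
    linarith [one_le_Lw (mem_disc.1 hz)]

lemma av_logLw {r : ℝ} (h0 : 0 < r) (h1 : r < 1) :
    circleAverage (fun z => Real.log (Lw z)) 0 r = Real.log 4 := by
  have hs : closedBall (0 : ℂ) |r| ⊆ ball 0 1 := by
    rw [abs_of_pos h0]; exact closedBall_subset_ball h1
  have h := AnalyticOnNhd.circleAverage_log_norm_of_ne_zero (R := r) (c := 0)
    (g := fun z : ℂ => 1 - z) (fun z _ => by fun_prop)
    (fun u hu => one_sub_ne (mem_disc.1 (hs hu)))
  have hc : ContinuousOn (fun z : ℂ => Real.log ‖1 - z‖) (sphere 0 r) := by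
    apply ContinuousOn.log (by fun_prop)
    intro z hz
    exact norm_ne_zero_iff.2 (one_sub_ne ((mem_sph.1 hz).trans_lt h1))
  rw [av_congr h0 (g := fun z => (-2) * Real.log ‖1 - z‖ + Real.log 4), av_aff h0 hc, h]
  · simp
  · intro z hz
    have := norm_ne_zero_iff.2 (one_sub_ne (hz.trans_lt h1))
    unfold Lw
    rw [Real.log_div (by norm_num) (pow_ne_zero _ this), Real.log_pow]
    push_cast; ring

/-- The test class: mass `α` at the point `1`, and an extra mass at most `δ`. -/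
def Cls (α δ : ℝ) (f : ℂ → ℂ) : Prop :=
  DifferentiableOn ℂ f (ball 0 1) ∧ ∃ V : ℂ → ℝ, ContinuousOn V (ball 0 1) ∧
    (∀ z : ℂ, ‖z‖ < 1 → 0 ≤ V z ∧ V z ≤ 2 * δ / (1 - ‖z‖)) ∧
    (∀ r : ℝ, 0 < r → r < 1 → circleAverage V 0 r ≤ δ) ∧
    ∀ z : ℂ, ‖z‖ < 1 → ‖f z‖ ≤ Real.exp (α * P z + V z) * Lw z

lemma cls_zero {α : ℝ} {f : ℂ → ℂ} (hf : DifferentiableOn ℂ f (ball 0 1))
    (hb : ∀ z : ℂ, ‖z‖ < 1 → ‖f z‖ ≤ Real.exp (α * P z) * Lw z) : Cls α 0 f := by
  refine ⟨hf, fun _ => 0, continuousOn_const, fun z _ => by simp, fun r _ _ => ?_, ?_⟩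
  · rw [circleAverage_const]
  · simpa using hb

lemma cls_point {α β : ℝ} (hβ : 0 ≤ β) {f : ℂ → ℂ} {x : ℂ} (hx : ‖x‖ = 1)
    (hf : DifferentiableOn ℂ f (ball 0 1))
    (hb : ∀ z : ℂ, ‖z‖ < 1 → ‖f z‖ ≤ Real.exp (α * P z + β * P (x * z)) * Lw z) : Cls α β f := by
  have hn : ∀ z : ℂ, ‖x * z‖ = ‖z‖ := fun z => by rw [norm_mul, hx, one_mul]
  refine ⟨hf, fun z => β * P (x * z), ?_, fun z hz => ⟨?_, ?_⟩, fun r h0 h1 => ?_, hb⟩
  · apply continuousOn_const.mul
    exact P_cont.comp (by fun_prop) fun z hz => mem_disc.2 (by rw [hn]; exact mem_disc.1 hz)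
  · exact mul_nonneg hβ (P_nonneg (by rwa [hn]))
  · have := P_le (v := x * z) (by rwa [hn])
    rw [hn] at this
    calc β * P (x * z) ≤ β * (2 / (1 - ‖z‖)) := by gcongr
      _ = _ := by ring
  · rw [av_rmul, av_rot P r hx, av_P h0 h1, mul_one]

end Pool.Agent.Lib.MP_b4c8d9_an
end

-- part Pool.Agent.Lib.MP_b4c8d9_an.Baire
section

/-! Uniform boundedness of a multiplier on the test class (Baire category). -/

namespace Pool.Agent.Lib.MP_b4c8d9_an

open Complex Real Metric Set Filter Topology MeasureTheory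

variable {lam : ℕ → ℂ}

lemma posLog_le_of_le_exp {x y : ℝ} (hx : 0 ≤ x) (hy : 0 ≤ y) (h : x ≤ Real.exp y) :
    Real.posLog x ≤ y := by
  have := Real.posLog_le_posLog hx h
  rwa [Real.posLog_apply (x := Real.exp y), Real.log_exp, max_eq_right hy] at this

lemma le_exp_posLog {x : ℝ} (hx : 0 ≤ x) : x ≤ Real.exp (Real.posLog x) := by
  rw [Real.posLog_eq_log_max_one hx, Real.exp_log (by positivity)]
  exact le_max_right _ _

lemma inN_of_bound {f : ℂ → ℂ} (hf : DifferentiableOn ℂ f (ball 0 1)) {M : ℝ}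
    (hM : ∀ r : ℝ, 0 < r → r < 1 → circleAverage (fun z => Real.posLog ‖f z‖) 0 r ≤ M) :
    InN (coef f) := by
  refine ⟨fun z hz => (hasSum_coef hf hz).summable, M, fun r h0 h1 => ?_⟩
  rw [av_congr h0 (g := fun z => Real.posLog ‖f z‖)]
  · exact hM r h0 h1
  · intro z hz
    rw [(hasSum_coef hf (hz.trans_lt h1)).tsum_eq]

lemma cls_inN {α δ C : ℝ} (hα : 0 ≤ α) (hC : 1 ≤ C) {f : ℂ → ℂ}
    (hf : DifferentiableOn ℂ f (ball 0 1)) {V : ℂ → ℝ}
    (hVc : ∀ r : ℝ, 0 < r → r < 1 → ContinuousOn V (sphere 0 r))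
    (hV0 : ∀ z : ℂ, ‖z‖ < 1 → 0 ≤ V z)
    (hV : ∀ r : ℝ, 0 < r → r < 1 → circleAverage V 0 r ≤ δ)
    (hb : ∀ z : ℂ, ‖z‖ < 1 → ‖f z‖ ≤ C * (Real.exp (α * P z + V z) * Lw z)) : InN (coef f) := by
  apply inN_of_bound hf (M := α + Real.log C + δ + Real.log 4)
  intro r h0 h1
  have hP := P_cont.mono (sph_sub h1)
  have hL := logLw_cont.mono (sph_sub h1)
  have h2 : circleAverage (fun z => Real.posLog ‖f z‖) 0 r ≤
      circleAverage (fun z => ((α * P z + Real.log C) + V z) + Real.log (Lw z)) 0 r := by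
    apply av_mono h0
    · exact Real.continuous_posLog.comp_continuousOn (hf.continuousOn.mono (sph_sub h1)).norm
    · exact (((continuousOn_const.mul hP).add continuousOn_const).add (hVc r h0 h1)).add hL
    · intro z hz
      have hz1 : ‖z‖ < 1 := hz.trans_lt h1
      have h3 := one_le_Lw hz1
      have h4 := P_nonneg hz1
      have h5 := hV0 z hz1
      have h6 := Real.log_nonneg h3
      have h7 := Real.log_nonneg hC
      apply posLog_le_of_le_exp (norm_nonneg _) (by positivity)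
      refine (hb z hz1).trans (le_of_eq ?_)
      rw [Real.exp_add, Real.exp_add, Real.exp_add, Real.exp_add, Real.exp_log (by linarith),
        Real.exp_log (by linarith)]
      ring
  rw [av_add h0 (f := fun z => (α * P z + Real.log C) + V z)
    (((continuousOn_const.mul hP).add continuousOn_const).add (hVc r h0 h1)) hL,
    av_add h0 (f := fun z => α * P z + Real.log C)
    ((continuousOn_const.mul hP).add continuousOn_const) (hVc r h0 h1), av_aff h0 hP, av_P h0 h1,
    av_logLw h0 h1] at h2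
  linarith [hV r h0 h1]

lemma IsMult.hk (h : IsMult lam) : HK lam := by
  have h1 : InN fun _ => (1 : ℂ) := by
    have hf : DifferentiableOn ℂ (fun z : ℂ => (1 - z)⁻¹) (ball 0 1) :=
      DifferentiableOn.inv (by fun_prop) fun z hz => one_sub_ne (mem_disc.1 hz)
    have hN : InN (coef fun z : ℂ => (1 - z)⁻¹) := by
      apply cls_inN (α := 0) (δ := 0) (C := 1) le_rfl le_rfl hf (V := fun _ => 0)
        (fun _ _ _ => continuousOn_const) (fun _ _ => le_rfl)
        (fun r _ _ => by rw [circleAverage_const])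
      intro z hz
      have h1 : ‖1 - z‖ ≤ 2 := by
        have := norm_sub_le (1 : ℂ) z
        rw [norm_one] at this; linarith
      have h2 : 0 < ‖1 - z‖ := norm_pos_iff.2 (one_sub_ne hz)
      simp only [zero_mul, add_zero, Real.exp_zero, one_mul, Lw, norm_inv]
      rw [inv_eq_one_div, div_le_div_iff₀ h2 (by positivity)]
      nlinarith
    obtain ⟨hs, M, hM⟩ := hN
    refine ⟨fun z hz => by simpa using summable_geometric_of_norm_lt_one hz, M, fun r h0 h1 => ?_⟩
    refine le_trans (le_of_eq (av_congr h0 fun z hz => ?_)) (hM r h0 h1)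
    rw [(hasSum_coef hf (hz.trans_lt h1)).tsum_eq]
    simp only [one_mul]
    rw [tsum_geometric_of_norm_lt_one (hz.trans_lt h1)]
  intro z hz
  simpa using (h _ h1).1 z hz

lemma diff_tsum {g : ℕ → ℂ → ℂ} (hg : ∀ i, DifferentiableOn ℂ (g i) (ball 0 1))
    (hb : ∀ r : ℝ, 0 ≤ r → r < 1 → ∃ u : ℕ → ℝ, Summable u ∧ ∀ i z, ‖z‖ ≤ r → ‖g i z‖ ≤ u i) :
    DifferentiableOn ℂ (fun z => ∑' i, g i z) (ball 0 1) := by
  intro z hz
  obtain ⟨r, hr1, hr2⟩ := exists_between (mem_disc.1 hz)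
  obtain ⟨u, hu, hu'⟩ := hb r ((norm_nonneg z).trans hr1.le) hr2
  have h : DifferentiableOn ℂ (fun z => ∑' i, g i z) (ball 0 r) :=
    differentiableOn_tsum_of_summable_norm hu (fun i => (hg i).mono (ball_subset_ball hr2.le))
      isOpen_ball fun i w hw => hu' i w (mem_disc.1 hw).le
  exact (h.differentiableAt (isOpen_ball.mem_nhds (mem_disc.2 hr1))).differentiableWithinAt

lemma cls_bound {α δ : ℝ} (hα : 0 ≤ α) (hδ : δ ≤ 1) {f : ℂ → ℂ} (hf : Cls α δ f) {r : ℝ}
    (hr : r < 1) {z : ℂ} (hz : ‖z‖ ≤ r) :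
    ‖f z‖ ≤ Real.exp (α * (2 / (1 - r)) + 2 / (1 - r)) * (4 / (1 - r) ^ 2) := by
  obtain ⟨-, V, -, hV, -, hb⟩ := hf
  have hz1 : ‖z‖ < 1 := hz.trans_lt hr
  have h1 : 0 < 1 - r := by linarith
  have h2 : 1 - r ≤ 1 - ‖z‖ := by linarith
  have h3 : P z ≤ 2 / (1 - r) := (P_le hz1).trans (by gcongr)
  have h4 : V z ≤ 2 / (1 - r) := by
    refine (hV z hz1).2.trans ?_
    calc 2 * δ / (1 - ‖z‖) ≤ 2 * 1 / (1 - ‖z‖) := by gcongr
      _ ≤ 2 * 1 / (1 - r) := by gcongr
      _ = _ := by ring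
  have h5 : Lw z ≤ 4 / (1 - r) ^ 2 := (Lw_le hz1).trans (by gcongr)
  have h6 := one_le_Lw hz1
  refine (hb z hz1).trans ?_
  gcongr

theorem unif_one (h : IsMult lam) {α : ℝ} (hα : 0 ≤ α) :
    ∃ δ : ℝ, 0 < δ ∧ ∃ M : ℝ, ∀ f, Cls α δ f → ∀ r : ℝ, 0 < r → r < 1 →
      circleAverage (fun z => Real.posLog ‖T lam f z‖) 0 r ≤ M := by
  have hK := h.hk
  by_contra hcon
  push Not at hcon
  have hcon' : ∀ i : ℕ, ∃ f, Cls α ((1 / 2) ^ i) f ∧ ∃ r : ℝ, 0 < r ∧ r < 1 ∧
      i * Real.log 2 + i < circleAverage (fun z => Real.posLog ‖T lam f z‖) 0 r :=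
    fun i => hcon _ (by positivity) _
  choose f hf r hr0 hr1 hr using hcon'
  have hf' := hf
  simp only [Cls] at hf'
  choose hfd V hVc hVb hVa hfb using hf'
  set c : (ℕ → Bool) → ℕ → ℂ := fun ω i => if ω i then (1 / 2) ^ i else 0 with hc
  have hcn : ∀ ω i, ‖c ω i‖ ≤ (1 / 2) ^ i := by
    intro ω i
    simp only [hc]
    split_ifs
    · simp
    · simp
  have hgeo : Summable fun i : ℕ => ((1 : ℝ) / 2) ^ i := summable_geometric_two
  have hle1 : ∀ i : ℕ, ((1 : ℝ) / 2) ^ i ≤ 1 := fun i => pow_le_one₀ (by norm_num) (by norm_num)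
  set F : (ℕ → Bool) → ℂ → ℂ := fun ω z => ∑' i, c ω i * f i z with hF
  set Bd : ℝ → ℝ := fun r => Real.exp (α * (2 / (1 - r)) + 2 / (1 - r)) * (4 / (1 - r) ^ 2)
    with hBd
  have hfB : ∀ i {r : ℝ}, r < 1 → ∀ z : ℂ, ‖z‖ ≤ r → ‖f i z‖ ≤ Bd r :=
    fun i r hr z hz => cls_bound hα (hle1 i) (hf i) hr hz
  have hterm : ∀ ω i {r : ℝ}, r < 1 → ∀ z : ℂ, ‖z‖ ≤ r → ‖c ω i * f i z‖ ≤ (1 / 2) ^ i * Bd r := by
    intro ω i r hr z hz
    rw [norm_mul]
    exact mul_le_mul (hcn ω i) (hfB i hr z hz) (norm_nonneg _) (by positivity)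
  have hFd : ∀ ω, DifferentiableOn ℂ (F ω) (ball 0 1) := by
    intro ω
    apply diff_tsum (fun i => (hfd i).const_mul _)
    intro r _ hr
    exact ⟨_, hgeo.mul_right (Bd r), fun i z hz => hterm ω i hr z hz⟩
  have hVs : ∀ {r : ℝ}, r < 1 → ∀ i z, ‖z‖ = r → ‖V i z‖ ≤ 2 / (1 - r) * (1 / 2) ^ i := by
    intro r hr i z hz
    have := hVb i z (hz.trans_lt hr)
    rw [Real.norm_eq_abs, abs_of_nonneg this.1]
    refine this.2.trans (le_of_eq ?_)
    rw [hz]; ring
  have hVsum : ∀ z : ℂ, ‖z‖ < 1 → Summable fun i => V i z := fun z hz =>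
    Summable.of_norm_bounded (hgeo.mul_left _) fun i => hVs hz i z rfl
  have hFN : ∀ ω, InN (coef (F ω)) := by
    intro ω
    apply cls_inN (δ := 2) (C := 2) hα (by norm_num) (hFd ω) (V := fun z => ∑' i, V i z)
    · intro r _ hr
      exact continuousOn_tsum (fun i => (hVc i).mono (sph_sub hr)) (hgeo.mul_left _)
        fun i z hz => hVs hr i z (mem_sph.1 hz)
    · intro z hz
      exact tsum_nonneg fun i => (hVb i z hz).1
    · intro r h0 hr
      have := hasSum_av h0 (fun i => (hVc i).mono (sph_sub hr)) (hgeo.mul_left _) (hVs hr)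
        fun z hz => (hVsum z (hz.trans_lt hr)).hasSum
      exact hasSum_le (fun i => hVa i r h0 hr) this hasSum_geometric_two
    · intro z hz
      have h1 := hasSum_geometric_two.mul_right (Real.exp (α * P z + ∑' i, V i z) * Lw z)
      refine tsum_of_norm_bounded h1 fun i => ?_
      rw [norm_mul]
      refine mul_le_mul (hcn ω i) ((hfb i z hz).trans ?_) (norm_nonneg _) (by positivity)
      have h2 := one_le_Lw hz
      have h3 : V i z ≤ ∑' i, V i z := (hVsum z hz).le_tsum i fun j _ => (hVb j z hz).1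
      gcongr
  -- the operator on the sums
  have hTs : ∀ {r : ℝ}, 0 < r → r < 1 → ∃ D : ℝ, (∀ i q, ‖q‖ = r → ‖T lam (f i) q‖ ≤ D) ∧
      ∀ ω q, ‖q‖ = r → HasSum (fun i => c ω i * T lam (f i) q) (T lam (F ω) q) := by
    intro r h0 h1
    obtain ⟨ρ, hρ1, hρ2⟩ := exists_between h1
    have hρ0 : 0 < ρ := h0.trans hρ1
    obtain ⟨C, hC⟩ := (isCompact_sphere (0 : ℂ) ρ).exists_bound_of_continuousOn (K_cont hK hρ2)
    have hrρ : r / ρ < 1 := (div_lt_one hρ0).2 hρ1
    have hn : ∀ q y : ℂ, ‖q‖ = r → ‖y‖ = ρ → ‖q / y‖ ≤ r / ρ := by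
      intro q y hq hy; rw [norm_div, hq, hy]
    refine ⟨Bd (r / ρ) * C, fun i q hq => ?_, fun ω q hq => ?_⟩
    · rw [T_eq hK (hfd i) (hq.trans_lt hρ1) hρ2]
      apply av_norm_le hρ0
      intro y hy
      rw [norm_mul]
      exact mul_le_mul (hfB i hrρ _ (hn q y hq hy)) (hC y (mem_sph.2 hy)) (norm_nonneg _)
        (by positivity)
    · rw [T_eq hK (hFd ω) (hq.trans_lt hρ1) hρ2]
      have := hasSum_av (f := fun i y => c ω i * (f i (q / y) * Kf lam y))
        (g := fun y => F ω (q / y) * Kf lam y) hρ0 ?_ ((hgeo.mul_right (Bd (r / ρ))).mul_right C)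
        ?_ ?_
      · refine hasSum_of_eq this fun i => ?_
        rw [av_cmul, T_eq hK (hfd i) (hq.trans_lt hρ1) hρ2]
      · intro i
        exact continuousOn_const.mul
          ((cont_div (hfd i).continuousOn (hq.trans_lt hρ1)).mul (K_cont hK hρ2))
      · intro i y hy
        rw [← mul_assoc, norm_mul]
        exact mul_le_mul (hterm ω i hrρ _ (hn q y hq hy)) (hC y (mem_sph.2 hy)) (norm_nonneg _)
          (by positivity)
      · intro y hy
        have h2 : Summable fun i => c ω i * f i (q / y) :=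
          Summable.of_norm_bounded (hgeo.mul_right _) fun i => hterm ω i hrρ _ (hn q y hq hy)
        exact hasSum_of_eq (h2.hasSum.mul_right (Kf lam y)) fun i => by ring
  set A : ℕ → Set (ℕ → Bool) := fun M => {ω | ∀ r : ℝ, 0 < r → r < 1 →
    circleAverage (fun z => Real.posLog ‖T lam (F ω) z‖) 0 r ≤ M} with hA
  have hAc : ∀ M, IsClosed (A M) := by
    intro M
    simp only [hA, ofPred_forall]
    refine isClosed_iInter fun r => isClosed_iInter fun h0 => isClosed_iInter fun h1 => ?_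
    obtain ⟨D, hD, hS⟩ := hTs h0 h1
    apply isClosed_le _ continuous_const
    simp only [circleAverage_def]
    apply Continuous.fun_const_smul
    apply intervalIntegral.continuous_parametric_intervalIntegral_of_continuous'
      (f := fun (ω : ℕ → Bool) θ => Real.posLog ‖T lam (F ω) (circleMap 0 r θ)‖)
    have e : (Function.uncurry fun (ω : ℕ → Bool) θ => Real.posLog ‖T lam (F ω) (circleMap 0 r θ)‖)
        = fun p => Real.posLog ‖∑' i, c p.1 i * T lam (f i) (circleMap 0 r p.2)‖ := by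
      funext p
      simp only [Function.uncurry]
      rw [(hS p.1 _ (norm_cm h0 p.2)).tsum_eq]
    rw [e]
    apply Real.continuous_posLog.comp
    apply Continuous.norm
    apply continuous_tsum (u := fun i => (1 / 2) ^ i * D) _ (hgeo.mul_right D)
    · intro i p
      rw [norm_mul]
      exact mul_le_mul (hcn _ i) (hD i _ (norm_cm h0 _)) (norm_nonneg _) (by positivity)
    · intro i
      apply Continuous.mul
      · exact (continuous_of_discreteTopology
          (f := fun b : Bool => if b then ((1 : ℂ) / 2) ^ i else 0)).comp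
          ((continuous_apply i).comp continuous_fst)
      · exact (cont_cm h0 (T_cont hK (hfd i) h1)).comp continuous_snd
  have hAu : ⋃ M, A M = univ := by
    apply eq_univ_of_forall
    intro ω
    obtain ⟨M, hM⟩ := (h _ (hFN ω)).2
    obtain ⟨N, hN⟩ := exists_nat_ge M
    exact mem_iUnion.2 ⟨N, fun r h0 h1 => (hM r h0 h1).trans hN⟩
  obtain ⟨M, ω₀, hω₀⟩ := nonempty_interior_of_iUnion_of_closed hAc hAu
  have hlim : ∀ b : Bool, Tendsto (fun i => Function.update ω₀ i b) atTop (𝓝 ω₀) := by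
    intro b
    rw [tendsto_pi_nhds]
    intro j
    apply tendsto_const_nhds.congr'
    filter_upwards [eventually_gt_atTop j] with i hi
    rw [Function.update_of_ne hi.ne]
  have hev := ((hlim true).eventually (mem_interior_iff_mem_nhds.1 hω₀)).and
    (((hlim false).eventually (mem_interior_iff_mem_nhds.1 hω₀)).and
      (eventually_ge_atTop (2 * M + 1)))
  obtain ⟨i, h1, h2, h3⟩ := hev.exists
  obtain ⟨D, -, hS⟩ := hTs (hr0 i) (hr1 i)
  have h4 := h1 (r i) (hr0 i) (hr1 i)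
  have h5 := h2 (r i) (hr0 i) (hr1 i)
  have hc1 := T_plog_cont hK (hFd (Function.update ω₀ i true)) (hr1 i)
  have hc2 := T_plog_cont hK (hFd (Function.update ω₀ i false)) (hr1 i)
  have h6 : circleAverage (fun z => Real.posLog ‖T lam (f i) z‖) 0 (r i) ≤
      circleAverage (fun z => (Real.posLog ‖T lam (F (Function.update ω₀ i true)) z‖ +
        Real.posLog ‖T lam (F (Function.update ω₀ i false)) z‖) +
        (i * Real.log 2 + Real.log 2)) 0 (r i) := by
    apply av_mono (hr0 i) (T_plog_cont hK (hfd i) (hr1 i)) ((hc1.add hc2).add continuousOn_const)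
    intro z hz
    have h7 := (hS (Function.update ω₀ i true) z hz).sub (hS (Function.update ω₀ i false) z hz)
    have h8 : HasSum (fun j => c (Function.update ω₀ i true) j * T lam (f j) z -
        c (Function.update ω₀ i false) j * T lam (f j) z) ((1 / 2) ^ i * T lam (f i) z) := by
      have := hasSum_single (f := fun j => c (Function.update ω₀ i true) j * T lam (f j) z -
        c (Function.update ω₀ i false) j * T lam (f j) z) i (fun j hj => by
          simp only [hc, Function.update_of_ne hj, sub_self])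
      simpa [hc] using this
    have h9 : T lam (f i) z = ((2 ^ i : ℕ) : ℂ) * (T lam (F (Function.update ω₀ i true)) z +
        -T lam (F (Function.update ω₀ i false)) z) := by
      rw [← sub_eq_add_neg, h7.unique h8]
      push_cast
      rw [← mul_assoc, ← mul_pow]; norm_num
    rw [h9, norm_mul, Complex.norm_natCast]
    refine Real.posLog_nat_mul.trans ?_
    have h10 := Real.posLog_norm_add_le (T lam (F (Function.update ω₀ i true)) z)
      (-T lam (F (Function.update ω₀ i false)) z)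
    rw [norm_neg] at h10
    push_cast
    rw [Real.log_pow]
    simp only [Pi.add_apply]
    linarith
  rw [av_add (hr0 i) (f := fun z => Real.posLog ‖T lam (F (Function.update ω₀ i true)) z‖ +
        Real.posLog ‖T lam (F (Function.update ω₀ i false)) z‖) (hc1.add hc2) continuousOn_const,
    av_add (hr0 i) hc1 hc2, circleAverage_const] at h6
  have h7 := hr i
  have h8 : Real.log 2 < 1 := by linarith [Real.log_two_lt_d9]
  have h9 : (2 * M + 1 : ℝ) ≤ i := by exact_mod_cast h3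
  linarith

/-- The uniform majorant property used in the rest of the proof. -/
def UB (lam : ℕ → ℂ) (α δ M : ℝ) : Prop :=
  ∀ (m : ℕ) (f : ℕ → ℂ → ℂ) (β : ℕ → ℝ), (∀ j < m, Cls α (β j) (f j)) → (∀ j, 0 ≤ β j) →
    ∑ j ∈ Finset.range m, β j ≤ δ → ∀ r : ℝ, 0 < r → r < 1 →
    ∃ Ψ : ℂ → ℝ, ContinuousOn Ψ (sphere 0 r) ∧ (∀ z, 0 ≤ Ψ z) ∧ circleAverage Ψ 0 r ≤ M ∧
      ∀ j < m, ∀ z, ‖z‖ = r → ‖T lam (f j) z‖ ≤ Real.exp (Real.log m + Ψ z)

theorem unif (h : IsMult lam) {α : ℝ} (hα : 0 ≤ α) :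
    ∃ δ : ℝ, 0 < δ ∧ ∃ M : ℝ, 1 ≤ M ∧ UB lam α δ M := by
  have hK := h.hk
  obtain ⟨δ, hδ, M, hM⟩ := unif_one h hα
  refine ⟨δ, hδ, 1 + 2 * max M 0, by linarith [le_max_right M 0], ?_⟩
  intro m f β hf hβ hs r h0 h1
  have hf' : ∀ j, ∃ V : ℂ → ℝ, j < m → ContinuousOn V (ball 0 1) ∧
    (∀ z : ℂ, ‖z‖ < 1 → 0 ≤ V z ∧ V z ≤ 2 * β j / (1 - ‖z‖)) ∧
    (∀ r : ℝ, 0 < r → r < 1 → circleAverage V 0 r ≤ β j) ∧
    ∀ z : ℂ, ‖z‖ < 1 → ‖f j z‖ ≤ Real.exp (α * P z + V z) * Lw z := by
    intro j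
    by_cases hj : j < m
    · obtain ⟨V, hV⟩ := (hf j hj).2
      exact ⟨V, fun _ => hV⟩
    · exact ⟨fun _ => 0, fun h => absurd h hj⟩
  choose V hV using hf'
  set g : Finset ℕ → ℂ → ℂ := fun σ z => (m : ℂ)⁻¹ * ∑ j ∈ σ, f j z with hg
  have hgd : ∀ σ ⊆ Finset.range m, DifferentiableOn ℂ (fun z => ∑ j ∈ σ, f j z) (ball 0 1) :=
    fun σ hσ => DifferentiableOn.fun_sum fun j hj => (hf j (Finset.mem_range.1 (hσ hj))).1
  have hgc : ∀ σ ⊆ Finset.range m, Cls α δ (g σ) := by
    intro σ hσ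
    refine ⟨(hgd σ hσ).const_mul _, fun z => ∑ j ∈ Finset.range m, V j z, ?_, ?_, ?_, ?_⟩
    · exact continuousOn_finsetSum _ fun j hj => (hV j (Finset.mem_range.1 hj)).1
    · intro z hz
      refine ⟨Finset.sum_nonneg fun j hj => ((hV j (Finset.mem_range.1 hj)).2.1 z hz).1, ?_⟩
      refine (Finset.sum_le_sum fun j hj => ((hV j (Finset.mem_range.1 hj)).2.1 z hz).2).trans ?_
      rw [← Finset.sum_div, ← Finset.mul_sum]
      have : 0 < 1 - ‖z‖ := by linarith
      gcongr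
    · intro r h0 h1
      rw [av_sum _ h0 fun j hj => (hV j (Finset.mem_range.1 hj)).1.mono (sph_sub h1)]
      exact (Finset.sum_le_sum fun j hj => (hV j (Finset.mem_range.1 hj)).2.2.1 r h0 h1).trans hs
    · intro z hz
      have h2 := one_le_Lw hz
      have h3 : ∀ j ∈ σ, ‖f j z‖ ≤ Real.exp (α * P z + ∑ j ∈ Finset.range m, V j z) * Lw z := by
        intro j hj
        refine ((hV j (Finset.mem_range.1 (hσ hj))).2.2.2 z hz).trans ?_
        have : V j z ≤ ∑ j ∈ Finset.range m, V j z :=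
          Finset.single_le_sum (f := fun j => V j z)
            (fun j hj => ((hV j (Finset.mem_range.1 hj)).2.1 z hz).1) (hσ hj)
        gcongr
      have h4 := (norm_sum_le _ _).trans (Finset.sum_le_card_nsmul _ _ _ h3)
      have h5 : (σ.card : ℝ) ≤ m := by
        exact_mod_cast (Finset.card_le_card hσ).trans (Finset.card_range m).le
      simp only [hg, norm_mul, norm_inv, Complex.norm_natCast]
      rw [nsmul_eq_mul] at h4
      rcases Nat.eq_zero_or_pos m with rfl | hm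
      · simp; positivity
      · have hm' : (0 : ℝ) < m := by exact_mod_cast hm
        rw [inv_mul_le_iff₀ hm']
        refine h4.trans ?_
        gcongr
  have hgp : ∀ σ ∈ (Finset.range m).powerset,
      ContinuousOn (fun z => Real.posLog ‖T lam (g σ) z‖) (sphere 0 r) :=
    fun σ hσ => T_plog_cont hK (hgc σ (Finset.mem_powerset.1 hσ)).1 h1
  have hlog2 : 0 ≤ Real.log 2 := Real.log_nonneg (by norm_num)
  refine ⟨fun z => (2 / 2 ^ m) * (∑ σ ∈ (Finset.range m).powerset,
    Real.posLog ‖T lam (g σ) z‖) + Real.log 2, ?_, ?_, ?_, ?_⟩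
  · exact (continuousOn_const.mul (continuousOn_finsetSum _ hgp)).add continuousOn_const
  · intro z
    have : 0 ≤ ∑ σ ∈ (Finset.range m).powerset, Real.posLog ‖T lam (g σ) z‖ :=
      Finset.sum_nonneg fun _ _ => Real.posLog_nonneg
    positivity
  · rw [av_aff h0 (continuousOn_finsetSum _ hgp), av_sum _ h0 hgp]
    have h2 := Finset.sum_le_card_nsmul _ _ (max M 0) fun σ (hσ : σ ∈ (Finset.range m).powerset) =>
      (hM _ (hgc σ (Finset.mem_powerset.1 hσ)) r h0 h1).trans (le_max_left M 0)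
    rw [Finset.card_powerset, Finset.card_range, nsmul_eq_mul] at h2
    have h3 : (2 : ℝ) / 2 ^ m * ∑ σ ∈ (Finset.range m).powerset,
        circleAverage (fun z => Real.posLog ‖T lam (g σ) z‖) 0 r ≤
        2 / 2 ^ m * (((2 ^ m : ℕ) : ℝ) * max M 0) := by gcongr
    have h4 : (2 : ℝ) / 2 ^ m * (((2 ^ m : ℕ) : ℝ) * max M 0) = 2 * max M 0 := by
      push_cast; field_simp
    linarith [Real.log_two_lt_d9]
  · intro k hk z hz
    have hz1 : ‖z‖ < 1 := hz.trans_lt h1
    have hm' : (0 : ℝ) < m := by exact_mod_cast (Nat.zero_le k).trans_lt hk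
    have hkm : k ∈ Finset.range m := Finset.mem_range.2 hk
    set s := (Finset.range m).erase k with hs'
    have hins : Finset.range m = insert k s := (Finset.insert_erase hkm).symm
    have hks : k ∉ s := Finset.notMem_erase _ _
    have hcard : m = s.card + 1 := by
      rw [hs', Finset.card_erase_add_one hkm, Finset.card_range]
    have hTg : ∀ σ ⊆ Finset.range m, T lam (g σ) z = (m : ℂ)⁻¹ * ∑ j ∈ σ, T lam (f j) z := by
      intro σ hσ
      rw [hg]
      simp only
      rw [T_cmul hK (hgd σ hσ) _ hz1,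
        T_sum hK σ (fun j hj => (hf j (Finset.mem_range.1 (hσ hj))).1) hz1]
    have h2 : ∀ σ ∈ s.powerset, Real.posLog ‖(m : ℂ)⁻¹ * T lam (f k) z‖ - Real.log 2 ≤
        Real.posLog ‖T lam (g σ) z‖ + Real.posLog ‖T lam (g (insert k σ)) z‖ := by
      intro σ hσ
      have hσs := Finset.mem_powerset.1 hσ
      have hσ1 : σ ⊆ Finset.range m := hσs.trans (Finset.erase_subset _ _)
      have hσ2 : insert k σ ⊆ Finset.range m := Finset.insert_subset hkm hσ1
      have h3 : (m : ℂ)⁻¹ * T lam (f k) z = T lam (g (insert k σ)) z + -T lam (g σ) z := by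
        rw [hTg _ hσ1, hTg _ hσ2, Finset.sum_insert fun h => hks (hσs h)]; ring
      have h4 := Real.posLog_norm_add_le (T lam (g (insert k σ)) z) (-T lam (g σ) z)
      rw [norm_neg, ← h3] at h4
      linarith
    have h3 := Finset.card_nsmul_le_sum _ _ _ h2
    rw [Finset.sum_add_distrib, ← Finset.sum_powerset_insert hks (fun σ => Real.posLog ‖T lam (g σ) z‖),
      ← hins, Finset.card_powerset, nsmul_eq_mul] at h3
    have h4 : Real.posLog ‖(m : ℂ)⁻¹ * T lam (f k) z‖ ≤ (2 / 2 ^ m) *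
        (∑ σ ∈ (Finset.range m).powerset, Real.posLog ‖T lam (g σ) z‖) + Real.log 2 := by
      have h5 : (2 : ℝ) / 2 ^ m * ((2 ^ s.card : ℕ) : ℝ) = 1 := by
        conv_lhs => rw [hcard]
        push_cast; field_simp; ring
      have h6 := mul_le_mul_of_nonneg_left h3 (by positivity : (0 : ℝ) ≤ 2 / 2 ^ m)
      rw [← mul_assoc, h5] at h6
      linarith
    have h5 := (le_exp_posLog (norm_nonneg ((m : ℂ)⁻¹ * T lam (f k) z))).trans
      (Real.exp_le_exp.2 h4)
    rw [norm_mul, norm_inv, Complex.norm_natCast, inv_mul_le_iff₀ hm'] at h5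
    rw [Real.exp_add, Real.exp_log hm']
    exact h5

lemma lam_bound (hK : HK lam) {α δ M : ℝ} (hα : 0 ≤ α) (hδ : 0 ≤ δ) (hU : UB lam α δ M) (n : ℕ) :
    ‖lam n‖ ≤ Real.exp M := by
  have hc : Cls α 0 fun z => z ^ n := by
    apply cls_zero (by fun_prop)
    intro z hz
    have h1 := one_le_Lw hz
    have h2 : 1 ≤ Real.exp (α * P z) := Real.one_le_exp (mul_nonneg hα (P_nonneg hz))
    have h3 : ‖z ^ n‖ ≤ 1 := by rw [norm_pow]; exact pow_le_one₀ (norm_nonneg _) hz.le
    nlinarith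
  have key : ∀ r : ℝ, 0 < r → r < 1 → ‖lam n‖ * r ^ n ≤ Real.exp M := by
    intro r h0 h1
    obtain ⟨Ψ, hΨc, hΨ0, hΨa, hΨ⟩ := hU 1 (fun _ z => z ^ n) (fun _ => 0) (fun _ _ => hc)
      (fun _ => le_rfl) (by simpa using hδ) r h0 h1
    have h2 : circleAverage (fun _ => Real.posLog (‖lam n‖ * r ^ n)) 0 r ≤ circleAverage Ψ 0 r := by
      apply av_mono h0 continuousOn_const hΨc
      intro z hz
      have := hΨ 0 one_pos z hz
      rw [T_pow hK n (hz.trans_lt h1), norm_mul, norm_pow, hz] at this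
      exact posLog_le_of_le_exp (by positivity) (hΨ0 z) (by simpa using this)
    rw [circleAverage_const] at h2
    exact (le_exp_posLog (by positivity)).trans (Real.exp_le_exp.2 (h2.trans hΨa))
  have hlim : Tendsto (fun r : ℝ => ‖lam n‖ * r ^ n) (𝓝[<] 1) (𝓝 (‖lam n‖ * 1 ^ n)) := by
    apply tendsto_nhdsWithin_of_tendsto_nhds
    apply Continuous.tendsto
    fun_prop
  rw [one_pow, mul_one] at hlim
  apply le_of_tendsto hlim
  filter_upwards [Ioo_mem_nhdsLT (zero_lt_one' ℝ)] with r hr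
  exact key r hr.1 hr.2

end Pool.Agent.Lib.MP_b4c8d9_an
end
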