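import Mathlib

-- part Pool.Agent.Lib.MP_b4c8d9_an.Markov
section

/-! A Markov type inequality for entire functions and a Vandermonde type estimate. -/

namespace Pool.Agent.Lib.MP_b4c8d9_an

open Complex Real Metric Set Filter Topology

lemma joukowski_surj (c : ℂ) : ∃ w : ℂ, 1 ≤ ‖w‖ ∧ w + w⁻¹ = c := by
  obtain ⟨s, hs⟩ := IsAlgClosed.exists_pow_nat_eq (c ^ 2 - 4) (n := 2) two_pos
  have h1 : (c + s) / 2 * ((c - s) / 2) = 1 := by linear_combination (-1 / 4) * hs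
  by_cases h : 1 ≤ ‖(c + s) / 2‖
  · refine ⟨_, h, ?_⟩
    rw [← eq_inv_of_mul_eq_one_right h1]; ring
  · refine ⟨(c - s) / 2, ?_, ?_⟩
    · have h2 := congrArg norm h1
      rw [norm_mul, norm_one] at h2
      by_contra h3
      push Not at h h3
      nlinarith [norm_nonneg ((c + s) / 2), norm_nonneg ((c - s) / 2)]
    · rw [← eq_inv_of_mul_eq_one_left h1]; ring

lemma markov {F : ℂ → ℂ} (hF : Differentiable ℂ F) {L M : ℝ} {d : ℕ} (hL : 0 < L) (hM : 1 ≤ M)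
    (hd : 1 ≤ d) (h1 : ∀ t ∈ Icc (0:ℝ) L, ‖F t‖ ≤ M) (h2 : ∀ z : ℂ, ‖z‖ ≤ 2 * L → ‖F z‖ ≤ 2 ^ d)
    {t : ℝ} (ht : t ∈ Icc (0:ℝ) L) : ‖deriv F t‖ ≤ 24 * M * d ^ 2 / L := by
  have hd' : (1 : ℝ) ≤ d := by exact_mod_cast hd
  set J : ℂ → ℂ := fun w => L / 2 + L / 4 * (w + w⁻¹) with hJ
  have bd : ∀ w : ℂ, ‖w‖ = 1 ∨ ‖w‖ = 2 → ‖F (J w) / w ^ d‖ ≤ M := by
    rintro w (hw | hw)
    · have e : J w = ((L / 2 + L / 2 * w.re : ℝ) : ℂ) := by
        simp only [hJ]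
        rw [Complex.inv_eq_conj hw, Complex.add_conj]; push_cast; ring
      have h3 := abs_le.1 ((Complex.abs_re_le_norm w).trans hw.le)
      rw [norm_div, norm_pow, hw, one_pow, div_one, e]
      exact h1 _ ⟨by nlinarith, by nlinarith⟩
    · have h3 : ‖J w‖ ≤ 2 * L := by
        simp only [hJ]
        refine (norm_add_le _ _).trans ?_
        have h4 := norm_add_le w w⁻¹
        rw [norm_inv, hw] at h4
        simp only [norm_mul, norm_div, Complex.norm_real, Real.norm_eq_abs, abs_of_pos hL,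
          Complex.norm_ofNat]
        nlinarith
      rw [norm_div, norm_pow, hw, div_le_iff₀ (by positivity)]
      exact (h2 _ h3).trans (le_mul_of_one_le_left (by positivity) hM)
  have ann : ∀ w : ℂ, 1 ≤ ‖w‖ → ‖w‖ ≤ 2 → ‖F (J w) / w ^ d‖ ≤ M := by
    intro w a1 a2
    by_cases hw : ‖w‖ = 1 ∨ ‖w‖ = 2
    · exact bd w hw
    push Not at hw
    set U : Set ℂ := {w | 1 < ‖w‖ ∧ ‖w‖ < 2} with hU
    have hUo : IsOpen U := (isOpen_lt (f := fun _ : ℂ => (1 : ℝ)) continuous_const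
      continuous_norm).inter (isOpen_lt (g := fun _ : ℂ => (2 : ℝ)) continuous_norm continuous_const)
    have hUc : closure U ⊆ {w | 1 ≤ ‖w‖ ∧ ‖w‖ ≤ 2} :=
      closure_minimal (fun w hw => ⟨hw.1.le, hw.2.le⟩)
        ((isClosed_le (f := fun _ : ℂ => (1 : ℝ)) continuous_const continuous_norm).inter
          (isClosed_le (g := fun _ : ℂ => (2 : ℝ)) continuous_norm continuous_const))
    have hD : DiffContOnCl ℂ (fun w => F (J w) / w ^ d) U := by
      apply DifferentiableOn.diffContOnCl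
      intro w hw
      have h0 : w ≠ 0 := by rintro rfl; have := (hUc hw).1; norm_num at this
      apply DifferentiableAt.differentiableWithinAt
      have h5 : DifferentiableAt ℂ J w := by
        simp only [hJ]
        fun_prop (disch := exact h0)
      exact ((hF _).comp w h5).div (d := fun w => w ^ d) (by fun_prop) (pow_ne_zero _ h0)
    refine Complex.norm_le_of_forall_mem_frontier_norm_le
      ((isBounded_ball (x := (0 : ℂ)) (r := 2)).subset fun w hw => by simpa using hw.2) hD ?_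
      (subset_closure ⟨a1.lt_of_ne' hw.1, a2.lt_of_ne hw.2⟩)
    intro z hz
    rw [hUo.frontier_eq] at hz
    apply bd
    have h3 := hUc hz.1
    by_contra h4
    push Not at h4
    exact hz.2 ⟨h3.1.lt_of_ne' h4.1, h3.2.lt_of_ne h4.2⟩
  have hδ : 0 < L / (8 * d ^ 2) := by positivity
  have h3 := Complex.norm_deriv_le_of_forall_mem_sphere_norm_le (c := (t : ℂ)) (C := 3 * M) hδ
    hF.diffContOnCl (by
      intro z hz
      rw [mem_sphere, dist_eq_norm] at hz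
      obtain ⟨w, hw1, hw2⟩ := joukowski_surj ((z - L / 2) * 4 / L)
      have hL' : (L : ℂ) ≠ 0 := by exact_mod_cast hL.ne'
      have hw0 : w ≠ 0 := by rintro rfl; norm_num at hw1
      have hz' : J w = z := by simp only [hJ, hw2]; field_simp; ring
      have e1 : z = L / 4 * (w + 1) ^ 2 / w := by rw [← hz']; simp only [hJ]; field_simp; ring
      have e2 : z - L = L / 4 * (w - 1) ^ 2 / w := by rw [← hz']; simp only [hJ]; field_simp; ring
      have n1 : ‖z‖ = L / 4 * ‖w + 1‖ ^ 2 / ‖w‖ := by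
        conv_lhs => rw [e1]
        simp [abs_of_pos hL]
      have n2 : ‖z - L‖ = L / 4 * ‖w - 1‖ ^ 2 / ‖w‖ := by
        rw [e2]; simp [abs_of_pos hL]
      have par := parallelogram_law_with_norm ℝ w 1
      have n3 : ‖z‖ ≤ t + L / (8 * d ^ 2) := by
        have := norm_le_insert' z (t : ℂ)
        rwa [hz, Complex.norm_real, Real.norm_eq_abs, abs_of_nonneg ht.1] at this
      have n4 : ‖z - L‖ ≤ L / (8 * d ^ 2) + (L - t) := by
        have := norm_sub_le_norm_sub_add_norm_sub z (t : ℂ) L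
        rwa [hz, ← ofReal_sub, Complex.norm_real, Real.norm_eq_abs,
          abs_of_nonpos (by linarith [ht.2]), neg_sub] at this
      have n5 : L / 4 * (2 * (‖w‖ ^ 2 + 1)) / ‖w‖ ≤ L + L / (4 * d ^ 2) := by
        have : L / 4 * (2 * (‖w‖ ^ 2 + 1)) / ‖w‖ = ‖z‖ + ‖z - L‖ := by
          rw [n1, n2, ← add_div, ← mul_add]
          congr 2
          rw [norm_one] at par; nlinarith
        have e : L / (4 * d ^ 2) = 2 * (L / (8 * d ^ 2)) := by field_simp; norm_num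
        rw [this, e]; linarith
      have n6 : 2 * d ^ 2 * (‖w‖ - 1) ^ 2 ≤ ‖w‖ := by
        rw [div_le_iff₀ (by linarith)] at n5
        have e : (L + L / (4 * d ^ 2)) * ‖w‖ = L / (4 * d ^ 2) * ((4 * d ^ 2 + 1) * ‖w‖) := by
          field_simp
        have e' : L / 4 * (2 * (‖w‖ ^ 2 + 1)) = L / (4 * d ^ 2) * (2 * d ^ 2 * (‖w‖ ^ 2 + 1)) := by
          field_simp
        rw [e, e'] at n5
        have := le_of_mul_le_mul_left n5 (by positivity)
        nlinarith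
      have n7 : ‖w‖ ≤ 1 + 1 / d := by
        by_contra h
        push Not at h
        have h4 : 1 < d * (‖w‖ - 1) := by
          rw [← div_lt_iff₀' (by linarith)]; linarith
        nlinarith [mul_le_mul_of_nonneg_right hd' (by linarith : 0 ≤ ‖w‖ - 1)]
      have n8 : ‖w‖ ^ d ≤ 3 := by
        calc ‖w‖ ^ d ≤ (Real.exp (1 / d)) ^ d := by
              gcongr; linarith [Real.add_one_le_exp (1 / d)]
          _ = Real.exp 1 := by rw [← Real.exp_nat_mul]; congr 1; field_simp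
          _ ≤ 3 := by linarith [Real.exp_one_lt_d9]
      have n9 := ann w hw1 (n7.trans (by
        have : 1 / (d : ℝ) ≤ 1 := (div_le_one (by linarith)).2 hd'
        linarith))
      rw [hz', norm_div, norm_pow, div_le_iff₀ (by positivity)] at n9
      nlinarith)
  refine h3.trans (le_of_eq ?_)
  field_simp; norm_num

lemma vander {ι : Type*} (X : Finset ι) {x : ι → ℂ} (hinj : InjOn x X) (hx : ∀ i ∈ X, ‖x i‖ = 1) :
    ∃ Pn : ℝ, 0 ≤ Pn ∧ ∀ (v : ι → ℂ) (n : ℕ) (E : ℝ),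
      (∀ j ≤ X.card, ‖∑ i ∈ X, x i ^ (n + j) * v i‖ ≤ E) → ∑ i ∈ X, ‖v i‖ ≤ Pn * E := by
  classical
  refine ⟨∑ i ∈ X, ∑ j ∈ Finset.range (X.card + 1), ‖(Lagrange.basis X x i).coeff j‖,
    by positivity, fun v n E hE => ?_⟩
  rw [Finset.sum_mul]
  refine Finset.sum_le_sum fun i₀ hi₀ => ?_
  have hdeg : (Lagrange.basis X x i₀).natDegree < X.card + 1 := by
    rw [Lagrange.natDegree_basis hinj hi₀]; omega
  have e : ∑ j ∈ Finset.range (X.card + 1), (Lagrange.basis X x i₀).coeff j *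
      ∑ i ∈ X, x i ^ (n + j) * v i = x i₀ ^ n * v i₀ := by
    simp only [Finset.mul_sum]
    rw [Finset.sum_comm]
    have : ∀ i ∈ X, ∑ j ∈ Finset.range (X.card + 1), (Lagrange.basis X x i₀).coeff j *
        (x i ^ (n + j) * v i) = (Lagrange.basis X x i₀).eval (x i) * (x i ^ n * v i) := by
      intro i _
      rw [Polynomial.eval_eq_sum_range' hdeg, Finset.sum_mul]
      exact Finset.sum_congr rfl fun j _ => by ring
    rw [Finset.sum_congr rfl this, Finset.sum_eq_single_of_mem i₀ hi₀]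
    · rw [Lagrange.eval_basis_self hinj hi₀, one_mul]
    · intro i hi hne
      rw [Lagrange.eval_basis_of_ne hne.symm hi, zero_mul]
  calc ‖v i₀‖ = ‖x i₀ ^ n * v i₀‖ := by rw [norm_mul, norm_pow, hx i₀ hi₀, one_pow, one_mul]
    _ ≤ _ := by
      rw [← e, Finset.sum_mul]
      refine (norm_sum_le _ _).trans (Finset.sum_le_sum fun j hj => ?_)
      rw [norm_mul]
      gcongr
      exact hE j (Nat.lt_succ_iff.1 (Finset.mem_range.1 hj))

end Pool.Agent.Lib.MP_b4c8d9_an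
end

-- part Pool.Agent.Lib.MP_b4c8d9_an.Discrete
section

/-! From local symbols at every scale to constant coefficients. -/

namespace Pool.Agent.Lib.MP_b4c8d9_an

open Complex Real Metric Set Filter Topology

lemma sum_diff_le {ι : Type*} (X : Finset ι) {x : ι → ℂ} (hx : ∀ i ∈ X, ‖x i‖ = 1) (n : ℕ)
    {u v : ι → ℂ} {E : ℝ} (h : ∀ i ∈ X, ‖u i - v i‖ ≤ E) :
    ‖∑ i ∈ X, x i ^ n * u i - ∑ i ∈ X, x i ^ n * v i‖ ≤ X.card * E := by
  rw [← Finset.sum_sub_distrib, ← nsmul_eq_mul]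
  refine (norm_sum_le _ _).trans (Finset.sum_le_card_nsmul _ _ _ fun i hi => ?_)
  rw [← mul_sub, norm_mul, norm_pow, hx i hi, one_pow, one_mul]
  exact h i hi

lemma lip_real {F : ℂ → ℂ} (hF : Differentiable ℂ F) {L C : ℝ}
    (h : ∀ t ∈ Icc (0:ℝ) L, ‖deriv F t‖ ≤ C) {t u : ℝ} (ht : t ∈ Icc (0:ℝ) L)
    (hu : u ∈ Icc (0:ℝ) L) : ‖F t - F u‖ ≤ C * |t - u| :=
  (convex_Icc (0:ℝ) L).norm_image_sub_le_of_norm_hasDerivWithin_le (𝕜 := ℝ)
    (f := fun t : ℝ => F t) (f' := fun t : ℝ => deriv F t)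
    (fun t _ => (hF t).hasDerivAt.comp_ofReal.hasDerivWithinAt) h hu ht

lemma markov_step {ι : Type*} (X : Finset ι) {x : ι → ℂ} (hinj : InjOn x X)
    (hx : ∀ i ∈ X, ‖x i‖ = 1) {C₁ : ℝ} (hC₁ : 0 ≤ C₁) :
    ∃ M₀ ε₀ : ℝ, 0 < ε₀ ∧ ∀ ε : ℝ, 0 < ε → ε ≤ ε₀ → ∀ (l : ℕ) (A : ι → ℂ → ℂ), 1 ≤ ε * l →
      X.card ≤ l ^ 2 → (∀ i, Differentiable ℂ (A i)) →
      (∀ i ∈ X, ∀ ξ : ℂ, ‖ξ‖ ≤ 2 * (l : ℝ) ^ 2 → ‖A i ξ‖ ≤ Real.exp (ε * l)) →
      (∀ m : ℕ, m ≤ l ^ 2 → ‖∑ i ∈ X, x i ^ m * A i m‖ ≤ C₁) →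
      ∀ i ∈ X, ∀ n : ℕ, n ≤ l ^ 2 → ‖A i n - A i 0‖ ≤ M₀ * ε ^ 2 * n := by
  obtain ⟨Pn, hPn, hv⟩ := vander X hinj hx
  set D : ℝ := (X.card : ℝ) with hD
  have hD0 : 0 ≤ D := Nat.cast_nonneg _
  refine ⟨216 * (2 * (1 + Pn * C₁)), min 1 (1 / (432 * (Pn * (D * (D + 1))) + 1)), by positivity,
    fun ε hε hε₀ l A hl hDl hA h3 h4 => ?_⟩
  have hε1 : ε ≤ 1 := hε₀.trans (min_le_left _ _)
  have hε2 : 432 * (Pn * (D * (D + 1))) * ε ^ 2 ≤ 1 := by
    have h := hε₀.trans (min_le_right _ _)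
    rw [le_div_iff₀ (by positivity)] at h
    have h0 : 0 ≤ 432 * (Pn * (D * (D + 1))) := by positivity
    have : ε ^ 2 ≤ ε := by nlinarith
    nlinarith [mul_le_mul_of_nonneg_left this h0]
  have hl0 : (0 : ℝ) < l := by
    by_contra h
    push Not at h
    nlinarith
  have hL : (0 : ℝ) < l ^ 2 := by positivity
  obtain ⟨t₀, ht₀, hmax⟩ := (isCompact_Icc (a := (0:ℝ)) (b := l ^ 2)).exists_isMaxOn
    ⟨0, le_rfl, hL.le⟩ (f := fun t : ℝ => ∑ i ∈ X, ‖A i t‖)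
    (continuous_finsetSum _ fun i _ =>
      ((hA i).continuous.comp Complex.continuous_ofReal).norm).continuousOn
  set M := 1 + ∑ i ∈ X, ‖A i t₀‖ with hM
  have hS0 : 0 ≤ ∑ i ∈ X, ‖A i t₀‖ := by positivity
  set d := ⌈2 * ε * l⌉₊ with hd
  have d1 : 2 * ε * l ≤ d := Nat.le_ceil _
  have d2 : (d : ℝ) ≤ 3 * ε * l := by
    have := (Nat.ceil_lt_add_one (a := 2 * ε * l) (by positivity)).le
    linarith
  have d3 : 1 ≤ d := by
    have : (1 : ℝ) ≤ d := by linarith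
    exact_mod_cast this
  have d4 : Real.exp (ε * l) ≤ 2 ^ d := by
    rw [← Real.exp_log (show (0:ℝ) < 2 by norm_num), ← Real.exp_nat_mul]
    apply Real.exp_le_exp.2
    have := Real.log_two_gt_d9
    nlinarith
  have lip : ∀ i ∈ X, ∀ t ∈ Icc (0:ℝ) (l ^ 2), ∀ u ∈ Icc (0:ℝ) (l ^ 2),
      ‖A i t - A i u‖ ≤ 216 * ε ^ 2 * M * |t - u| := by
    intro i hi t ht u hu
    refine lip_real (hA i) (fun t ht => ?_) ht hu
    refine (markov (hA i) hL (M := M) (by linarith) d3 (fun t ht => ?_)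
      (fun z hz => (h3 i hi z hz).trans d4) ht).trans ?_
    · have a1 : ‖A i t‖ ≤ ∑ i ∈ X, ‖A i t‖ :=
        Finset.single_le_sum (f := fun i => ‖A i t‖) (fun _ _ => norm_nonneg _) hi
      have a2 : ∑ i ∈ X, ‖A i t‖ ≤ ∑ i ∈ X, ‖A i t₀‖ := hmax ht
      linarith
    · calc 24 * M * d ^ 2 / l ^ 2 ≤ 24 * M * (3 * ε * l) ^ 2 / l ^ 2 := by gcongr
        _ = _ := by field_simp; ring
  have hMb : M ≤ 2 * (1 + Pn * C₁) := by
    set n := min ⌊t₀⌋₊ (l ^ 2 - X.card) with hn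
    have a1 : (n : ℝ) ≤ t₀ := le_trans (by exact_mod_cast min_le_left _ _) (Nat.floor_le ht₀.1)
    have a2 : t₀ ≤ n + (D + 1) := by
      rcases min_choice ⌊t₀⌋₊ (l ^ 2 - X.card) with h | h
      · rw [hn, h]; linarith [Nat.lt_floor_add_one t₀]
      · rw [hn, h, Nat.cast_sub hDl]; push_cast; linarith [ht₀.2]
    have a3 := hv (fun i => A i t₀) n (C₁ + D * (216 * ε ^ 2 * M * (D + 1))) fun j hj => by
      have b1 : n + j ≤ l ^ 2 := by have := min_le_right ⌊t₀⌋₊ (l ^ 2 - X.card); omega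
      have b2 : ((n + j : ℕ) : ℝ) ∈ Icc (0:ℝ) (l ^ 2) := ⟨by positivity, by exact_mod_cast b1⟩
      have b3 : (j : ℝ) ≤ D := by rw [hD]; exact_mod_cast hj
      have b4 := sum_diff_le X hx (n + j) (u := fun i => A i t₀) (v := fun i => A i (n + j : ℕ))
        (E := 216 * ε ^ 2 * M * (D + 1)) fun i hi => by
          refine le_trans (by simpa using lip i hi t₀ ht₀ _ b2) ?_
          gcongr
          rw [abs_le]; constructor <;> linarith [(Nat.cast_nonneg j : (0:ℝ) ≤ j)]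
      linarith [h4 _ b1, norm_le_insert' (∑ i ∈ X, x i ^ (n + j) * A i t₀)
        (∑ i ∈ X, x i ^ (n + j) * A i (n + j : ℕ))]
    have a4 : Pn * (D * (216 * ε ^ 2 * M * (D + 1))) ≤ M / 2 := by
      calc _ = 432 * (Pn * (D * (D + 1))) * ε ^ 2 * (M / 2) := by ring
        _ ≤ 1 * (M / 2) := by gcongr
        _ = _ := one_mul _
    rw [mul_add] at a3
    linarith
  intro i hi n hn
  have := lip i hi n ⟨by positivity, by exact_mod_cast hn⟩ 0 ⟨le_rfl, hL.le⟩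
  simp only [ofReal_natCast, ofReal_zero, sub_zero, Nat.abs_cast] at this
  refine this.trans ?_
  calc 216 * ε ^ 2 * M * n ≤ 216 * ε ^ 2 * (2 * (1 + Pn * C₁)) * n := by gcongr
    _ = _ := by ring

theorem discrete {ι : Type*} (X : Finset ι) {x : ι → ℂ} (hinj : InjOn x X)
    (hx : ∀ i ∈ X, ‖x i‖ = 1) {l : ℕ → ℂ} {B b : ℝ} (hB : ∀ n, ‖l n‖ ≤ B) (hb : 0 < b)
    {A : ℕ → ι → ℂ → ℂ}
    (h1 : ∀ᶠ k : ℕ in atTop, (∀ i, Differentiable ℂ (A k i)) ∧
      (∀ n : ℕ, k ^ 2 ≤ n → n ≤ (k + 1) ^ 2 →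
        ‖l n - ∑ i ∈ X, x i ^ n * A k i n‖ ≤ Real.exp (-(b * k))) ∧
      ∀ i ∈ X, ∀ ξ : ℂ, ‖ξ‖ ≤ ((k : ℝ) + 1) ^ 2 → ‖A (k + 1) i ξ - A k i ξ‖ ≤ Real.exp (-(b * k)))
    (h3 : ∀ ε : ℝ, 0 < ε → ∀ᶠ k : ℕ in atTop, ∀ i ∈ X, ∀ ξ : ℂ, ‖ξ‖ ≤ 2 * (k : ℝ) ^ 2 →
      ‖A k i ξ‖ ≤ Real.exp (ε * k)) :
    ∃ (a : ι → ℂ) (C : ℝ), ∀ n : ℕ,
      ‖l n - ∑ i ∈ X, x i ^ n * a i‖ ≤ C * Real.exp (-b * Real.sqrt n) := by
  obtain ⟨k₀, hk₀⟩ := eventually_atTop.1 h1
  have hq : Real.exp (-b) < 1 := Real.exp_lt_one_iff.2 (by linarith)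
  obtain ⟨G, hG⟩ : ∃ G : ℝ, G = 1 / (1 - Real.exp (-b)) := ⟨_, rfl⟩
  have hG0 : 0 < G := by rw [hG]; exact one_div_pos.2 (by linarith)
  have hle1 : ∀ k : ℕ, Real.exp (-(b * k)) ≤ 1 := fun k =>
    Real.exp_le_one_iff.2 (by simp; positivity)
  have tel : ∀ k, k₀ ≤ k → ∀ j, k ≤ j → ∀ i ∈ X, ∀ ξ : ℂ, ‖ξ‖ ≤ ((k : ℝ) + 1) ^ 2 →
      ‖A j i ξ - A k i ξ‖ ≤ G * Real.exp (-(b * k)) := by
    intro k hk j hj i hi ξ hξ
    have key : ‖A j i ξ - A k i ξ‖ ≤ G * (Real.exp (-(b * k)) - Real.exp (-(b * j))) := by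
      induction j, hj using Nat.le_induction with
      | base => simp
      | succ j hj ih =>
        have a0 : (k : ℝ) ≤ j := by exact_mod_cast hj
        have a1 := (hk₀ j (hk.trans hj)).2.2 i hi ξ (hξ.trans (by gcongr))
        have a2 := norm_sub_le_norm_sub_add_norm_sub (A (j + 1) i ξ) (A j i ξ) (A k i ξ)
        have a3 : G * (Real.exp (-(b * j)) - Real.exp (-(b * (j + 1 : ℕ)))) =
            Real.exp (-(b * j)) := by
          have : 1 - Real.exp (-b) ≠ 0 := by linarith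
          push_cast
          rw [mul_add, neg_add, Real.exp_add, hG, mul_one]
          field_simp
        linarith
    refine key.trans ?_
    gcongr
    linarith [Real.exp_pos (-(b * j))]
  obtain ⟨C₁, hC₁, hU⟩ : ∃ C₁ : ℝ, 0 ≤ C₁ ∧ ∀ j, k₀ ≤ j → ∀ m : ℕ, m ≤ j ^ 2 →
      ‖∑ i ∈ X, x i ^ m * A j i m‖ ≤ C₁ := by
    have hB0 : 0 ≤ B := (norm_nonneg _).trans (hB 0)
    refine ⟨(∑ m ∈ Finset.range (k₀ ^ 2), ‖∑ i ∈ X, x i ^ m * A k₀ i m‖) + B + 1 + X.card * G,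
      by positivity, fun j hj m hm => ?_⟩
    have a0 : 0 ≤ ∑ m ∈ Finset.range (k₀ ^ 2), ‖∑ i ∈ X, x i ^ m * A k₀ i m‖ := by positivity
    have step : ∀ k, k₀ ≤ k → k ≤ j → m ≤ (k + 1) ^ 2 →
        ‖∑ i ∈ X, x i ^ m * A j i m‖ ≤ ‖∑ i ∈ X, x i ^ m * A k i m‖ + X.card * G := by
      intro k b1 b2 b3
      have b4 := sum_diff_le X hx m (u := fun i => A j i m) (v := fun i => A k i m) (E := G)
        fun i hi => (tel k b1 j b2 i hi m (by rw [Complex.norm_natCast]; exact_mod_cast b3)).trans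
          (mul_le_of_le_one_right hG0.le (hle1 k))
      linarith [norm_le_insert' (∑ i ∈ X, x i ^ m * A j i m) (∑ i ∈ X, x i ^ m * A k i m)]
    by_cases hm' : m < k₀ ^ 2
    · have a1 := step k₀ le_rfl hj (by nlinarith)
      have a2 := Finset.single_le_sum (f := fun m : ℕ => ‖∑ i ∈ X, x i ^ m * A k₀ i m‖)
        (fun _ _ => norm_nonneg _) (Finset.mem_range.2 hm')
      linarith
    · push Not at hm'
      have b1 : k₀ ≤ Nat.sqrt m := Nat.le_sqrt'.2 hm'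
      have b2 : Nat.sqrt m ≤ j := by
        have := Nat.sqrt_le_sqrt hm
        rwa [Nat.sqrt_eq'] at this
      have b3 : m ≤ (Nat.sqrt m + 1) ^ 2 := (Nat.lt_succ_sqrt' m).le
      have a1 := step _ b1 b2 b3
      have a2 := ((hk₀ _ b1).2.1 m (Nat.sqrt_le' m) b3).trans (hle1 _)
      linarith [hB m, norm_le_insert (l m) (∑ i ∈ X, x i ^ m * A (Nat.sqrt m) i m)]
  obtain ⟨M₀, ε₀, hε₀, hMk⟩ := markov_step X hinj hx hC₁
  have inc : ∀ (n : ℕ) (η : ℝ), 0 < η → ∀ᶠ j : ℕ in atTop, ∀ i ∈ X, ‖A j i n - A j i 0‖ ≤ η := by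
    intro n η hη
    have hc : ContinuousAt (fun ε : ℝ => M₀ * ε ^ 2 * n) 0 := by fun_prop
    have e1 := hc.eventually_lt continuousAt_const (by simpa using hη : M₀ * 0 ^ 2 * n < η)
    obtain ⟨ε, ⟨a1, a2⟩, a3⟩ := (((e1.and (ge_mem_nhds hε₀)).filter_mono
      (nhdsWithin_le_nhds (s := Ioi 0))).and self_mem_nhdsWithin).exists
    have a3 : 0 < ε := a3
    filter_upwards [h3 ε a3, eventually_ge_atTop k₀, eventually_ge_atTop (max X.card n),
      tendsto_natCast_atTop_atTop.eventually_ge_atTop (1 / ε)] with j b1 b2 b3 b4 i hi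
    rw [div_le_iff₀' a3] at b4
    have b5 : j ≤ j ^ 2 := Nat.le_self_pow (by norm_num) j
    exact (hMk ε a3 a2 j (A j) b4 ((le_max_left _ _).trans (b3.trans b5)) (hk₀ j b2).1 b1
      (hU j b2) i hi n ((le_max_right _ _).trans (b3.trans b5))).trans a1.le
  have lim : ∀ i, ∃ a : ℂ, i ∈ X → Tendsto (fun j => A j i 0) atTop (𝓝 a) := by
    intro i
    by_cases hi : i ∈ X
    · have hc : CauchySeq fun j => A (j + k₀) i 0 := by
        refine cauchySeq_of_le_geometric (Real.exp (-b)) 1 hq fun j => ?_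
        rw [dist_comm, dist_eq_norm, add_right_comm, one_mul, ← Real.exp_nat_mul]
        refine ((hk₀ (j + k₀) (by omega)).2.2 i hi 0 (by simp; positivity)).trans
          (Real.exp_le_exp.2 ?_)
        push_cast
        nlinarith [(Nat.cast_nonneg k₀ : (0:ℝ) ≤ k₀)]
      obtain ⟨a, ha⟩ := cauchySeq_tendsto_of_complete hc
      exact ⟨a, fun _ => (tendsto_add_atTop_iff_nat k₀).1 ha⟩
    · exact ⟨0, fun h => absurd h hi⟩
  choose a ha using lim
  have fin : ∀ k, k₀ ≤ k → ∀ n : ℕ, n ≤ (k + 1) ^ 2 → ∀ i ∈ X,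
      ‖A k i n - a i‖ ≤ G * Real.exp (-(b * k)) := by
    intro k hk n hn i hi
    refine le_of_forall_pos_le_add fun η hη => ?_
    refine le_of_tendsto ((tendsto_const_nhds.sub (ha i hi)).norm) ?_
    filter_upwards [inc n η hη, eventually_ge_atTop k] with j b1 b2
    have b3 := tel k hk j b2 i hi n (by rw [Complex.norm_natCast]; exact_mod_cast hn)
    rw [norm_sub_rev] at b3
    linarith [b1 i hi, norm_sub_le_norm_sub_add_norm_sub (A k i n) (A j i n) (A j i 0)]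
  have hB0 : 0 ≤ B := (norm_nonneg _).trans (hB 0)
  refine ⟨a, (1 + X.card * G) * Real.exp b + (B + ∑ i ∈ X, ‖a i‖) * Real.exp (b * k₀),
    fun n => ?_⟩
  rw [add_mul]
  by_cases hn : n < k₀ ^ 2
  · have a1 : ‖l n - ∑ i ∈ X, x i ^ n * a i‖ ≤ B + ∑ i ∈ X, ‖a i‖ := by
      refine (norm_sub_le _ _).trans (add_le_add (hB n) ((norm_sum_le _ _).trans
        (Finset.sum_le_sum fun i hi => ?_)))
      rw [norm_mul, norm_pow, hx i hi, one_pow, one_mul]
    have a2 : Real.sqrt n ≤ k₀ := Real.sqrt_le_iff.2 ⟨by positivity, by exact_mod_cast hn.le⟩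
    have a3 : 1 ≤ Real.exp (b * k₀) * Real.exp (-b * Real.sqrt n) := by
      rw [← Real.exp_add]; exact Real.one_le_exp (by nlinarith)
    have a4 : B + ∑ i ∈ X, ‖a i‖ ≤
        (B + ∑ i ∈ X, ‖a i‖) * Real.exp (b * k₀) * Real.exp (-b * Real.sqrt n) := by
      rw [mul_assoc]; exact le_mul_of_one_le_right (by positivity) a3
    have a5 : 0 ≤ (1 + X.card * G) * Real.exp b * Real.exp (-b * Real.sqrt n) := by positivity
    linarith
  · push Not at hn
    have b1 : k₀ ≤ Nat.sqrt n := Nat.le_sqrt'.2 hn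
    have b3 : n ≤ (Nat.sqrt n + 1) ^ 2 := (Nat.lt_succ_sqrt' n).le
    have a1 := (hk₀ _ b1).2.1 n (Nat.sqrt_le' n) b3
    have a2 := sum_diff_le X hx n (fin _ b1 n b3)
    have a3 : Real.sqrt n ≤ Nat.sqrt n + 1 :=
      Real.sqrt_le_iff.2 ⟨by positivity, by exact_mod_cast b3⟩
    have a4 : Real.exp (-(b * Nat.sqrt n)) ≤ Real.exp b * Real.exp (-b * Real.sqrt n) := by
      rw [← Real.exp_add]; exact Real.exp_le_exp.2 (by nlinarith)
    have a5 := norm_sub_le_norm_sub_add_norm_sub (l n) (∑ i ∈ X, x i ^ n * A (Nat.sqrt n) i n)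
      (∑ i ∈ X, x i ^ n * a i)
    have a6 : 0 ≤ (B + ∑ i ∈ X, ‖a i‖) * Real.exp (b * k₀) * Real.exp (-b * Real.sqrt n) := by
      positivity
    have a7 : (1 + X.card * G) * Real.exp (-(b * Nat.sqrt n)) ≤
        (1 + X.card * G) * (Real.exp b * Real.exp (-b * Real.sqrt n)) := by gcongr
    linarith

end Pool.Agent.Lib.MP_b4c8d9_an
end
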