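import Pool.Agent.Lib.MP_b4c8d9_an.Raw
import Pool.Agent.Lib.MP_b4c8d9_an.Discrete

-- part Pool.Agent.Lib.MP_b4c8d9_an.Repr
section

/-! Choice of the parameters and the asymptotic form of the estimates on the local symbols. -/

namespace Pool.Agent.Lib.MP_b4c8d9_an

open Complex Real Metric Set Filter Topology MeasureTheory

variable {lam : ℕ → ℂ}

lemma ev_small (c : ℝ) {δ : ℝ} (hδ : 0 < δ) : ∀ᶠ k : ℕ in atTop, c / k < δ :=
  (tendsto_const_div_atTop_nhds_zero_nat c).eventually (gt_mem_nhds hδ)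

lemma ev_poly (C : ℝ) {c : ℝ} (hc : 0 < c) :
    ∀ᶠ k : ℕ in atTop, C * (k : ℝ) ^ 2 ≤ Real.exp (c * k) := by
  filter_upwards [tendsto_natCast_atTop_atTop.eventually_ge_atTop (6 * |C| / c ^ 3)] with k hk
  have h := Real.pow_div_factorial_le_exp (c * k) (by positivity) 3
  rw [div_le_iff₀ (by positivity)] at hk
  refine le_trans ?_ h
  have e : (c * k) ^ 3 / (Nat.factorial 3 : ℕ) = (k * c ^ 3) / 6 * k ^ 2 := by
    simp [Nat.factorial]; ring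
  rw [e]
  gcongr
  linarith [le_abs_self C]

lemma Good.mono {α ℓ ℓ' : ℝ} {a : ℂ} (h : Good lam α ℓ a) (hl : ℓ ≤ ℓ') : Good lam α ℓ' a :=
  fun f hf => (h f hf).trans (Real.exp_le_exp.2 hl)

structure Hyp (lam : ℕ → ℂ) (b B Lm ϑ₀ s₀ μ : ℝ) : Prop where
  hK : HK lam
  hB : ∀ n, ‖lam n‖ ≤ B
  hb : 0 < b
  hL : 1 ≤ Lm
  hs : 0 < s₀
  hst : s₀ ≤ ϑ₀
  hx : Lm * ϑ₀ ≤ b / 20
  hm : 0 < μ
  hmb : μ ≤ b / 16
  hsb : s₀ ≤ b / 16
  loc : ∀ e : ℝ, 0 < e → ∀ θ : ℝ, ∃ δ' : ℝ, 0 < δ' ∧ ∀ τ : ℂ, 0 < τ.re → ‖τ‖ < δ' →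
    ϑ₀ / (s₀ * e ^ 2) * τ.re ≤ ‖τ‖ →
    Good lam (200000 * b ^ 2) (μ * s₀ * e ^ 4 / τ.re) (cexp (-(θ * I + τ)))
  df : ∀ e : ℝ, 0 < e → e ≤ 1 → ∃ C : ℝ, 0 < C ∧ ∀ θ : ℝ, ∀ᶠ k : ℕ in atTop, ∀ u : ℂ,
    ‖u‖ ≤ Real.exp (-(Lm * (ϑ₀ * e / k))) →
    ‖Df lam (200000 * b ^ 2) θ (s₀ * e ^ 3 / k) (ϑ₀ * e / k) u‖ ≤
      Real.exp (Real.log (C * k ^ 2) + μ * k - 200000 * b ^ 2 / 1000 * P u)

lemma good_of_loc {α ϑ₀ s₀ μ e θ δ' m : ℝ} (hm : 0 < m) (h0 : 0 ≤ μ * s₀ * e ^ 4)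
    (h : ∀ τ : ℂ, 0 < τ.re → ‖τ‖ < δ' → ϑ₀ / (s₀ * e ^ 2) * τ.re ≤ ‖τ‖ →
      Good lam α (μ * s₀ * e ^ 4 / τ.re) (cexp (-(θ * I + τ)))) {c : ℂ} (h1 : m ≤ c.re)
    (h2 : c.re + |c.im - θ| < δ') (h3 : ϑ₀ / (s₀ * e ^ 2) * c.re ≤ |c.im - θ|) :
    Good lam α (μ * s₀ * e ^ 4 / m) (cexp (-c)) := by
  have a1 : (c - θ * I).re = c.re := by simp
  have a2 : (c - θ * I).im = c.im - θ := by simp
  have := h (c - θ * I) (by rw [a1]; linarith)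
    ((norm_le_re_im (a := c.re) (b := |c.im - θ|) (by rw [a1, abs_of_pos (by linarith)])
      (by rw [a2])).trans_lt h2)
    (by rw [a1]; exact h3.trans (a2 ▸ Complex.abs_im_le_norm _))
  rw [add_sub_cancel, a1] at this
  exact this.mono (by gcongr)

theorem exists_hyp (h : IsMult lam) {b : ℝ} (hb : 0 < b) :
    ∃ B Lm ϑ₀ s₀ μ : ℝ, Hyp lam b B Lm ϑ₀ s₀ μ := by
  have hK := h.hk
  have hα : 0 < 200000 * b ^ 2 := by positivity
  obtain ⟨δ, hδ, M, hM, hU⟩ := unif h hα.le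
  obtain ⟨N, hN⟩ := exists_nat_ge (max 4 (max (48 * (2 * (8 * M + 1) / δ)) (200000 * b ^ 2 / δ)))
  have hN1 : (4 : ℝ) ≤ N := (le_max_left _ _).trans hN
  have hN2 : 48 * (2 * (8 * M + 1) / δ) ≤ N := ((le_max_left _ _).trans (le_max_right _ _)).trans hN
  have hN3 : 200000 * b ^ 2 / δ ≤ N := ((le_max_right _ _).trans (le_max_right _ _)).trans hN
  have hN4 : 4 ≤ N := by exact_mod_cast hN1
  have hN0 : (0 : ℝ) < N := by linarith
  obtain ⟨γ, hγ, hQ⟩ := q2 hK hM hU (β := 200000 * b ^ 2 / N ^ 2) (by positivity) (by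
    rw [div_le_iff₀ hδ] at hN3
    rw [div_le_iff₀ (by positivity)]
    nlinarith [mul_pos hδ hN0])
  obtain ⟨Lm, hLm⟩ : ∃ Lm : ℝ, Lm = N ^ N * (8 / N) := ⟨_, rfl⟩
  have hL : 1 ≤ Lm := by
    have : (N : ℝ) ≤ N ^ N := le_self_pow₀ (by linarith) (by omega)
    calc (1 : ℝ) ≤ N * (8 / N) := by field_simp; norm_num
      _ ≤ _ := by rw [hLm]; gcongr
  obtain ⟨ϑ₀, hϑ₀⟩ : ∃ ϑ₀ : ℝ, ϑ₀ = b / (20 * Lm) := ⟨_, rfl⟩
  have hϑ : 0 < ϑ₀ := by rw [hϑ₀]; positivity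
  obtain ⟨s₀, hs0, hs1, hs2, hs3, hs4, hs5⟩ : ∃ s₀ : ℝ, 0 < s₀ ∧ s₀ ≤ ϑ₀ ∧ s₀ ≤ b / 16 ∧
      s₀ ≤ b / 16 * ϑ₀ ^ 2 / (512 * M) ∧ s₀ ≤ 8 * ϑ₀ / N ∧ s₀ ≤ γ * (2 * ϑ₀) :=
    ⟨min ϑ₀ (min (b / 16) (min (b / 16 * ϑ₀ ^ 2 / (512 * M)) (min (8 * ϑ₀ / N) (γ * (2 * ϑ₀))))),
      by positivity, min_le_left _ _, by simp, by simp, by simp, by simp⟩
  have hloc : ∀ e : ℝ, 0 < e → ∀ θ : ℝ, ∃ δ' : ℝ, 0 < δ' ∧ ∀ τ : ℂ, 0 < τ.re → ‖τ‖ < δ' →
      ϑ₀ / (s₀ * e ^ 2) * τ.re ≤ ‖τ‖ →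
      Good lam (200000 * b ^ 2) (b / 16 * s₀ * e ^ 4 / τ.re) (cexp (-(θ * I + τ))) := by
    intro e he θ
    refine loc hK hδ.le hM hU (by positivity) (by positivity) ?_ θ
    rw [le_div_iff₀ (by positivity)] at hs3
    have : b / 16 * s₀ * e ^ 4 * (ϑ₀ / (s₀ * e ^ 2)) ^ 2 = b / 16 * ϑ₀ ^ 2 / s₀ := by field_simp
    rw [this, le_div_iff₀ hs0]; linarith
  refine ⟨Real.exp M, Lm, ϑ₀, s₀, b / 16, hK, lam_bound hK hα.le hδ.le hU, hb, hL, hs0, hs1,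
    by rw [hϑ₀]; field_simp; rfl, by positivity, le_rfl, hs2, hloc, fun e he he1 => ?_⟩
  refine ⟨16 * (200000 * b ^ 2 + 1) / (8 * (ϑ₀ * e) / N) ^ 2, by positivity, fun θ => ?_⟩
  obtain ⟨δ₁, hδ₁, h1⟩ := hloc e he θ
  obtain ⟨δ₂, hδ₂, h2⟩ := hQ θ
  filter_upwards [ev_small (Lm * (ϑ₀ * e)) (δ := min (1 / 3) (min (δ₁ / 2) δ₂)) (by positivity),
    eventually_ge_atTop 1] with k hk hk1 u hu
  have hk0 : (0 : ℝ) < k := by exact_mod_cast hk1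
  have ex : (N : ℝ) ^ N * (8 * (ϑ₀ * e / k) / N) = Lm * (ϑ₀ * e / k) := by rw [hLm]; ring
  rw [mul_div_assoc, lt_min_iff, lt_min_iff] at hk
  have he3 : e ^ 3 ≤ e := pow_le_of_le_one he.le he1 (by norm_num)
  have a1 : ϑ₀ * e / k ≤ Lm * (ϑ₀ * e / k) := le_mul_of_one_le_left (by positivity) hL
  have a2 : s₀ * e ^ 3 / k ≤ ϑ₀ * e / k := by gcongr
  refine dstep hK (ℓ := b / 16 * k) hα hN4 hN2 (by positivity) ?_ (by rw [ex]; exact hk.1.le) ?_ ?_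
    ?_ (by positivity) (by rwa [ex])
  · calc s₀ * e ^ 3 / k ≤ 8 * ϑ₀ / N * e / k := by gcongr
      _ = _ := by ring
  · intro v hv1 hv2
    rw [ex] at hv2
    refine (good_of_loc (m := s₀ * e ^ 3 / k) (by positivity) (by positivity) h1 (c := bp θ _ v)
      (by simp) (by simp; linarith [hk.2.1]) ?_).mono ?_
    · simp only [bp_re, bp_im, add_sub_cancel_left]
      refine le_trans (le_of_eq ?_) hv1
      field_simp
    · calc b / 16 * s₀ * e ^ 4 / (s₀ * e ^ 3 / k) = b / 16 * k * e := by field_simp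
        _ ≤ _ := mul_le_of_le_one_right (by positivity) he1
  · intro y hy1 hy2
    rw [ex] at hy2
    refine h2 y _ (lt_of_lt_of_le (by positivity) hy1) (by linarith [hk.2.2]) (by positivity) ?_
    calc s₀ * e ^ 3 / k ≤ γ * (2 * ϑ₀) * e / k := by gcongr
      _ = γ * (2 * (ϑ₀ * e / k)) := by ring
      _ ≤ _ := by gcongr
  · rw [Real.exp_add, Real.exp_log (by positivity)]
    apply le_of_eq
    field_simp

variable {b B Lm ϑ₀ s₀ μ : ℝ}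

noncomputable def Sk (lam : ℕ → ℂ) (b Lm ϑ₀ s₀ θ e : ℝ) (k : ℕ) (ξ : ℂ) : ℂ :=
  Sy lam (200000 * b ^ 2) θ (s₀ * e ^ 3 / k) (ϑ₀ * e / k) (Lm * (ϑ₀ * e / k)) ξ

lemma Cm_le {B α m ℓ : ℝ} (hB : 0 ≤ B) (hm : 0 < m) (hℓ : 0 ≤ ℓ) :
    Cm B α m ℓ ≤ (64 * B + 19 * 8 * 128 ^ 2 * α) / m ^ 2 * Real.exp ℓ := by
  have h1 : 64 * B / m ^ 2 ≤ 64 * B / m ^ 2 * Real.exp ℓ :=
    le_mul_of_one_le_right (by positivity) (Real.one_le_exp hℓ)
  have e : (64 * B + 19 * 8 * 128 ^ 2 * α) / m ^ 2 * Real.exp ℓ =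
      64 * B / m ^ 2 * Real.exp ℓ + 19 * (8 * α / (m / 128) ^ 2 * Real.exp ℓ) := by
    field_simp
  rw [e, Cm]; linarith

lemma Hyp.xle (H : Hyp lam b B Lm ϑ₀ s₀ μ) {e k : ℝ} (he1 : e ≤ 1) (hk : 0 < k) :
    Lm * (ϑ₀ * e / k) ≤ b / 20 * e / k ∧ b / 20 * e / k ≤ b / 20 / k ∨ e < 0 := by
  by_cases he : e < 0
  · exact Or.inr he
  push Not at he
  have := H.hx
  have := H.hb
  refine Or.inl ⟨?_, ?_⟩
  · calc Lm * (ϑ₀ * e / k) = Lm * ϑ₀ * e / k := by ring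
      _ ≤ _ := by gcongr
  · gcongr; exact mul_le_of_le_one_right (by positivity) he1

lemma Hyp.cmp (H : Hyp lam b B Lm ϑ₀ s₀ μ) {e e' : ℝ} (he : 0 < e) (he1 : e ≤ 1) (h1 : e / 2 ≤ e')
    (h2 : e' ≤ e) (θ : ℝ) :
    ∀ᶠ k : ℕ in atTop, ∀ k' : ℕ, k ≤ k' → k' ≤ 2 * k → ∀ ξ : ℂ, ‖ξ‖ ≤ 4 * (k : ℝ) ^ 2 →
      ‖Sk lam b Lm ϑ₀ s₀ θ e' k' ξ - Sk lam b Lm ϑ₀ s₀ θ e k ξ‖ ≤ Real.exp (-(b * k)) := by
  have he' : 0 < e' := by linarith
  have hb := H.hb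
  have hs := H.hs
  have hst := H.hst
  have hL := H.hL
  have hμ := H.hm
  have hμb := H.hmb
  have hϑ : 0 < ϑ₀ := hs.trans_le hst
  have hB0 : 0 ≤ B := (norm_nonneg _).trans (H.hB 0)
  obtain ⟨C, hC, hD⟩ := H.df e' he' (h2.trans he1)
  obtain ⟨δ₁, hδ₁, hl⟩ := H.loc e he θ
  filter_upwards [eventually_forall_ge_atTop.2 (hD θ), eventually_ge_atTop 1,
    ev_small (Lm * (ϑ₀ * e)) (δ := min (1 / 3) (δ₁ / 2)) (by positivity),
    ev_poly (36 * (4 * C) + 2 * ((64 * B + 19 * 8 * 128 ^ 2 * (200000 * b ^ 2)) /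
      (s₀ * e ^ 3 / 16) ^ 2)) (c := 4 * b) (by positivity)] with k hk1 hk2 hk3 hk4 k' a1 a2 ξ hξ
  have hk0 : (0 : ℝ) < k := by exact_mod_cast hk2
  have b1 : (k : ℝ) ≤ k' := by exact_mod_cast a1
  have b2 : (k' : ℝ) ≤ 2 * k := by exact_mod_cast a2
  have hk0' : (0 : ℝ) < k' := hk0.trans_le b1
  rw [mul_div_assoc, lt_min_iff] at hk3
  have he3 : e ^ 3 ≤ e := pow_le_of_le_one he.le he1 (by norm_num)
  have c1 : ϑ₀ * e / k ≤ Lm * (ϑ₀ * e / k) := le_mul_of_one_le_left (by positivity) hL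
  have c2 : s₀ * e ^ 3 / k ≤ ϑ₀ * e / k := by gcongr
  have c3 : ϑ₀ * e' / k' ≤ ϑ₀ * e / k := by gcongr
  have c4 : s₀ * e' ^ 3 / k' ≤ s₀ * e ^ 3 / k := by gcongr
  have c5 : s₀ * e ^ 3 / 16 / k ≤ s₀ * e' ^ 3 / k' := by
    calc s₀ * e ^ 3 / 16 / k = s₀ * (e / 2) ^ 3 / (2 * k) := by field_simp; norm_num
      _ ≤ _ := by gcongr
  have h := Sy_cmp H.hK (b := b) (ℓ := b * k) (θ := θ) (s := s₀ * e ^ 3 / k) (ϑ := ϑ₀ * e / k)
    (x := Lm * (ϑ₀ * e / k)) (m := s₀ * e ^ 3 / 16 / k) (L := ϑ₀ / (s₀ * e ^ 2)) H.hB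
    (by positivity) (by positivity) (c5.trans c4) c5 (c2.trans c1) (c4.trans (c2.trans c1)) c1
    (c3.trans c1) (le_of_eq (by field_simp)) ?_ (by positivity) (by gcongr) hk3.1.le ?_
    (hk1 k' a1) ξ
  · refine h.trans ?_
    obtain ⟨d1, d2⟩ := (H.xle he1 hk0).resolve_right (not_lt.2 he.le)
    have d3 := d1.trans d2
    have d4 : ‖ξ‖ * (20 * (Lm * (ϑ₀ * e / k))) ≤ 4 * (b * k) := by
      calc _ ≤ 4 * (k : ℝ) ^ 2 * (20 * (b / 20 / k)) := by gcongr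
        _ = _ := by field_simp
    have d5 : 10 * (b * k) ≤ b ^ 2 / (2 * (Lm * (ϑ₀ * e / k))) := by
      calc 10 * (b * k) = b ^ 2 / (2 * (b / 20 / k)) := by field_simp; norm_num
        _ ≤ _ := by gcongr
    have d6 : Real.exp (Real.log (C * k' ^ 2) + μ * k') ≤ 4 * C * k ^ 2 * Real.exp (b * k) := by
      rw [Real.exp_add, Real.exp_log (by positivity)]
      have : μ * k' ≤ b * k := by nlinarith
      calc C * k' ^ 2 * Real.exp (μ * k') ≤ C * (2 * k) ^ 2 * Real.exp (b * k) := by gcongr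
        _ = _ := by ring
    have d7 := Cm_le (α := 200000 * b ^ 2) (m := s₀ * e ^ 3 / 16 / k) (ℓ := b * k) hB0
      (by positivity) (by positivity)
    rw [div_pow (s₀ * e ^ 3 / 16), div_div_eq_mul_div, mul_div_right_comm _ ((k : ℝ) ^ 2)] at d7
    calc _ ≤ Real.exp (-(6 * (b * k))) * (36 * (4 * C * k ^ 2 * Real.exp (b * k)) +
          2 * ((64 * B + 19 * 8 * 128 ^ 2 * (200000 * b ^ 2)) / (s₀ * e ^ 3 / 16) ^ 2 * k ^ 2 *
            Real.exp (b * k))) := by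
          gcongr
          · unfold Cm; positivity
          · linarith
      _ = Real.exp (-(6 * (b * k))) * Real.exp (b * k) * ((36 * (4 * C) + 2 * ((64 * B +
          19 * 8 * 128 ^ 2 * (200000 * b ^ 2)) / (s₀ * e ^ 3 / 16) ^ 2)) * k ^ 2) := by ring
      _ ≤ Real.exp (-(6 * (b * k))) * Real.exp (b * k) * Real.exp (4 * b * k) := by gcongr
      _ = _ := by rw [← Real.exp_add, ← Real.exp_add]; congr 1; ring
  · calc ϑ₀ / (s₀ * e ^ 2) * (s₀ * e' ^ 3 / k') = ϑ₀ * e' / k' * (e' / e) ^ 2 := by field_simp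
      _ ≤ _ := mul_le_of_le_one_right (by positivity)
          (pow_le_one₀ (by positivity) ((div_le_one he).2 h2))
  · intro c d1 d2 d3 d4
    refine (good_of_loc (by positivity) (by positivity) hl d1 (by linarith [hk3.2]) d3).mono ?_
    calc μ * s₀ * e ^ 4 / (s₀ * e ^ 3 / 16 / k) = 16 * μ * k * e := by field_simp
      _ ≤ 16 * μ * k := mul_le_of_le_one_right (by positivity) he1
      _ ≤ _ := by gcongr; linarith

lemma Hyp.bnd (H : Hyp lam b B Lm ϑ₀ s₀ μ) {e ε : ℝ} (he : 0 < e) (he1 : e ≤ 1) (hε : 0 < ε)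
    (θ : ℝ) : ∀ᶠ k : ℕ in atTop, ∀ ξ : ℂ, ‖ξ‖ ≤ 2 * (k : ℝ) ^ 2 →
      ‖Sk lam b Lm ϑ₀ s₀ θ e k ξ‖ ≤ Real.exp ((b * e + ε) * k) := by
  have hb := H.hb
  have hs := H.hs
  have hst := H.hst
  have hL := H.hL
  have hμ := H.hm
  have hμb := H.hmb
  have hϑ : 0 < ϑ₀ := hs.trans_le hst
  have hB0 : 0 ≤ B := (norm_nonneg _).trans (H.hB 0)
  obtain ⟨δ₁, hδ₁, hl⟩ := H.loc e he θ
  filter_upwards [eventually_ge_atTop 1,
    ev_small (Lm * (ϑ₀ * e)) (δ := min (1 / 3) (δ₁ / 2)) (by positivity),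
    ev_poly ((4 * B + 1024) / (s₀ * e ^ 3)) hε] with k hk2 hk3 hk4 ξ hξ
  have hk1 : (1 : ℝ) ≤ k := by exact_mod_cast hk2
  have hk0 : (0 : ℝ) < k := by linarith
  rw [mul_div_assoc, lt_min_iff] at hk3
  have he3 : e ^ 3 ≤ e := pow_le_of_le_one he.le he1 (by norm_num)
  have c1 : ϑ₀ * e / k ≤ Lm * (ϑ₀ * e / k) := le_mul_of_one_le_left (by positivity) hL
  have c2 : s₀ * e ^ 3 / k ≤ ϑ₀ * e / k := by gcongr
  have h := Sy_bound H.hK (α := 200000 * b ^ 2) (θ := θ) (ℓ := μ * s₀ * e ^ 4 / (s₀ * e ^ 3 / k))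
    H.hB (by positivity) (by positivity) c2 c1 hk3.1.le (fun v hv =>
      good_of_loc (by positivity) (by positivity) hl (by simp)
        (by simp only [bp_re, bp_im, add_sub_cancel_left, hv]; linarith [hk3.2])
        (by simp only [bp_re, bp_im, add_sub_cancel_left, hv]; exact le_of_eq (by field_simp))) ξ
  refine h.trans ?_
  obtain ⟨d1, -⟩ := (H.xle he1 hk0).resolve_right (not_lt.2 he.le)
  have d2 : ‖ξ‖ * (2 * (Lm * (ϑ₀ * e / k))) ≤ b * e * k / 5 := by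
    calc _ ≤ 2 * (k : ℝ) ^ 2 * (2 * (b / 20 * e / k)) := by gcongr
      _ = _ := by field_simp; norm_num
  have d3 : μ * s₀ * e ^ 4 / (s₀ * e ^ 3 / k) ≤ b * e * k / 16 := by
    calc μ * s₀ * e ^ 4 / (s₀ * e ^ 3 / k) = μ * e * k := by field_simp
      _ ≤ b / 16 * e * k := by gcongr
      _ = _ := by ring
  have d4 : 1 ≤ Real.exp (b * e * k / 16) := Real.one_le_exp (by positivity)
  have d5 : 0 ≤ b * e * k := by positivity
  calc _ ≤ Real.exp (b * e * k / 5) * (4 * B / (s₀ * e ^ 3 / k) * Real.exp (b * e * k / 16) +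
        1024 / (s₀ * e ^ 3 / k) * Real.exp (b * e * k / 16)) := by
        gcongr
        exact le_mul_of_one_le_right (by positivity) d4
    _ = Real.exp (b * e * k / 5) * Real.exp (b * e * k / 16) *
        ((4 * B + 1024) / (s₀ * e ^ 3) * k) := by field_simp
    _ ≤ Real.exp (b * e * k / 5) * Real.exp (b * e * k / 16) *
        ((4 * B + 1024) / (s₀ * e ^ 3) * k ^ 2) := by gcongr; nlinarith
    _ ≤ Real.exp (b * e * k / 5) * Real.exp (b * e * k / 16) * Real.exp (ε * k) := by gcongr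
    _ ≤ _ := by
        rw [← Real.exp_add, ← Real.exp_add]
        exact Real.exp_le_exp.2 (by nlinarith)

lemma Hyp.a3 (H : Hyp lam b B Lm ϑ₀ s₀ μ) {ε : ℝ} (hε : 0 < ε) (θ : ℝ) :
    ∀ᶠ k : ℕ in atTop, ∀ ξ : ℂ, ‖ξ‖ ≤ 2 * (k : ℝ) ^ 2 →
      ‖Sk lam b Lm ϑ₀ s₀ θ 1 k ξ‖ ≤ Real.exp (ε * k) := by
  have hb := H.hb
  have key : ∀ j : ℕ, ∀ᶠ k : ℕ in atTop, ∀ ξ : ℂ, ‖ξ‖ ≤ 2 * (k : ℝ) ^ 2 →
      ‖Sk lam b Lm ϑ₀ s₀ θ ((1 / 2) ^ j) k ξ - Sk lam b Lm ϑ₀ s₀ θ 1 k ξ‖ ≤ j := by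
    intro j
    induction j with
    | zero => exact Eventually.of_forall fun k ξ _ => by simp
    | succ j ih =>
      filter_upwards [ih, H.cmp (e := (1 / 2) ^ j) (e' := (1 / 2) ^ (j + 1)) (by positivity)
        (pow_le_one₀ (by norm_num) (by norm_num)) (le_of_eq (by ring))
        (pow_le_pow_of_le_one (by norm_num) (by norm_num) (by omega)) θ] with k h1 h2 ξ hξ
      have h3 := h2 k le_rfl (by omega) ξ (by nlinarith [sq_nonneg (k : ℝ)])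
      have h4 : Real.exp (-(b * k)) ≤ 1 := Real.exp_le_one_iff.2 (by simp; positivity)
      have h5 := norm_sub_le_norm_sub_add_norm_sub (Sk lam b Lm ϑ₀ s₀ θ ((1 / 2) ^ (j + 1)) k ξ)
        (Sk lam b Lm ϑ₀ s₀ θ ((1 / 2) ^ j) k ξ) (Sk lam b Lm ϑ₀ s₀ θ 1 k ξ)
      push_cast
      linarith [h1 ξ hξ]
  obtain ⟨j, hj⟩ := exists_pow_lt_of_lt_one (x := ε / 4 / b) (y := (1 : ℝ) / 2) (by positivity)
    (by norm_num)
  rw [lt_div_iff₀ hb] at hj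
  filter_upwards [key j, H.bnd (e := (1 / 2) ^ j) (ε := ε / 4) (by positivity)
    (pow_le_one₀ (by norm_num) (by norm_num)) (by positivity) θ, ev_poly (j + 1) (half_pos hε),
    eventually_ge_atTop 1] with k h1 h2 h3 h4 ξ hξ
  have hk1 : (1 : ℝ) ≤ k := by exact_mod_cast h4
  have h5 := norm_le_insert (Sk lam b Lm ϑ₀ s₀ θ ((1 / 2) ^ j) k ξ) (Sk lam b Lm ϑ₀ s₀ θ 1 k ξ)
  have h6 : Real.exp ((b * (1 / 2) ^ j + ε / 4) * k) ≤ Real.exp (ε / 2 * k) := by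
    gcongr; linarith
  have h7 : 1 ≤ Real.exp (ε / 2 * k) := Real.one_le_exp (by positivity)
  have h8 : (j : ℝ) + 1 ≤ Real.exp (ε / 2 * k) := by
    refine le_trans (le_mul_of_one_le_right (by positivity) (by nlinarith)) h3
  have h9 : Real.exp (ε * k) = Real.exp (ε / 2 * k) * Real.exp (ε / 2 * k) := by
    rw [← Real.exp_add]; congr 1; ring
  have h10 := h1 ξ hξ
  have h11 := h2 ξ hξ
  rw [h9]
  nlinarith [(Nat.cast_nonneg j : (0 : ℝ) ≤ j)]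

end Pool.Agent.Lib.MP_b4c8d9_an
end

-- part Pool.Agent.Lib.MP_b4c8d9_an.Cover
section

/-! The finite singular set and the representation of the multiplier by local symbols. -/

namespace Pool.Agent.Lib.MP_b4c8d9_an

open Complex Real Metric Set Filter Topology MeasureTheory

variable {lam : ℕ → ℂ} {b B Lm ϑ₀ s₀ μ : ℝ}

lemma Hyp.cover (H : Hyp lam b B Lm ϑ₀ s₀ μ) (a c : ℝ) :
    ∃ Θ : Finset ℝ, (∀ θ ∈ Θ, θ ∈ Icc a c) ∧ ∀ᶠ k : ℕ in atTop, ∀ β ∈ Icc a c,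
      (∀ θ ∈ Θ, ϑ₀ * 1 / k ≤ |β - θ|) →
      Good lam (200000 * b ^ 2) (μ * k) (cexp (-bp 0 (s₀ * 1 ^ 3 / k) β)) := by
  have hs := H.hs
  have hμ := H.hm
  choose δ hδ hl using H.loc 1 one_pos
  obtain ⟨Θ, h1, h2⟩ := (isCompact_Icc (a := a) (b := c)).elim_nhds_subcover
    (fun θ => ball θ (δ θ / 2)) fun θ _ => ball_mem_nhds θ (half_pos (hδ θ))
  refine ⟨Θ, h1, ?_⟩
  filter_upwards [(Filter.eventually_all_finset Θ).2 fun θ _ =>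
    ev_small (s₀ * 1 ^ 3) (half_pos (hδ θ)), eventually_ge_atTop 1] with k hk hk1 β hβ hΘ
  have hk0 : (0 : ℝ) < k := by exact_mod_cast hk1
  obtain ⟨θ, hθ, h3⟩ := mem_iUnion₂.1 (h2 hβ)
  rw [mem_ball, Real.dist_eq] at h3
  refine (good_of_loc (m := s₀ * 1 ^ 3 / k) (by positivity) (by positivity) (hl θ) (by simp)
    (by simp only [bp_re, bp_im, zero_add]; linarith [hk θ hθ]) ?_).mono (le_of_eq ?_)
  · simp only [bp_re, bp_im, zero_add]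
    refine le_trans (le_of_eq ?_) (hΘ θ hθ)
    field_simp
  · field_simp

lemma bp_period (s β : ℝ) : cexp (-bp 0 s β) = cexp (-bp 0 s (β - 2 * π)) := by
  rw [Complex.exp_eq_exp_iff_exists_int]
  exact ⟨-1, by simp only [bp]; push_cast; ring⟩

lemma Hyp.a1 (H : Hyp lam b B Lm ϑ₀ s₀ μ) :
    ∃ Θ : Finset ℝ, InjOn (fun θ : ℝ => cexp (θ * I)) Θ ∧ ∀ᶠ k : ℕ in atTop, ∀ n : ℕ,
      k ^ 2 ≤ n → n ≤ (k + 1) ^ 2 →
      ‖2 * π * I * lam n - ∑ θ ∈ Θ, cexp (θ * I) ^ n * Sk lam b Lm ϑ₀ s₀ θ 1 k n‖ ≤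
        Real.exp (-(b * k)) := by
  have hb := H.hb
  have hs := H.hs
  have hst := H.hst
  have hL := H.hL
  have hμ := H.hm
  have hμb := H.hmb
  have hsb := H.hsb
  have hϑ : 0 < ϑ₀ := hs.trans_le hst
  have hB0 : 0 ≤ B := (norm_nonneg _).trans (H.hB 0)
  have hπ := Real.pi_pos
  obtain ⟨Θ₀, -, h0⟩ := H.cover 0 (2 * π)
  obtain ⟨β₀, hβ₀, hβ₁⟩ := (Set.Ioo_infinite (by positivity : (0:ℝ) < 2 * π)).exists_notMem_finset Θ₀
  obtain ⟨δ₀, hδ₀, d1, d2, d3⟩ : ∃ δ₀ : ℝ, 0 < δ₀ ∧ δ₀ ≤ β₀ ∧ δ₀ ≤ 2 * π - β₀ ∧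
      ∀ θ ∈ Θ₀, 2 * δ₀ ≤ |β₀ - θ| := by
    have e1 : ∀ᶠ δ : ℝ in 𝓝 0, ∀ θ ∈ Θ₀, δ ≤ |β₀ - θ| / 2 :=
      (Filter.eventually_all_finset Θ₀).2 fun θ hθ => ge_mem_nhds
        (half_pos (abs_pos.2 (sub_ne_zero.2 fun h => hβ₁ (h ▸ hθ))))
    have e2 : ∀ᶠ δ : ℝ in 𝓝 0, δ ≤ β₀ := ge_mem_nhds hβ₀.1
    have e3 : ∀ᶠ δ : ℝ in 𝓝 0, δ ≤ 2 * π - β₀ := ge_mem_nhds (by linarith [hβ₀.2])
    obtain ⟨δ, ⟨a1, a2, a3⟩, a4⟩ := (((e1.and (e2.and e3)).filter_mono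
      (nhdsWithin_le_nhds (s := Ioi 0))).and self_mem_nhdsWithin).exists
    exact ⟨δ, a4, a2, a3, fun θ hθ => by linarith [a1 θ hθ]⟩
  obtain ⟨Θ, h1, h2⟩ := H.cover (β₀ + δ₀) (β₀ + 2 * π - δ₀)
  refine ⟨Θ, ?_, ?_⟩
  · intro θ hθ θ' hθ' h
    obtain ⟨m, hm⟩ := Complex.exp_eq_exp_iff_exists_int.1 h
    have a1 := congrArg Complex.im hm
    simp at a1
    have a2 := h1 θ hθ
    have a3 := h1 θ' hθ'
    have a4 : (m : ℝ) < 1 := by nlinarith [a2.2, a3.1]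
    have a5 : (-1 : ℝ) < m := by nlinarith [a2.1, a3.2]
    have a6 : m < 1 := by exact_mod_cast a4
    have a7 : -1 < m := by exact_mod_cast a5
    obtain rfl : m = 0 := by omega
    simpa using a1
  obtain ⟨C, hC, hD⟩ := H.df 1 one_pos le_rfl
  have e4 : ∀ᶠ k : ℕ in atTop, ∀ θ ∈ Θ, ∀ θ' ∈ Θ, θ < θ' → ϑ₀ * 1 / k < (θ' - θ) / 2 := by
    refine (Filter.eventually_all_finset Θ).2 fun θ _ =>
      (Filter.eventually_all_finset Θ).2 fun θ' _ => ?_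
    by_cases h : θ < θ'
    · exact (ev_small _ (by linarith)).mono fun k hk _ => hk
    · exact Eventually.of_forall fun k h' => absurd h' h
  filter_upwards [h0, h2, e4, (Filter.eventually_all_finset Θ).2 fun θ _ => hD θ,
    eventually_ge_atTop 1, ev_small (Lm * (ϑ₀ * 1)) (δ := min (1 / 3) δ₀) (by positivity),
    ev_poly (2 * (7 * ((64 * B + 19 * 8 * 128 ^ 2 * (200000 * b ^ 2)) / (s₀ * 1 ^ 3) ^ 2) +
      Θ.card * (36 * C))) (half_pos hb), ev_poly 112 one_pos,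
    tendsto_natCast_atTop_atTop.eventually_ge_atTop (2 * b + 1)]
    with k k1 k2 k3 k4 k5 k6 k7 k8 k9 n n1 n2
  have hk1 : (1 : ℝ) ≤ k := by exact_mod_cast k5
  have hk0 : (0 : ℝ) < k := by linarith
  have n3 : (k : ℝ) ^ 2 ≤ n := by exact_mod_cast n1
  have n4 : (n : ℝ) ≤ 4 * k ^ 2 := by
    have : (n : ℝ) ≤ (k + 1) ^ 2 := by exact_mod_cast n2
    nlinarith
  rw [mul_div_assoc, lt_min_iff] at k6
  have c1 : ϑ₀ * 1 / k ≤ Lm * (ϑ₀ * 1 / k) := le_mul_of_one_le_left (by positivity) hL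
  have c2 : s₀ * 1 ^ 3 / k ≤ ϑ₀ * 1 / k := by gcongr; norm_num
  have near : ∀ β, |β - β₀| ≤ δ₀ →
      Good lam (200000 * b ^ 2) (μ * k) (cexp (-bp 0 (s₀ * 1 ^ 3 / k) β)) := by
    intro β hβ
    have a1 := abs_le.1 hβ
    refine k1 β ⟨by linarith, by linarith⟩ fun θ hθ => ?_
    have a2 := abs_sub_le β₀ β θ
    rw [abs_sub_comm β₀ β] at a2
    linarith [d3 θ hθ, k6.2]
  have h := Sy_repr H.hK (b := b) (k := k) (ℓ := μ * k) (β₀ := β₀) H.hB (by positivity) c2 c1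
    k6.1.le Θ (fun θ hθ => ⟨by linarith [(h1 θ hθ).1, k6.2], by linarith [(h1 θ hθ).2, k6.2]⟩)
    (fun θ hθ θ' hθ' h => by linarith [k3 θ hθ θ' hθ' h])
    (fun β hβ hΘ => by
      by_cases a1 : β ≤ β₀ + δ₀
      · exact near β (by rw [abs_le]; constructor <;> linarith [hβ.1])
      by_cases a2 : β₀ + 2 * π - δ₀ ≤ β
      · rw [bp_period]
        exact near _ (by rw [abs_le]; constructor <;> linarith [hβ.2])
      exact k2 β ⟨by linarith, by linarith⟩ hΘ) k4 n n3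
  refine h.trans ?_
  have d4 : (n : ℝ) * (s₀ * 1 ^ 3 / k) ≤ b * k / 4 := by
    calc (n : ℝ) * (s₀ * 1 ^ 3 / k) ≤ 4 * k ^ 2 * (b / 16 * 1 ^ 3 / k) := by gcongr
      _ = _ := by field_simp; norm_num
  have d5 : μ * k ≤ b * k / 16 := by nlinarith
  have d7 := Cm_le (α := 200000 * b ^ 2) (m := s₀ * 1 ^ 3 / k) (ℓ := μ * k) hB0
    (by positivity) (by positivity)
  rw [div_pow (s₀ * 1 ^ 3), div_div_eq_mul_div, mul_div_right_comm _ ((k : ℝ) ^ 2)] at d7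
  rw [Real.exp_add (Real.log _), Real.exp_log (by positivity)]
  have d8 : 0 ≤ b * k := by positivity
  have f1 : Real.exp (n * (s₀ * 1 ^ 3 / k) - 2 * b * k) *
      (7 * Cm B (200000 * b ^ 2) (s₀ * 1 ^ 3 / k) (μ * k) +
        Θ.card * (36 * (C * k ^ 2 * Real.exp (μ * k)))) ≤ Real.exp (-(b * k)) / 2 := by
    calc _ ≤ Real.exp (b * k / 4 - 2 * b * k) *
          (7 * ((64 * B + 19 * 8 * 128 ^ 2 * (200000 * b ^ 2)) / (s₀ * 1 ^ 3) ^ 2 * k ^ 2 *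
            Real.exp (μ * k)) + Θ.card * (36 * (C * k ^ 2 * Real.exp (μ * k)))) := by
          gcongr
          unfold Cm; positivity
      _ = Real.exp (b * k / 4 - 2 * b * k) * Real.exp (μ * k) *
          (2 * (7 * ((64 * B + 19 * 8 * 128 ^ 2 * (200000 * b ^ 2)) / (s₀ * 1 ^ 3) ^ 2) +
            Θ.card * (36 * C)) * k ^ 2) / 2 := by ring
      _ ≤ Real.exp (b * k / 4 - 2 * b * k) * Real.exp (b * k / 16) * Real.exp (b / 2 * k) / 2 := by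
          gcongr
      _ ≤ _ := by
          rw [← Real.exp_add, ← Real.exp_add]
          gcongr; linarith
  have f2 : 56 * Real.exp (μ * k - n) ≤ Real.exp (-(b * k)) / 2 := by
    have a1 : 112 ≤ Real.exp (1 * k) := le_trans (by nlinarith) k8
    have a2 : Real.exp (1 * k) * Real.exp (μ * k - n) ≤ Real.exp (-(b * k)) := by
      rw [← Real.exp_add]
      exact Real.exp_le_exp.2 (by nlinarith)
    nlinarith [Real.exp_pos (μ * k - n)]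
  linarith

theorem repr (h : IsMult lam) {b : ℝ} (hb : 0 < b) :
    ∃ (Θ : Finset ℝ) (A : ℕ → ℝ → ℂ → ℂ), InjOn (fun θ : ℝ => cexp (θ * I)) Θ ∧
      (∀ᶠ k : ℕ in atTop, (∀ θ, Differentiable ℂ (A k θ)) ∧
        (∀ n : ℕ, k ^ 2 ≤ n → n ≤ (k + 1) ^ 2 →
          ‖2 * π * I * lam n - ∑ θ ∈ Θ, cexp (θ * I) ^ n * A k θ n‖ ≤ Real.exp (-(b * k))) ∧
        ∀ θ ∈ Θ, ∀ ξ : ℂ, ‖ξ‖ ≤ ((k : ℝ) + 1) ^ 2 →
          ‖A (k + 1) θ ξ - A k θ ξ‖ ≤ Real.exp (-(b * k))) ∧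
      ∀ ε : ℝ, 0 < ε → ∀ᶠ k : ℕ in atTop, ∀ θ ∈ Θ, ∀ ξ : ℂ, ‖ξ‖ ≤ 2 * (k : ℝ) ^ 2 →
        ‖A k θ ξ‖ ≤ Real.exp (ε * k) := by
  obtain ⟨B, Lm, ϑ₀, s₀, μ, H⟩ := exists_hyp h hb
  obtain ⟨Θ, h1, h2⟩ := H.a1
  have hs := H.hs
  have hϑ : 0 < ϑ₀ := hs.trans_le H.hst
  have hL : 0 < Lm := by linarith [H.hL]
  refine ⟨Θ, fun k θ => Sk lam b Lm ϑ₀ s₀ θ 1 k, h1, ?_, fun ε hε =>
    (Filter.eventually_all_finset Θ).2 fun θ _ => H.a3 hε θ⟩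
  filter_upwards [h2, eventually_ge_atTop 1, (Filter.eventually_all_finset Θ).2 fun θ _ =>
    H.cmp one_pos le_rfl (by norm_num) le_rfl θ] with k k1 k2 k3
  have hk1 : (1 : ℝ) ≤ k := by exact_mod_cast k2
  refine ⟨fun θ => Sy_diff H.hK _ _ _ (by positivity) (by positivity), k1, fun θ hθ ξ hξ => ?_⟩
  exact k3 θ hθ (k + 1) (by omega) (by omega) ξ (by nlinarith)

end Pool.Agent.Lib.MP_b4c8d9_an
end

-- part Pool.Agent.Lib.MP_b4c8d9_an.Final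
section

/-! Necessity and sufficiency. -/

namespace Pool.Agent.Lib.MP_b4c8d9_an

open Complex Real Metric Set Filter Topology MeasureTheory

variable {lam : ℕ → ℂ}

lemma nec_one (h : IsMult lam) {b : ℝ} (hb : 0 < b) :
    ∃ (X : Finset ℂ) (c : ℂ → ℂ), (∀ x ∈ X, ‖x‖ = 1) ∧ ∃ C : ℝ, ∀ n : ℕ,
      ‖lam n - ∑ x ∈ X, c x * x ^ n‖ ≤ C * Real.exp (-b * Real.sqrt n) := by
  classical
  obtain ⟨Θ, A, h1, h2, h3⟩ := repr h hb
  obtain ⟨δ, hδ, M, -, hU⟩ := unif h le_rfl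
  have hB := lam_bound h.hk le_rfl hδ.le hU
  obtain ⟨a, C, hC⟩ := discrete Θ h1 (fun θ _ => Complex.norm_exp_ofReal_mul_I θ)
    (l := fun n => 2 * π * I * lam n) (B := ‖2 * π * I‖ * Real.exp M)
    (fun n => by rw [norm_mul]; gcongr; exact hB n) hb h2 h3
  refine ⟨Θ.image fun θ : ℝ => cexp (θ * I),
    fun x => ∑ θ ∈ Θ.filter fun θ : ℝ => cexp (θ * I) = x, (2 * π * I)⁻¹ * a θ, ?_, ‖(2 * π * I : ℂ)⁻¹‖ * C,
    fun n => ?_⟩
  · intro x hx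
    obtain ⟨θ, -, rfl⟩ := Finset.mem_image.1 hx
    exact Complex.norm_exp_ofReal_mul_I θ
  · have e : ∑ x ∈ Θ.image fun θ : ℝ => cexp (θ * I),
        (∑ θ ∈ Θ.filter fun θ : ℝ => cexp (θ * I) = x, (2 * π * I)⁻¹ * a θ) * x ^ n =
        ∑ θ ∈ Θ, (2 * π * I)⁻¹ * (cexp (θ * I) ^ n * a θ) := by
      rw [← Finset.sum_fiberwise_of_maps_to (s := Θ) (g := fun θ : ℝ => cexp (θ * I))
        (t := Θ.image fun θ : ℝ => cexp (θ * I)) fun θ hθ => Finset.mem_image_of_mem _ hθ]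
      refine Finset.sum_congr rfl fun x _ => ?_
      rw [Finset.sum_mul]
      refine Finset.sum_congr rfl fun θ hθ => ?_
      rw [(Finset.mem_filter.1 hθ).2]; ring
    have e2 : lam n = (2 * π * I)⁻¹ * (2 * π * I * lam n) := by
      rw [inv_mul_cancel_left₀ Complex.two_pi_I_ne_zero]
    rw [e, ← Finset.mul_sum, e2, ← mul_sub, norm_mul, mul_assoc _ C]
    gcongr
    exact hC n

lemma uniq {X Y : Finset ℂ} {c d : ℂ → ℂ} (hX : ∀ x ∈ X, ‖x‖ = 1) (hY : ∀ x ∈ Y, ‖x‖ = 1)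
    (h : Tendsto (fun n : ℕ => ∑ x ∈ X, c x * x ^ n - ∑ x ∈ Y, d x * x ^ n) atTop (𝓝 0)) (n : ℕ) :
    ∑ x ∈ X, c x * x ^ n = ∑ x ∈ Y, d x * x ^ n := by
  classical
  set v : ℂ → ℂ := fun x => (if x ∈ X then c x else 0) - if x ∈ Y then d x else 0 with hv
  have e : ∀ n : ℕ, ∑ x ∈ X ∪ Y, x ^ n * v x = ∑ x ∈ X, c x * x ^ n - ∑ x ∈ Y, d x * x ^ n := by
    intro n
    simp only [hv, mul_sub, mul_ite, mul_zero, Finset.sum_sub_distrib, Finset.sum_ite_mem,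
      Finset.union_inter_cancel_left, Finset.union_inter_cancel_right, mul_comm]
  obtain ⟨Pn, hPn, hP⟩ := vander (X ∪ Y) (x := fun x => x) (fun _ _ _ _ h => h)
    fun x hx => (Finset.mem_union.1 hx).elim (hX x) (hY x)
  have h0 : ∑ x ∈ X ∪ Y, ‖v x‖ ≤ 0 := by
    refine le_of_forall_pos_le_add fun η hη => ?_
    obtain ⟨N, hN⟩ := eventually_atTop.1
      ((tendsto_zero_iff_norm_tendsto_zero.1 h).eventually
        (ge_mem_nhds (by positivity : 0 < η / (Pn + 1))))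
    refine (hP v N (η / (Pn + 1)) fun j _ => by rw [e]; exact hN _ (by omega)).trans ?_
    rw [zero_add, ← mul_div_assoc, div_le_iff₀ (by positivity)]
    nlinarith
  have h1 := (Finset.sum_eq_zero_iff_of_nonneg fun x _ => norm_nonneg (v x)).1
    (le_antisymm h0 (by positivity))
  rw [← sub_eq_zero, ← e]
  exact Finset.sum_eq_zero fun x hx => by rw [norm_eq_zero.1 (h1 x hx), mul_zero]

lemma tendsto_exp_sqrt (C : ℝ) {b : ℝ} (hb : 0 < b) :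
    Tendsto (fun n : ℕ => C * Real.exp (-b * Real.sqrt n)) atTop (𝓝 0) := by
  have h := (Real.tendsto_exp_atBot.comp
    ((Real.tendsto_sqrt_atTop.comp tendsto_natCast_atTop_atTop).const_mul_atTop_of_neg
      (neg_lt_zero.2 hb))).const_mul C
  simpa using h

theorem necessity (h : IsMult lam) :
    ∃ (X : Finset ℂ) (c : ℂ → ℂ), (∀ x ∈ X, ‖x‖ = 1) ∧ ∀ b : ℝ, 0 < b → ∃ C : ℝ, ∀ n : ℕ,
      ‖lam n - ∑ x ∈ X, c x * x ^ n‖ ≤ C * Real.exp (-b * Real.sqrt n) := by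
  obtain ⟨X, c, hX, C₁, h1⟩ := nec_one h one_pos
  refine ⟨X, c, hX, fun b hb => ?_⟩
  obtain ⟨Y, d, hY, C, h2⟩ := nec_one h hb
  refine ⟨C, fun n => ?_⟩
  rw [uniq hX hY (d := d)]
  · exact h2 n
  · have t1 := squeeze_zero_norm h1 (tendsto_exp_sqrt C₁ one_pos)
    have t2 := squeeze_zero_norm h2 (tendsto_exp_sqrt C hb)
    simpa using t2.sub t1

lemma coef_growth {a : ℕ → ℂ} (ha : InN a) :
    ∃ b C : ℝ, 0 < b ∧ ∀ n : ℕ, ‖a n‖ ≤ C * Real.exp (b * Real.sqrt n) := by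
  obtain ⟨hs, M₀, hM₀⟩ := ha
  obtain ⟨M, hM0, hM⟩ : ∃ M : ℝ, 0 ≤ M ∧ M₀ ≤ M := ⟨max M₀ 0, le_max_right _ _, le_max_left _ _⟩
  have hf := ser_diff hs
  have h1 : ∀ w : ℂ, ‖w‖ < 1 → ‖∑' n, a n * w ^ n‖ ≤ Real.exp (4 / (1 - ‖w‖) * M) := by
    intro w hw
    have hw0 := norm_nonneg w
    have r0 : 0 < (1 + ‖w‖) / 2 := by positivity
    have r1 : (1 + ‖w‖) / 2 < 1 := by linarith
    have r2 : ‖w‖ < (1 + ‖w‖) / 2 := by linarith
    have hc : ContinuousOn (fun z : ℂ => Real.posLog ‖∑' n, a n * z ^ n‖)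
        (sphere 0 ((1 + ‖w‖) / 2)) :=
      Real.continuous_posLog.comp_continuousOn (hf.continuousOn.mono (sph_sub r1)).norm
    refine (PJ (diffCont_of_disc hf r0 r1) hc (fun z _ => le_exp_posLog (norm_nonneg _)) r2).trans
      (Real.exp_le_exp.2 ?_)
    have h2 := av_mono r0 ((PK_cont r2).mul hc)
      (g := fun z => 4 / (1 - ‖w‖) * Real.posLog ‖∑' n, a n * z ^ n‖) (continuousOn_const.mul hc)
      fun z hz => by
        refine mul_le_mul_of_nonneg_right ((PK_le r2 hz).trans ?_) Real.posLog_nonneg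
        rw [div_le_div_iff₀ (by linarith) (by linarith)]
        nlinarith
    rw [av_rmul] at h2
    refine h2.trans ?_
    have : 0 < 1 - ‖w‖ := by linarith
    gcongr
    exact (hM₀ _ r0 r1).trans hM
  refine ⟨4 * M + 1, Real.exp (8 * M + 1), by positivity, fun n => ?_⟩
  have hs0 : 0 ≤ Real.sqrt n := Real.sqrt_nonneg _
  obtain ⟨t, ht⟩ : ∃ t : ℝ, t = 1 / (Real.sqrt n + 1) := ⟨_, rfl⟩
  have t0 : 0 < t := by rw [ht]; positivity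
  have r0 : 0 < Real.exp (-t) := Real.exp_pos _
  have r1 : Real.exp (-t) < 1 := Real.exp_lt_one_iff.2 (by linarith)
  rw [← av_coef hs n r0 r1]
  apply av_norm_le r0
  intro y hy
  have h2 := h1 y (hy.trans_lt r1)
  rw [hy] at h2
  have h3 : 4 / (1 - Real.exp (-t)) ≤ 4 * (Real.sqrt n + 2) := by
    rw [div_le_iff₀ (by linarith)]
    have a1 := exp_neg_le t0.le
    have a2 : 1 / (1 + t) = 1 - 1 / (Real.sqrt n + 2) := by rw [ht]; field_simp; ring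
    have a3 : (Real.sqrt n + 2) * (1 / (Real.sqrt n + 2)) = 1 := by field_simp
    nlinarith
  have h4 : (n : ℝ) * t ≤ Real.sqrt n := by
    rw [ht, mul_one_div, div_le_iff₀ (by positivity)]
    nlinarith [Real.mul_self_sqrt (Nat.cast_nonneg n : (0:ℝ) ≤ n)]
  rw [norm_div, norm_pow, hy, div_le_iff₀ (by positivity), ← Real.exp_nat_mul, ← Real.exp_add,
    ← Real.exp_add]
  refine h2.trans (Real.exp_le_exp.2 ?_)
  nlinarith [mul_le_mul_of_nonneg_right h3 hM0]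

lemma summable_exp_sqrt : Summable fun n : ℕ => Real.exp (-Real.sqrt n) := by
  rw [← summable_nat_add_iff 1]
  have h := (summable_nat_add_iff 1).2 ((Real.summable_nat_pow_inv (p := 2)).2 one_lt_two)
  refine Summable.of_nonneg_of_le (fun _ => (Real.exp_pos _).le) (fun n => ?_) (h.mul_left 24)
  have h0 : (0 : ℝ) < (n + 1 : ℕ) := by positivity
  have h1 := Real.pow_div_factorial_le_exp (Real.sqrt (n + 1 : ℕ)) (Real.sqrt_nonneg _) 4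
  rw [show Real.sqrt (n + 1 : ℕ) ^ 4 = (Real.sqrt (n + 1 : ℕ) ^ 2) ^ 2 by ring,
    Real.sq_sqrt h0.le, show ((Nat.factorial 4 : ℕ) : ℝ) = 24 by simp [Nat.factorial]] at h1
  rw [Real.exp_neg]
  refine (inv_anti₀ (by positivity) h1).trans (le_of_eq ?_)
  field_simp

theorem sufficiency {X : Finset ℂ} {c : ℂ → ℂ} (hX : ∀ x ∈ X, ‖x‖ = 1)
    (h : ∀ b : ℝ, 0 < b → ∃ C : ℝ, ∀ n : ℕ,
      ‖lam n - ∑ x ∈ X, c x * x ^ n‖ ≤ C * Real.exp (-b * Real.sqrt n)) : IsMult lam := by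
  intro a ha
  obtain ⟨b, C₁, hb, h1⟩ := coef_growth ha
  obtain ⟨C₂, h2⟩ := h (b + 1) (by linarith)
  obtain ⟨hs, M, hM⟩ := ha
  have hC₂ : 0 ≤ C₂ := by simpa using (norm_nonneg _).trans (h2 0)
  have hu := summable_exp_sqrt.mul_left (C₂ * C₁)
  have hρ : ∀ (z : ℂ), ‖z‖ < 1 → ∀ n : ℕ, ‖(lam n - ∑ x ∈ X, c x * x ^ n) * a n * z ^ n‖ ≤
      C₂ * C₁ * Real.exp (-Real.sqrt n) := by
    intro z hz n
    rw [norm_mul, norm_mul, norm_pow]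
    refine (mul_le_of_le_one_right (by positivity) (pow_le_one₀ (norm_nonneg _) hz.le)).trans ?_
    refine (mul_le_mul (h2 n) (h1 n) (norm_nonneg _) (by positivity)).trans (le_of_eq ?_)
    rw [show -Real.sqrt n = -(b + 1) * Real.sqrt n + b * Real.sqrt n by ring, Real.exp_add]
    ring
  have hn : ∀ x ∈ X, ∀ z : ℂ, ‖x * z‖ = ‖z‖ := fun x hx z => by rw [norm_mul, hX x hx, one_mul]
  have hS : ∀ z : ℂ, ‖z‖ < 1 → HasSum (fun n => lam n * a n * z ^ n)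
      (∑ x ∈ X, c x * ∑' n, a n * (x * z) ^ n +
        ∑' n, (lam n - ∑ x ∈ X, c x * x ^ n) * a n * z ^ n) := by
    intro z hz
    have a1 := hasSum_sum fun x (hx : x ∈ X) =>
      (hs (x * z) (by rwa [hn x hx])).hasSum.mul_left (c x)
    refine hasSum_of_eq (a1.add (Summable.of_norm_bounded hu (hρ z hz)).hasSum) fun n => ?_
    simp only [sub_mul, Finset.sum_mul, mul_pow]
    rw [Finset.sum_congr rfl fun x _ =>
      (by ring : c x * (a n * (x ^ n * z ^ n)) = c x * x ^ n * a n * z ^ n)]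
    ring
  have hs' : ∀ z : ℂ, ‖z‖ < 1 → Summable fun n => lam n * a n * z ^ n := fun z hz => (hS z hz).summable
  refine ⟨hs', X.card * M + (Real.log X.card + ∑ x ∈ X, Real.posLog ‖c x‖ +
    Real.posLog (∑' n : ℕ, C₂ * C₁ * Real.exp (-Real.sqrt n)) + Real.log 2), fun r r0 r1 => ?_⟩
  have hc : ∀ x ∈ X, ContinuousOn (fun z : ℂ => Real.posLog ‖∑' n, a n * (x * z) ^ n‖)
      (sphere 0 r) := fun x hx =>
    Real.continuous_posLog.comp_continuousOn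
      ((comp_rot (ser_diff hs) (hX x hx)).continuousOn.mono (sph_sub r1)).norm
  have h3 := av_mono r0 (f := fun z : ℂ => Real.posLog ‖∑' n, lam n * a n * z ^ n‖)
    (g := fun z => 1 * (∑ x ∈ X, Real.posLog ‖∑' n, a n * (x * z) ^ n‖) +
      (Real.log X.card + ∑ x ∈ X, Real.posLog ‖c x‖ +
        Real.posLog (∑' n : ℕ, C₂ * C₁ * Real.exp (-Real.sqrt n)) + Real.log 2))
    (Real.continuous_posLog.comp_continuousOn
      ((ser_diff (a := fun n => lam n * a n) hs').continuousOn.mono (sph_sub r1)).norm)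
    ((continuousOn_const.mul (continuousOn_finsetSum _ hc)).add continuousOn_const) fun z hz => by
      have hz1 : ‖z‖ < 1 := hz.trans_lt r1
      rw [(hS z hz1).tsum_eq]
      refine (Real.posLog_norm_add_le _ _).trans ?_
      have a1 := Real.posLog_norm_sum_le X fun x => c x * ∑' n, a n * (x * z) ^ n
      have a2 : ∑ x ∈ X, Real.posLog ‖c x * ∑' n, a n * (x * z) ^ n‖ ≤
          ∑ x ∈ X, (Real.posLog ‖c x‖ + Real.posLog ‖∑' n, a n * (x * z) ^ n‖) :=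
        Finset.sum_le_sum fun x _ => by rw [norm_mul]; exact Real.posLog_mul
      have a3 := Real.posLog_le_posLog (norm_nonneg _) (tsum_of_norm_bounded hu.hasSum (hρ z hz1))
      rw [Finset.sum_add_distrib] at a2
      linarith
  rw [av_aff r0 (continuousOn_finsetSum _ hc), av_sum X r0 hc, one_mul] at h3
  refine h3.trans (add_le_add_left ?_ _)
  rw [← nsmul_eq_mul]
  refine Finset.sum_le_card_nsmul _ _ _ fun x hx => ?_
  rw [av_rot (fun z : ℂ => Real.posLog ‖∑' n, a n * z ^ n‖) r (hX x hx)]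
  exact hM r r0 r1

end Pool.Agent.Lib.MP_b4c8d9_an
end
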