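import Pool.Agent.Lib.MP_b4c8d9_an.Arc

-- part Pool.Agent.Lib.MP_b4c8d9_an.Dstep
section

/-! The multi-scale induction: the two one-sided continuations nearly agree. -/

namespace Pool.Agent.Lib.MP_b4c8d9_an

open Complex Real Metric Set Filter Topology MeasureTheory

variable {lam : ℕ → ℂ}

noncomputable def Df (lam : ℕ → ℂ) (α θ s ϑ : ℝ) (u : ℂ) : ℂ :=
  Gp lam α (cexp (-bp θ s (-ϑ))) (cv (-ϑ) * u) - Gp lam α (cexp (-bp θ s ϑ)) (cv ϑ * u)

lemma Df_eq (α θ s ϑ : ℝ) (ω : ℂ) : Df lam α θ s ϑ (cexp (-(bp θ s 0 - ω))) =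
    Gl lam α (bp θ s (-ϑ)) ω - Gl lam α (bp θ s ϑ) ω := by
  have e : ∀ v : ℝ, cv v * cexp (-(bp θ s 0 - ω)) = cexp (-(bp θ s v - ω)) := by
    intro v
    rw [cv, ← Complex.exp_add]; congr 1; simp only [bp]; push_cast; ring
  rw [Df, e, e, Gl, Gl]

lemma Df_diff (hK : HK lam) (α θ ϑ : ℝ) {s : ℝ} (hs : 0 < s) :
    DifferentiableOn ℂ (Df lam α θ s ϑ) (ball 0 1) :=
  (comp_rot (Gp_diff hK α (exp_neg_lt_one (by simpa using hs)) (Complex.exp_ne_zero _))
    (cv_norm _)).sub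
  (comp_rot (Gp_diff hK α (exp_neg_lt_one (by simpa using hs)) (Complex.exp_ne_zero _))
    (cv_norm _))

lemma cm_eq_pv (x v : ℝ) : circleMap 0 (Real.exp (-x)) v = pv x v := by
  simp only [circleMap, pv, zero_add]
  push_cast
  rw [← Complex.exp_add]; congr 1; ring

lemma norm_tau {x v : ℝ} (hx : 0 ≤ x) (hv : 0 ≤ v) : ‖(x : ℂ) - v * I‖ ≤ x + v := by
  refine (norm_sub_le _ _).trans (le_of_eq ?_)
  simp [abs_of_nonneg hx, abs_of_nonneg hv]

lemma PK_low {x y v : ℝ} (hx : 0 < x) (hxy : x ≤ y) (hy : y ≤ 1 / 12) (hv0 : 0 ≤ v)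
    (hv : v ≤ 2 * y) {u : ℂ} (hu : ‖u‖ ≤ Real.exp (-(4 * y))) :
    P u / 8 ≤ PK (Real.exp (-x)) u (pv x v) := by
  have hy0 : 0 < y := hx.trans_le hxy
  have h1 : ‖1 - pv x v‖ ≤ 3 * y :=
    (one_sub_exp_le (by simpa using hx.le)).trans ((norm_tau hx.le hv0).trans (by linarith))
  have h2 : Real.exp (-(4 * y)) ≤ 1 - 3 * y := by
    refine (exp_neg_le (by positivity)).trans ?_
    rw [div_le_iff₀ (by positivity)]; nlinarith
  have h3 : 3 * y ≤ ‖1 - u‖ := by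
    have := norm_sub_norm_le (1 : ℂ) u
    rw [norm_one] at this; linarith
  have h4 : ‖pv x v - u‖ ≤ 2 * ‖1 - u‖ := by
    have := norm_sub_le_norm_sub_add_norm_sub (pv x v) 1 u
    rw [norm_sub_rev (pv x v) 1] at this; linarith
  have h5 : ‖u‖ < Real.exp (-x) := hu.trans_lt (Real.exp_lt_exp.2 (by linarith))
  have h6 : 0 < ‖pv x v - u‖ := norm_pos_iff.2 (sub_ne_of_norm h5 (pv_norm x v))
  have h7 : 1 - 2 * x ≤ Real.exp (-x) ^ 2 := by
    rw [← Real.exp_nat_mul]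
    have := Real.add_one_le_exp ((2 : ℕ) * -x)
    push_cast at this ⊢; linarith
  have h8 : ‖u‖ ^ 2 ≤ 1 - 4 * y := by
    have : ‖u‖ ^ 2 ≤ (1 - 3 * y) ^ 2 := by gcongr; linarith
    nlinarith
  have h9 : (1 - ‖u‖ ^ 2) / 2 ≤ Real.exp (-x) ^ 2 - ‖u‖ ^ 2 := by linarith
  calc P u / 8 = (1 - ‖u‖ ^ 2) / 2 / (2 * ‖1 - u‖) ^ 2 := by
        rw [P]; field_simp; ring
    _ ≤ _ := by
        rw [PK]; gcongr; linarith

lemma dstep_one (hK : HK lam) {α CM N ℓ θ s ϑ x Λ A : ℝ} (hα : 0 < α) (hN : 4 ≤ N)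
    (hCM : 48 * CM ≤ N) (hs : 0 < s) (hsx : s ≤ x) (hx : N * x ≤ 1 / 3) (hϑ0 : 0 ≤ ϑ)
    (hϑ : 8 * ϑ ≤ N * x) (hG : ∀ v, ϑ ≤ |v| → |v| ≤ N * x → Good lam α ℓ (cexp (-bp θ s v)))
    (hQ : ∀ f, Cls α (α / N ^ 2) f →
      ∫ t in (N * x / 4 / 2)..(N * x / 4), Real.posLog ‖T lam f (wp θ s t)‖ ≤ CM * (α / N ^ 2))
    (hΛ : 16 * (α + 1) / x ^ 2 * Real.exp ℓ ≤ Real.exp Λ) (hℓ : 0 ≤ ℓ) (hA0 : 0 ≤ A)
    (hA : A ≤ α / 1000)
    (IH : ∀ u : ℂ, ‖u‖ ≤ Real.exp (-x) → ‖Df lam α θ s ϑ u‖ ≤ Real.exp (Λ - A * P u))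
    {u : ℂ} (hu : ‖u‖ ≤ Real.exp (-(N * x))) :
    ‖Df lam α θ s ϑ u‖ ≤ Real.exp (Λ - (A + α / (1000 * N)) * P u) := by
  have hx0 : 0 < x := hs.trans_le hsx
  have hN0 : 0 < N := by linarith
  obtain ⟨y, hy⟩ : ∃ y, y = N * x / 4 := ⟨_, rfl⟩
  obtain ⟨β, hβ⟩ : ∃ β, β = α / N ^ 2 := ⟨_, rfl⟩
  obtain ⟨κ, hκ⟩ : ∃ κ, κ = β / x := ⟨_, rfl⟩
  rw [← hy, ← hβ] at hQ
  have hxy : x ≤ y := by rw [hy]; nlinarith
  have hy0 : 0 < y := hx0.trans_le hxy
  have hy1 : y ≤ 1 / 12 := by rw [hy]; linarith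
  have hβ0 : 0 < β := by rw [hβ]; positivity
  have hβα : β ≤ α := by rw [hβ]; exact div_le_self hα.le (by nlinarith)
  have hκ0 : 0 < κ := by rw [hκ]; positivity
  have hκ1 : κ ≤ α * (x / (10 * y ^ 2)) := by
    rw [hκ, hβ, hy, div_le_iff₀ hx0]
    have : α * (x / (10 * (N * x / 4) ^ 2)) * x = 8 / 5 * (α / N ^ 2) := by field_simp; ring
    rw [this]
    have : 0 < α / N ^ 2 := by positivity
    linarith
  have hR0 : 0 < Real.exp (-x) := Real.exp_pos _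
  have hR1 : Real.exp (-x) < 1 := Real.exp_lt_one_iff.2 (by linarith)
  have huR : ‖u‖ < Real.exp (-x) := hu.trans_lt (Real.exp_lt_exp.2 (by nlinarith))
  set g : ℂ → ℂ := fun z => Df lam α θ s ϑ z * cexp (A * Phi z - Λ) with hg
  have hgd : DifferentiableOn ℂ g (ball 0 1) :=
    (Df_diff hK α θ ϑ hs).mul ((aPhi_diff A).sub_const _).cexp
  have hgn : ∀ z, ‖g z‖ = ‖Df lam α θ s ϑ z‖ * Real.exp (A * P z - Λ) := by
    intro z
    rw [hg]; simp only
    rw [norm_mul, Complex.norm_exp, sub_re, re_ofReal_mul, re_Phi, ofReal_re]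
  set φ : ℂ → ℝ := fun z => Real.log (max ‖g z‖ (Real.exp (-κ))) with hφ
  have hmax : ∀ z, 0 < max ‖g z‖ (Real.exp (-κ)) := fun z =>
    (Real.exp_pos _).trans_le (le_max_right _ _)
  have hφc : ContinuousOn φ (sphere 0 (Real.exp (-x))) :=
    ContinuousOn.log ((hgd.continuousOn.mono (sph_sub hR1)).norm.sup continuousOn_const)
      fun z _ => (hmax z).ne'
  have hφ0 : ∀ z : ℂ, ‖z‖ = Real.exp (-x) → φ z ≤ 0 := by
    intro z hz
    apply Real.log_nonpos (hmax z).le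
    apply max_le _ (Real.exp_le_one_iff.2 (by linarith))
    rw [hgn]
    calc ‖Df lam α θ s ϑ z‖ * Real.exp (A * P z - Λ)
        ≤ Real.exp (Λ - A * P z) * Real.exp (A * P z - Λ) := by gcongr; exact IH z hz.le
      _ = 1 := by rw [← Real.exp_add]; simp
  have hPJ := PJ (diffCont_of_disc hgd hR0 hR1) hφc
    (fun z _ => by rw [hφ]; simp only; rw [Real.exp_log (hmax z)]; exact le_max_left _ _) huR
  -- the arc estimate
  set h : ℝ → ℝ → ℝ := fun v t => Real.posLog ‖T lam (F2 α β κ x v) (wp θ s t)‖ with hh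
  have hhc : Continuous (Function.uncurry h) :=
    Real.continuous_posLog.comp (F2_cont hK α β κ θ hs hsx).norm
  have harc : ∀ v ∈ Icc y (2 * y), ∀ t ∈ Icc (y / 2) y,
      φ (pv x v) ≤ -κ + A * (8 * x / y ^ 2) + h (v + t) t := by
    intro v hv t ht
    have h1 := arc_est hK (θ := θ) hβ0.le hβα hs hx0 hxy hy1 (by rw [hy]; linarith) hϑ0 hκ1 hκ.le
      (fun v h1 h2 => hG v h1 (by rw [hy] at h2; nlinarith)) hΛ hℓ hv.1 hv.2 ht.1 ht.2
    have e : pv x v = cexp (-(bp θ s 0 - bp θ (s - x) v)) := by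
      simp only [pv, bp]; congr 1; push_cast; ring
    rw [← Df_eq, ← e] at h1
    have h2 : P (pv x v) ≤ 8 * x / y ^ 2 := by
      have h3 := P_up (τ := (x : ℂ) - v * I) (by simpa using hx0)
        ((norm_tau hx0.le (by linarith [hv.1])).trans (by linarith [hv.2]))
      have h4 : y ≤ ‖(x : ℂ) - v * I‖ := by
        have := Complex.abs_im_le_norm ((x : ℂ) - v * I)
        simp only [sub_im, ofReal_im, mul_im, ofReal_re, I_im, mul_one, I_re, mul_zero, add_zero,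
          zero_sub, abs_neg] at this
        exact hv.1.trans ((le_abs_self v).trans this)
      refine h3.trans ?_
      simp only [sub_re, ofReal_re, mul_re, I_re, mul_zero, ofReal_im, I_im, mul_one, sub_self,
        sub_zero]
      gcongr
    have h3 : 0 ≤ h (v + t) t := Real.posLog_nonneg
    have h4 : 0 ≤ A * (8 * x / y ^ 2) := by positivity
    rw [hφ]; simp only
    rw [Real.log_le_iff_le_exp (hmax _)]
    apply max_le _ (Real.exp_le_exp.2 (by linarith))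
    rw [hgn]
    calc _ ≤ Real.exp (Λ - κ + h (v + t) t) * Real.exp (A * (8 * x / y ^ 2) - Λ) := by gcongr
      _ = _ := by rw [← Real.exp_add]; congr 1; ring
  have hsh := shear_le hhc (fun _ _ => Real.posLog_nonneg) (a := y) (b := 2 * y) (c := y / 2)
    (d := y) (C := CM * β) (by linarith) (by linarith) fun v hv => by
      refine hQ _ (F2_cls hα.le hβ0.le hx0 (by linarith) (hκ1.trans ?_) hκ.le)
      have h1 := P_low' (τ := (x : ℂ) - v * I) (by simpa using hx0) (by simp; linarith)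
      have h2 : ‖(x : ℂ) - v * I‖ ^ 2 ≤ 10 * y ^ 2 := by
        rw [Complex.sq_norm, normSq_apply]
        simp only [sub_re, ofReal_re, mul_re, I_re, mul_zero, ofReal_im, I_im, mul_one, sub_self,
          sub_zero, sub_im, mul_im, add_zero, zero_sub]
        have h3 : v ^ 2 ≤ (3 * y) ^ 2 := by
          apply sq_le_sq' <;> linarith [hv.1, hv.2]
        nlinarith
      have h3 : 0 < ‖(x : ℂ) - v * I‖ := lt_of_lt_of_le (by simpa using hx0) (re_le_norm _)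
      simp only [sub_re, ofReal_re, mul_re, I_re, mul_zero, ofReal_im, I_im, mul_one, sub_self,
        sub_zero] at h1
      gcongr
      refine le_trans ?_ h1
      gcongr
  have hc1 : Continuous fun v => φ (pv x v) := by
    simpa only [cm_eq_pv] using cont_cm hR0 hφc
  have hc2 : Continuous fun v => ∫ t in (y / 2)..y, h (v + t) t :=
    intervalIntegral.continuous_parametric_intervalIntegral_of_continuous'
      (f := fun v t => h (v + t) t)
      (hhc.comp (f := fun p : ℝ × ℝ => (p.1 + p.2, p.2)) (by fun_prop)) _ _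
  have hint : ∫ v in y..(2 * y), φ (pv x v) ≤ -(α / (7 * N)) := by
    have h1 : ∫ v in y..(2 * y), φ (pv x v) ≤ ∫ v in y..(2 * y),
        ((-κ + A * (8 * x / y ^ 2)) + 2 / y * ∫ t in (y / 2)..y, h (v + t) t) := by
      apply intervalIntegral.integral_mono_on (by linarith) (hc1.intervalIntegrable _ _)
        ((continuous_const.add (continuous_const.mul hc2)).intervalIntegrable _ _)
      intro v hv
      have h2 : ∫ _ in (y / 2)..y, (φ (pv x v) - (-κ + A * (8 * x / y ^ 2))) ≤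
          ∫ t in (y / 2)..y, h (v + t) t := by
        apply intervalIntegral.integral_mono_on (by linarith) intervalIntegrable_const
          ((hhc.comp (f := fun t : ℝ => (v + t, t)) (by fun_prop)).intervalIntegrable _ _)
        intro t ht
        have := harc v hv t ht
        simp only [Function.comp_apply, Function.uncurry_apply_pair]
        linarith
      rw [intervalIntegral.integral_const, smul_eq_mul] at h2
      have h3 := mul_le_mul_of_nonneg_left h2 (by positivity : 0 ≤ 2 / y)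
      rw [← mul_assoc, show 2 / y * (y - y / 2) = 1 by field_simp; ring, one_mul] at h3
      simp only [Pi.add_apply, Pi.mul_apply]
      linarith
    rw [intervalIntegral.integral_add intervalIntegrable_const
      (f := fun _ => -κ + A * (8 * x / y ^ 2))
      (g := fun v => 2 / y * ∫ t in (y / 2)..y, h (v + t) t)
      ((continuous_const.mul hc2).intervalIntegrable _ _), intervalIntegral.integral_const_mul,
      intervalIntegral.integral_const, smul_eq_mul] at h1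
    have h2 := mul_le_mul_of_nonneg_left hsh (by positivity : 0 ≤ 2 / y)
    have e1 : 2 / y * ((2 * y - y + (y - y / 2)) * (CM * β)) = 3 * CM / N * (α / N) := by
      rw [hβ]; field_simp; ring
    have e2 : (2 * y - y) * (-κ + A * (8 * x / y ^ 2)) = -(1 / 4) * (α / N) + 32 * (A / N) := by
      rw [hκ, hβ, hy]; field_simp; ring
    have h3 : 3 * CM / N ≤ 1 / 16 := by rw [div_le_iff₀ hN0]; linarith
    have h4 : A / N ≤ 1 / 1000 * (α / N) := by
      rw [← mul_div_assoc]; gcongr; linarith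
    have h5 : 0 < α / N := by positivity
    have h6 : α / (7 * N) = 1 / 7 * (α / N) := by field_simp
    have h7 := mul_le_mul_of_nonneg_right h3 h5.le
    rw [e1] at h2
    rw [e2] at h1
    linarith
  have hu1 : ‖u‖ < 1 := huR.trans hR1
  have hPu := P_nonneg hu1
  have hav : circleAverage (fun z => PK (Real.exp (-x)) u z * φ z) 0 (Real.exp (-x)) ≤
      -(α / (1000 * N) * P u) := by
    have h1 := arc_le hR0 (f := fun z => (-1) * (PK (Real.exp (-x)) u z * φ z))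
      (continuousOn_const.mul ((PK_cont huR).mul hφc))
      (fun z hz => by nlinarith [PK_nonneg huR.le z, hφ0 z hz]) (a := y) (b := 2 * y)
      (by linarith) (by linarith [Real.pi_gt_three])
    rw [av_rmul] at h1
    simp only [cm_eq_pv] at h1
    have h2 : ∫ v in y..(2 * y), (-(P u / 8)) * φ (pv x v) ≤
        ∫ v in y..(2 * y), (-1) * (PK (Real.exp (-x)) u (pv x v) * φ (pv x v)) := by
      have hc3 : Continuous fun v => PK (Real.exp (-x)) u (pv x v) := by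
        simpa only [cm_eq_pv] using cont_cm hR0 (PK_cont huR)
      apply intervalIntegral.integral_mono_on (by linarith)
        ((continuous_const.mul hc1).intervalIntegrable _ _)
        ((continuous_const.mul (hc3.mul hc1)).intervalIntegrable _ _)
      intro v hv
      have h3 := PK_low hx0 hxy hy1 (by linarith [hv.1]) hv.2 (u := u)
        (by rw [hy]; convert hu using 3; ring)
      have h4 := hφ0 (pv x v) (pv_norm x v)
      simp only [Pi.mul_apply]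
      nlinarith
    rw [intervalIntegral.integral_const_mul] at h2
    have h3 : P u / 8 * (α / (7 * N)) ≤ -(P u / 8) * ∫ v in y..(2 * y), φ (pv x v) := by
      nlinarith [mul_le_mul_of_nonneg_left hint (by positivity : 0 ≤ P u / 8)]
    have h4 : 2 * π * (α / (1000 * N) * P u) ≤ P u / 8 * (α / (7 * N)) := by
      have h5 : 0 ≤ α / N * P u := by positivity
      have e1 : 2 * π * (α / (1000 * N) * P u) = π / 500 * (α / N * P u) := by field_simp; ring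
      have e2 : P u / 8 * (α / (7 * N)) = 1 / 56 * (α / N * P u) := by field_simp; ring
      rw [e1, e2]
      exact mul_le_mul_of_nonneg_right (by linarith [Real.pi_lt_d2]) h5
    have h5 : 0 < 2 * π := by positivity
    nlinarith
  have h1 := hPJ.trans (Real.exp_le_exp.2 hav)
  rw [hgn, ← le_div_iff₀ (Real.exp_pos _), ← Real.exp_sub] at h1
  refine h1.trans (le_of_eq ?_)
  congr 1; ring

theorem dstep (hK : HK lam) {α CM ℓ θ s ϑ Λ : ℝ} {N : ℕ} (hα : 0 < α) (hN : 4 ≤ N)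
    (hCM : 48 * CM ≤ N) (hs : 0 < s) (hsx : s ≤ 8 * ϑ / N) (hx : N ^ N * (8 * ϑ / N) ≤ 1 / 3)
    (hG : ∀ v, ϑ ≤ |v| → |v| ≤ N ^ N * (8 * ϑ / N) → Good lam α ℓ (cexp (-bp θ s v)))
    (hQ : ∀ y, 2 * ϑ ≤ y → y ≤ N ^ N * (8 * ϑ / N) → ∀ f, Cls α (α / N ^ 2) f →
      ∫ t in (y / 2)..y, Real.posLog ‖T lam f (wp θ s t)‖ ≤ CM * (α / N ^ 2))
    (hΛ : 16 * (α + 1) / (8 * ϑ / N) ^ 2 * Real.exp ℓ ≤ Real.exp Λ) (hℓ : 0 ≤ ℓ)
    {u : ℂ} (hu : ‖u‖ ≤ Real.exp (-(N ^ N * (8 * ϑ / N)))) :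
    ‖Df lam α θ s ϑ u‖ ≤ Real.exp (Λ - α / 1000 * P u) := by
  have hN' : (4 : ℝ) ≤ N := by exact_mod_cast hN
  have hN1 : (1 : ℝ) ≤ N := by linarith
  obtain ⟨x, hx'⟩ : ∃ x, x = 8 * ϑ / N := ⟨_, rfl⟩
  rw [← hx'] at hsx hx hG hQ hΛ hu
  have hx0 : 0 < x := hs.trans_le hsx
  have hϑ : 8 * ϑ = N * x := by rw [hx']; field_simp
  have hϑ0 : 0 < ϑ := by nlinarith
  have hxN : N * x ≤ N ^ N * x := by gcongr; exact le_self_pow₀ hN1 (by omega)
  have key : ∀ i : ℕ, i ≤ N → ∀ u : ℂ, ‖u‖ ≤ Real.exp (-(N ^ i * x)) →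
      ‖Df lam α θ s ϑ u‖ ≤ Real.exp (Λ - i * (α / (1000 * N)) * P u) := by
    intro i
    induction i with
    | zero =>
      intro _ u hu
      simp only [pow_zero, one_mul, Nat.cast_zero, zero_mul, sub_zero] at hu ⊢
      have h1 : x / 2 ≤ 1 - ‖u‖ := by linarith [exp_neg_le' hx0.le (by nlinarith)]
      have h2 : ∀ v : ℝ, |v| = ϑ → ‖Gp lam α (cexp (-bp θ s v)) (cv v * u)‖ ≤
          8 / x * Real.exp ℓ := by
        intro v hv
        have h3 : ‖cv v * u‖ = ‖u‖ := by rw [norm_mul, cv_norm, one_mul]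
        refine (Gp_bound hK hα.le (exp_neg_lt_one (by simpa using hs))
          (hG v hv.ge (by rw [hv]; linarith)) (by rw [h3]; linarith)).trans ?_
        rw [h3]
        calc 4 / (1 - ‖u‖) * Real.exp ℓ ≤ 4 / (x / 2) * Real.exp ℓ := by gcongr
          _ = _ := by field_simp; ring
      have h3 := h2 ϑ (abs_of_pos hϑ0)
      have h4 := h2 (-ϑ) (by rw [abs_neg, abs_of_pos hϑ0])
      have h5 : 16 / x ≤ 16 * (α + 1) / x ^ 2 := by
        rw [div_le_div_iff₀ hx0 (by positivity)]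
        have : x ≤ 1 := by nlinarith
        nlinarith [mul_pos hx0 hα, mul_pos hx0 hx0]
      refine (norm_sub_le _ _).trans (le_trans ?_ hΛ)
      calc _ ≤ 8 / x * Real.exp ℓ + 8 / x * Real.exp ℓ := add_le_add h4 h3
        _ = 16 / x * Real.exp ℓ := by ring
        _ ≤ _ := by gcongr
    | succ i ih =>
      intro hi u hu
      have h1 : (1 : ℝ) ≤ N ^ i := one_le_pow₀ hN1
      have h2 : N * (N ^ i * x) ≤ N ^ N * x := by
        rw [← mul_assoc, ← pow_succ']; gcongr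
      have h3 : x ≤ N ^ i * x := le_mul_of_one_le_left hx0.le h1
      have h4 : N * x ≤ N * (N ^ i * x) := by gcongr
      have h5 := dstep_one hK (θ := θ) (x := N ^ i * x) (A := i * (α / (1000 * N))) hα hN' hCM hs
        (hsx.trans h3) (h2.trans hx) hϑ0.le (by linarith)
        (fun v h6 h7 => hG v h6 (h7.trans h2)) (hQ _ (by linarith) (by nlinarith))
        (le_trans (by gcongr) hΛ) hℓ (by positivity) ?_ (ih (by omega)) (u := u)
        (by rwa [← mul_assoc, ← pow_succ'])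
      · refine h5.trans (le_of_eq ?_)
        congr 1; push_cast; ring
      · have h6 : (i : ℝ) ≤ N := by exact_mod_cast (by omega : i ≤ N)
        calc (i : ℝ) * (α / (1000 * N)) ≤ N * (α / (1000 * N)) := by gcongr
          _ = _ := by field_simp
  refine (key N le_rfl u hu).trans (le_of_eq ?_)
  congr 2; field_simp

end Pool.Agent.Lib.MP_b4c8d9_an
end

-- part Pool.Agent.Lib.MP_b4c8d9_an.Seg
section

/-! Integrals over segments. -/

namespace Pool.Agent.Lib.MP_b4c8d9_an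

open Complex Real Metric Set Filter Topology MeasureTheory

variable {lam : ℕ → ℂ}

noncomputable def Seg (h : ℂ → ℂ) (a b : ℂ) : ℂ := ∫ t in (0:ℝ)..1, h (a + t * (b - a)) * (b - a)

lemma seg_mem {S : Set ℂ} (hS : Convex ℝ S) {a b : ℂ} (ha : a ∈ S) (hb : b ∈ S) {t : ℝ}
    (ht : t ∈ Icc (0:ℝ) 1) : a + t * (b - a) ∈ S := by
  have := hS.add_smul_sub_mem ha hb ht
  simpa using this

lemma seg_contOn {S : Set ℂ} (hS : Convex ℝ S) {a b : ℂ} (ha : a ∈ S) (hb : b ∈ S) {h : ℂ → ℂ}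
    (hh : ContinuousOn h S) : ContinuousOn (fun t : ℝ => h (a + t * (b - a))) (uIcc 0 1) := by
  rw [uIcc_of_le zero_le_one]
  exact hh.comp (by fun_prop) fun t ht => seg_mem hS ha hb ht

lemma Seg_eq_sub {S : Set ℂ} (hS : Convex ℝ S) {a b : ℂ} (ha : a ∈ S) (hb : b ∈ S) {h F : ℂ → ℂ}
    (hh : ContinuousOn h S) (hF : ∀ z ∈ S, HasDerivAt F (h z) z) : Seg h a b = F b - F a := by
  have := intervalIntegral.integral_eq_sub_of_hasDerivAt (a := 0) (b := 1)
    (f := fun t : ℝ => F (a + t * (b - a))) (f' := fun t : ℝ => h (a + t * (b - a)) * (b - a))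
    (fun t ht => by
      rw [uIcc_of_le zero_le_one] at ht
      have h1 : HasDerivAt (fun z : ℂ => a + z * (b - a)) (1 * (b - a)) (t : ℂ) :=
        ((hasDerivAt_id (t : ℂ)).mul_const (b - a)).const_add a
      have h2 := ((hF _ (seg_mem hS ha hb ht)).comp (t : ℂ) h1).comp_ofReal
      simpa using h2)
    (((seg_contOn hS ha hb hh).mul continuousOn_const).intervalIntegrable)
  simpa [Seg] using this

lemma Seg_add_ball {h : ℂ → ℂ} {c₀ : ℂ} {R : ℝ} (hh : DifferentiableOn ℂ h (ball c₀ R)) {a b c : ℂ}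
    (ha : a ∈ ball c₀ R) (hb : b ∈ ball c₀ R) (hc : c ∈ ball c₀ R) :
    Seg h a b + Seg h b c = Seg h a c := by
  obtain ⟨F, hF⟩ := hh.isExactOn_ball
  rw [Seg_eq_sub (convex_ball c₀ R) ha hb hh.continuousOn hF,
    Seg_eq_sub (convex_ball c₀ R) hb hc hh.continuousOn hF,
    Seg_eq_sub (convex_ball c₀ R) ha hc hh.continuousOn hF]
  ring

lemma ev_ball {s : ℝ} {a : ℂ} (ha : a.re < s) : ∀ᶠ R : ℝ in atTop, a ∈ ball ((s - R : ℝ) : ℂ) R := by
  filter_upwards [eventually_gt_atTop (((s - a.re) ^ 2 + a.im ^ 2) / (2 * (s - a.re))),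
    eventually_gt_atTop 0] with R hR hR0
  rw [div_lt_iff₀ (by linarith)] at hR
  rw [mem_ball, dist_eq_norm, ← abs_of_pos hR0, ← abs_norm, ← sq_lt_sq, Complex.sq_norm,
    normSq_apply, abs_of_pos hR0]
  simp only [sub_re, ofReal_re, sub_im, ofReal_im]
  nlinarith

lemma ball_sub (s R : ℝ) : ball ((s - R : ℝ) : ℂ) R ⊆ {ω : ℂ | ω.re < s} := by
  intro z hz
  rw [mem_ball, dist_eq_norm] at hz
  have := re_le_norm (z - ((s - R : ℝ) : ℂ))
  simp only [sub_re, ofReal_re] at this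
  show z.re < s
  linarith

lemma Seg_add_left {h : ℂ → ℂ} {s : ℝ} (hh : DifferentiableOn ℂ h {ω : ℂ | ω.re < s}) {a b c : ℂ}
    (ha : a.re < s) (hb : b.re < s) (hc : c.re < s) : Seg h a b + Seg h b c = Seg h a c := by
  obtain ⟨R, h1, h2, h3⟩ := ((ev_ball ha).and ((ev_ball hb).and (ev_ball hc))).exists
  exact Seg_add_ball (hh.mono (ball_sub s R)) h1 h2 h3

lemma Seg_add_right {h : ℂ → ℂ} (hh : DifferentiableOn ℂ h {ω : ℂ | 0 < ω.re}) {a b c : ℂ}
    (ha : 0 < a.re) (hb : 0 < b.re) (hc : 0 < c.re) : Seg h a b + Seg h b c = Seg h a c := by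
  obtain ⟨R, h1, h2, h3⟩ := ((ev_ball (s := 0) (a := -a) (by simpa using ha)).and
    ((ev_ball (s := 0) (a := -b) (by simpa using hb)).and
      (ev_ball (s := 0) (a := -c) (by simpa using hc)))).exists
  have e : ∀ z : ℂ, -z ∈ ball ((0 - R : ℝ) : ℂ) R ↔ z ∈ ball (R : ℂ) R := by
    intro z
    rw [mem_ball, mem_ball, ← dist_neg_neg]
    simp
  refine Seg_add_ball (hh.mono fun z hz => ?_) ((e a).1 h1) ((e b).1 h2) ((e c).1 h3)
  simpa using ball_sub 0 R ((e z).2 hz)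

lemma Seg_norm_le {h : ℂ → ℂ} {a b : ℂ} {C : ℝ}
    (hC : ∀ t ∈ Icc (0:ℝ) 1, ‖h (a + t * (b - a))‖ ≤ C) : ‖Seg h a b‖ ≤ C * ‖b - a‖ := by
  have := intervalIntegral.norm_integral_le_of_norm_le_const (a := 0) (b := 1) (C := C * ‖b - a‖)
    (f := fun t : ℝ => h (a + t * (b - a)) * (b - a)) fun t ht => by
      rw [uIoc_of_le zero_le_one] at ht
      rw [norm_mul]
      gcongr
      exact hC t (Ioc_subset_Icc_self ht)
  simpa [Seg] using this

lemma Seg_sub {S : Set ℂ} (hS : Convex ℝ S) {a b : ℂ} (ha : a ∈ S) (hb : b ∈ S) {h₁ h₂ : ℂ → ℂ}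
    (h1 : ContinuousOn h₁ S) (h2 : ContinuousOn h₂ S) :
    Seg h₁ a b - Seg h₂ a b = Seg (fun z => h₁ z - h₂ z) a b := by
  unfold Seg
  rw [← intervalIntegral.integral_sub (f := fun t : ℝ => h₁ (a + t * (b - a)) * (b - a))
    (g := fun t : ℝ => h₂ (a + t * (b - a)) * (b - a))
    ((seg_contOn hS ha hb h1).mul continuousOn_const).intervalIntegrable
    ((seg_contOn hS ha hb h2).mul continuousOn_const).intervalIntegrable]
  simp only [sub_mul]

lemma Seg_cmul (c : ℂ) (h : ℂ → ℂ) (a b : ℂ) : Seg (fun z => c * h z) a b = c * Seg h a b := by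
  unfold Seg
  rw [← intervalIntegral.integral_const_mul]
  simp only [mul_assoc]

lemma Seg_shift (h : ℂ → ℂ) (a b d : ℂ) : Seg h (a + d) (b + d) = Seg (fun z => h (z + d)) a b := by
  unfold Seg
  congr 1
  funext t
  rw [add_sub_add_right_eq_sub, add_right_comm]

lemma Seg_entire {S : Set ℂ} (hS : Convex ℝ S) {a b : ℂ} (ha : a ∈ S) (hb : b ∈ S) {k : ℂ → ℂ}
    (hk : ContinuousOn k S) (c : ℂ) :
    Differentiable ℂ fun ξ => Seg (fun ω => cexp (ξ * (ω - c)) * k ω) a b := by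
  set k' : ℝ → ℂ := fun t => k (a + (projIcc (0:ℝ) 1 zero_le_one t : ℝ) * (b - a)) with hk'
  have hc : Continuous k' :=
    hk.comp_continuous (f := fun t : ℝ => a + (projIcc (0:ℝ) 1 zero_le_one t : ℝ) * (b - a))
      (by fun_prop) fun t => seg_mem hS ha hb (projIcc (0:ℝ) 1 zero_le_one t).2
  have e : (fun ξ => Seg (fun ω => cexp (ξ * (ω - c)) * k ω) a b) = fun ξ =>
      ∫ t in (0:ℝ)..1, cexp (ξ * (a + t * (b - a) - c)) * (k' t * (b - a)) := by
    funext ξ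
    apply intervalIntegral.integral_congr
    intro t ht
    rw [uIcc_of_le zero_le_one] at ht
    simp only [hk', projIcc_of_mem zero_le_one ht, mul_assoc]
  rw [e]
  intro ξ
  refine (hasDerivAt_int (F := fun ξ t => cexp (ξ * (a + t * (b - a) - c)) * (k' t * (b - a)))
    (F' := fun ξ t => cexp (ξ * (a + t * (b - a) - c)) * (1 * (a + t * (b - a) - c)) *
      (k' t * (b - a))) isOpen_univ (mem_univ ξ) 0 1 (fun _ _ => by fun_prop) ?_
    ?_).differentiableAt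
  · apply Continuous.continuousOn
    unfold Function.uncurry
    fun_prop
  · intro x _ t
    exact (((hasDerivAt_id x).mul_const _).cexp).mul_const _

lemma Seg_coef (hK : HK lam) (n : ℕ) {c : ℂ} (hc : 0 < c.re) :
    Seg (fun ω => cexp (n * ω) * Kl lam ω) c (c + 2 * π * I) = 2 * π * I * lam n := by
  have h0 : 0 < Real.exp (-c.re) := Real.exp_pos _
  have h := av_coef hK n h0 (Real.exp_lt_one_iff.2 (by linarith))
  rw [circleAverage_eq_integral_add (-c.im - 2 * π),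
    intervalIntegral.integral_comp_add_right
      (fun θ => (∑' m, lam m * circleMap 0 (Real.exp (-c.re)) θ ^ m) /
        circleMap 0 (Real.exp (-c.re)) θ ^ n)] at h
  have h2 := intervalIntegral.integral_comp_sub_mul (a := 0) (b := 1) (c := 2 * π)
    (fun θ => (∑' m, lam m * circleMap 0 (Real.exp (-c.re)) θ ^ m) /
        circleMap 0 (Real.exp (-c.re)) θ ^ n) (by positivity) (-c.im)
  rw [show -c.im - 2 * π * 1 = 0 + (-c.im - 2 * π) by ring,
    show -c.im - 2 * π * 0 = 2 * π + (-c.im - 2 * π) by ring, h] at h2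
  rw [← h2, Seg, ← intervalIntegral.integral_const_mul]
  congr 1
  funext t
  have e : circleMap 0 (Real.exp (-c.re)) (-c.im - 2 * π * t) =
      cexp (-(c + t * (c + 2 * π * I - c))) := by
    simp only [circleMap, zero_add]
    push_cast
    rw [← Complex.exp_add]; congr 1
    conv_rhs => rw [← re_add_im c]
    ring
  rw [e, Kl, Kf, ← Complex.exp_nat_mul, mul_neg, Complex.exp_neg (n * _)]
  field_simp
  ring

end Pool.Agent.Lib.MP_b4c8d9_an
end

-- part Pool.Agent.Lib.MP_b4c8d9_an.Move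
section

/-! Moving the base point of the approximate continuation. -/

namespace Pool.Agent.Lib.MP_b4c8d9_an

open Complex Real Metric Set Filter Topology MeasureTheory

variable {lam : ℕ → ℂ}

lemma chain {f : ℂ → ℂ} {S : Set ℂ} (hS : Convex ℝ S) {h C : ℝ} (hh : 0 < h)
    (hl : ∀ b₁ ∈ S, ∀ b₂ ∈ S, ‖b₂ - b₁‖ ≤ h → ‖f b₂ - f b₁‖ ≤ C * ‖b₂ - b₁‖)
    {b₁ b₂ : ℂ} (h1 : b₁ ∈ S) (h2 : b₂ ∈ S) : ‖f b₂ - f b₁‖ ≤ C * ‖b₂ - b₁‖ := by
  have key : ∀ n : ℕ, ∀ b₁ ∈ S, ‖b₂ - b₁‖ ≤ n * h → ‖f b₂ - f b₁‖ ≤ C * ‖b₂ - b₁‖ := by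
    intro n
    induction n with
    | zero => intro b₁ h1 hn; exact hl b₁ h1 b₂ h2 (by simp at hn ⊢; simp [hn, hh.le])
    | succ n ih =>
      intro b₁ h1 hn
      by_cases hc : ‖b₂ - b₁‖ ≤ h
      · exact hl b₁ h1 b₂ h2 hc
      push Not at hc
      have h0 : 0 < ‖b₂ - b₁‖ := hh.trans hc
      have ht : h / ‖b₂ - b₁‖ ∈ Icc (0:ℝ) 1 := ⟨by positivity, (div_le_one h0).2 hc.le⟩
      have hm := seg_mem hS h1 h2 ht
      set b := b₁ + ((h / ‖b₂ - b₁‖ : ℝ) : ℂ) * (b₂ - b₁) with hb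
      have e1 : ‖b - b₁‖ = h := by
        rw [hb, add_sub_cancel_left, norm_mul, Complex.norm_real, Real.norm_eq_abs,
          abs_of_nonneg ht.1]
        field_simp
      have e2 : ‖b₂ - b‖ = ‖b₂ - b₁‖ - h := by
        have : b₂ - b = ((1 - h / ‖b₂ - b₁‖ : ℝ) : ℂ) * (b₂ - b₁) := by rw [hb]; push_cast; ring
        rw [this, norm_mul, Complex.norm_real, Real.norm_eq_abs, abs_of_nonneg (by linarith [ht.2])]
        field_simp
      have h3 := ih b hm (by rw [e2]; push_cast at hn; linarith)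
      have h4 := hl b₁ h1 b hm e1.le
      have h5 := norm_sub_le_norm_sub_add_norm_sub (f b₂) (f b) (f b₁)
      rw [e1] at h4
      rw [e2] at h3
      linarith
  obtain ⟨n, hn⟩ := exists_nat_ge (‖b₂ - b₁‖ / h)
  exact key n b₁ h1 (by rwa [div_le_iff₀ hh] at hn)

noncomputable def cb (b : ℂ) : ℂ := b - (b.re / 64 : ℝ)

@[simp] lemma cb_re (b : ℂ) : (cb b).re = b.re - b.re / 64 := by simp [cb]

@[simp] lemma cb_im (b : ℂ) : (cb b).im = b.im := by simp [cb]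

noncomputable def Lam (lam : ℕ → ℂ) (α : ℝ) (W : ℂ → ℂ) (b ω : ℂ) : ℂ :=
  Seg (fun z => W z * Kl lam z) 1 (cb b) + Seg (fun z => W z * Gl lam α b z) (cb b) ω

/-- The cone in which the kernel is small. -/
def Cone (d D : ℝ) (τ : ℂ) : Prop := d ≤ τ.re ∧ τ.re ≤ D ∧ |τ.im| ≤ 8 * τ.re

lemma cone_seg {d D : ℝ} {b ω₁ ω₂ : ℂ} (h1 : Cone d D (b - ω₁)) (h2 : Cone d D (b - ω₂)) {t : ℝ}
    (ht : t ∈ Icc (0:ℝ) 1) : Cone d D (b - (ω₁ + t * (ω₂ - ω₁))) := by
  have e : b - (ω₁ + t * (ω₂ - ω₁)) = ((1 - t : ℝ) : ℂ) * (b - ω₁) + t * (b - ω₂) := by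
    push_cast; ring
  obtain ⟨a1, a2, a3⟩ := h1
  obtain ⟨b1, b2, b3⟩ := h2
  have t1 := ht.1
  have t2 : 0 ≤ 1 - t := by linarith [ht.2]
  rw [e, Cone, add_re, add_im, re_ofReal_mul, re_ofReal_mul, im_ofReal_mul, im_ofReal_mul]
  rw [abs_le] at a3 b3 ⊢
  refine ⟨?_, ?_, ?_, ?_⟩
  · nlinarith [mul_le_mul_of_nonneg_left a1 t2, mul_le_mul_of_nonneg_left b1 t1]
  · nlinarith [mul_le_mul_of_nonneg_left a2 t2, mul_le_mul_of_nonneg_left b2 t1]
  · nlinarith [mul_le_mul_of_nonneg_left a3.1 t2, mul_le_mul_of_nonneg_left b3.1 t1]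
  · nlinarith [mul_le_mul_of_nonneg_left a3.2 t2, mul_le_mul_of_nonneg_left b3.2 t1]

lemma cone_norm {d D : ℝ} {τ : ℂ} (hd : 0 ≤ d) (h : Cone d D τ) : ‖τ‖ ≤ 9 * D := by
  have := Complex.norm_le_abs_re_add_abs_im τ
  rw [abs_of_nonneg (hd.trans h.1)] at this
  linarith [h.2.1, h.2.2]

lemma cone_exp {d D A : ℝ} {τ : ℂ} (hd : 0 < d) (hD : D ≤ 2) (hA : 0 ≤ A) (h : Cone d D τ) :
    Real.exp (-(A * P (cexp (-τ)))) ≤ Real.exp (-(A / (200 * τ.re))) := by
  have := mul_le_mul_of_nonneg_left (P_cone (hd.trans_le h.1) (h.2.1.trans hD) h.2.2) hA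
  rw [mul_one_div] at this
  exact Real.exp_le_exp.2 (by linarith)

lemma WG_diff (hK : HK lam) (α : ℝ) {W : ℂ → ℂ} (hW : Differentiable ℂ W) {b : ℂ} (hb : 0 < b.re) :
    DifferentiableOn ℂ (fun z => W z * Gl lam α b z) {ω : ℂ | ω.re < b.re} :=
  hW.differentiableOn.mul (Gl_diff hK α hb)

lemma WK_diff (hK : HK lam) {W : ℂ → ℂ} (hW : Differentiable ℂ W) :
    DifferentiableOn ℂ (fun z => W z * Kl lam z) {ω : ℂ | 0 < ω.re} :=
  hW.differentiableOn.mul (Kl_diff hK)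

lemma move (hK : HK lam) {B α ℓ s D δW : ℝ} (hB : ∀ n, ‖lam n‖ ≤ B) (hα : 0 ≤ α) (hs : 0 < s)
    (hD : D ≤ 2) {W : ℂ → ℂ} (hW : Differentiable ℂ W) {S : Set ℂ} (hS : Convex ℝ S) {ω : ℂ}
    (h1 : ∀ b ∈ S, s ≤ b.re ∧ b.re ≤ 1 ∧ b.re ≤ D) (h2 : ∀ b ∈ S, Good lam α ℓ (cexp (-b)))
    (h3 : ∀ b ∈ S, Cone (b.re / 64) D (b - ω))
    (h4 : ∀ b ∈ S, ∀ τ : ℂ, Cone (s / 128) D τ →
      ‖W (b - τ)‖ * Real.exp (-(α / (200 * τ.re))) ≤ δW)
    {b₁ b₂ : ℂ} (hb₁ : b₁ ∈ S) (hb₂ : b₂ ∈ S) :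
    ‖Lam lam α W b₂ ω - Lam lam α W b₁ ω‖ ≤
      δW * (64 * B / s ^ 2 + 19 * (8 * α / (s / 128) ^ 2 * Real.exp ℓ)) * ‖b₂ - b₁‖ := by
  have hB0 : 0 ≤ B := (norm_nonneg _).trans (hB 0)
  refine chain (f := fun b => Lam lam α W b ω) hS (h := s / 512) (by positivity) ?_ hb₁ hb₂
  intro b₁ hb₁ b₂ hb₂ hh
  obtain ⟨a1, a2, a3⟩ := h1 b₁ hb₁
  obtain ⟨b1, b2, b3⟩ := h1 b₂ hb₂
  have hre : |b₂.re - b₁.re| ≤ ‖b₂ - b₁‖ := by simpa using Complex.abs_re_le_norm (b₂ - b₁)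
  have hre' := abs_le.1 (hre.trans hh)
  have hω1 : ω.re < b₁.re := by have := (h3 b₁ hb₁).1; rw [sub_re] at this; linarith
  have hω2 : ω.re < b₂.re := by have := (h3 b₂ hb₂).1; rw [sub_re] at this; linarith
  have hδ : 0 ≤ δW := le_trans (by positivity)
    (h4 b₁ hb₁ ((s / 128 : ℝ) : ℂ) ⟨by simp, by simp; linarith, by simp; linarith⟩)
  have e1 := Seg_add_right (WK_diff hK hW) (a := 1) (b := cb b₁) (c := cb b₂) (by simp)
    (by simp; linarith) (by simp; linarith)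
  have e2 := Seg_add_left (WG_diff hK α hW (b := b₂) (by linarith)) (a := cb b₁) (b := cb b₂)
    (c := ω) (by simp; linarith [hre'.1]) (by simp; linarith) hω2
  have hT1 : Convex ℝ ({z : ℂ | 0 < z.re} ∩ {z : ℂ | z.re < b₂.re}) :=
    (convex_halfSpace_re_gt 0).inter (convex_halfSpace_re_lt _)
  have hT2 : Convex ℝ ({z : ℂ | z.re < b₂.re} ∩ {z : ℂ | z.re < b₁.re}) :=
    (convex_halfSpace_re_lt _).inter (convex_halfSpace_re_lt _)
  have e3 := Seg_sub hT1 (a := cb b₁) (b := cb b₂)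
    ⟨by simp; linarith, by simp; linarith [hre'.1]⟩ ⟨by simp; linarith, by simp; linarith⟩
    ((WK_diff hK hW).continuousOn.mono inter_subset_left)
    ((WG_diff hK α hW (b := b₂) (by linarith)).continuousOn.mono inter_subset_right)
  have e4 := Seg_sub hT2 (a := cb b₁) (b := ω)
    ⟨by simp; linarith [hre'.1], by simp; linarith⟩ ⟨hω2, hω1⟩
    ((WG_diff hK α hW (b := b₂) (by linarith)).continuousOn.mono inter_subset_left)
    ((WG_diff hK α hW (b := b₁) (by linarith)).continuousOn.mono inter_subset_right)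
  have e : Lam lam α W b₂ ω - Lam lam α W b₁ ω =
      Seg (fun z => W z * Kl lam z - W z * Gl lam α b₂ z) (cb b₁) (cb b₂) +
      Seg (fun z => W z * Gl lam α b₂ z - W z * Gl lam α b₁ z) (cb b₁) ω := by
    rw [← e3, ← e4, Lam, Lam, ← e1, ← e2]; ring
  have hc : ‖cb b₂ - cb b₁‖ ≤ 2 * ‖b₂ - b₁‖ := by
    have : cb b₂ - cb b₁ = (b₂ - b₁) - (((b₂.re - b₁.re) / 64 : ℝ) : ℂ) := by
      simp only [cb]; push_cast; ring
    rw [this]
    refine (norm_sub_le _ _).trans ?_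
    rw [Complex.norm_real, Real.norm_eq_abs, abs_div, abs_of_pos (by norm_num : (0:ℝ) < 64)]
    linarith [abs_nonneg (b₂.re - b₁.re)]
  have A1 : ‖Seg (fun z => W z * Kl lam z - W z * Gl lam α b₂ z) (cb b₁) (cb b₂)‖ ≤
      δW * (32 * B / s ^ 2) * ‖cb b₂ - cb b₁‖ := by
    apply Seg_norm_le
    intro t ht
    set z := cb b₁ + t * (cb b₂ - cb b₁) with hz
    have e5 : b₂ - z = ((b₂.re / 64 : ℝ) : ℂ) + ((1 - t : ℝ) : ℂ) * (cb b₂ - cb b₁) := by
      rw [hz]; simp only [cb]; push_cast; ring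
    have h5 : ‖((1 - t : ℝ) : ℂ) * (cb b₂ - cb b₁)‖ ≤ b₂.re / 256 := by
      rw [norm_mul, Complex.norm_real, Real.norm_eq_abs, abs_of_nonneg (by linarith [ht.2])]
      have : (1 - t) * ‖cb b₂ - cb b₁‖ ≤ 1 * ‖cb b₂ - cb b₁‖ := by gcongr; linarith [ht.1]
      linarith
    generalize ((1 - t : ℝ) : ℂ) * (cb b₂ - cb b₁) = η at e5 h5
    have h6 := abs_le.1 ((Complex.abs_re_le_norm η).trans h5)
    have h7 := (Complex.abs_im_le_norm η).trans h5
    have h8 : (b₂ - z).re = b₂.re / 64 + η.re := by rw [e5]; simp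
    have h9 : (b₂ - z).im = η.im := by rw [e5]; simp
    have h10 : ‖b₂ - z‖ ≤ 3 * b₂.re / 128 := by
      rw [e5]
      refine (norm_add_le _ _).trans ?_
      rw [Complex.norm_real, Real.norm_eq_abs, abs_of_pos (by linarith)]
      linarith
    have h11 := Kl_sub_Gl hK hB hα (b := b₂) (ω := z) (by linarith) b2 (by rw [h8]; linarith) h10
    have h12 := h4 b₂ hb₂ (b₂ - z) ⟨by rw [h8]; linarith, by rw [h8]; linarith,
      by rw [h8, h9]; linarith⟩
    rw [sub_sub_cancel] at h12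
    have h13 : Real.exp (-(α * (6 / b₂.re))) ≤ Real.exp (-(α / (200 * (b₂ - z).re))) := by
      apply Real.exp_le_exp.2
      rw [neg_le_neg_iff, div_eq_mul_one_div]
      refine mul_le_mul_of_nonneg_left ?_ hα
      rw [div_le_div_iff₀ (by rw [h8]; linarith) (by linarith), h8]
      linarith
    rw [← mul_sub, norm_mul]
    calc ‖W z‖ * ‖Kl lam z - Gl lam α b₂ z‖
        ≤ ‖W z‖ * (32 * B / s ^ 2 * Real.exp (-(α / (200 * (b₂ - z).re)))) := by
          gcongr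
          refine h11.trans ?_
          gcongr
      _ = ‖W z‖ * Real.exp (-(α / (200 * (b₂ - z).re))) * (32 * B / s ^ 2) := by ring
      _ ≤ _ := by gcongr
  have A2 : ‖Seg (fun z => W z * Gl lam α b₂ z - W z * Gl lam α b₁ z) (cb b₁) ω‖ ≤
      δW * (8 * α / (s / 128) ^ 2 * Real.exp ℓ) * ‖b₂ - b₁‖ * ‖ω - cb b₁‖ := by
    apply Seg_norm_le
    intro t ht
    set z := cb b₁ + t * (ω - cb b₁) with hz
    rw [← mul_sub, norm_mul]
    by_cases hW0 : ‖W z‖ = 0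
    · rw [hW0, zero_mul]; positivity
    have hW1 : 0 < ‖W z‖ := (norm_nonneg _).lt_of_ne' hW0
    have hcone : ∀ b ∈ S ∩ closedBall b₁ (s / 512), Cone (s / 128) D (b - z) := by
      intro b hb
      have h5 : ‖b - b₁‖ ≤ s / 512 := by simpa [dist_eq_norm] using hb.2
      have h6 := abs_le.1 ((Complex.abs_re_le_norm (b - b₁)).trans h5)
      have h7 := (Complex.abs_im_le_norm (b - b₁)).trans h5
      rw [sub_re] at h6
      rw [sub_im] at h7
      apply cone_seg _ _ ht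
      · refine ⟨by simp; linarith, by simp; linarith, ?_⟩
        simp only [sub_im, cb_im, sub_re, cb_re]; linarith
      · obtain ⟨c1, c2, c3⟩ := h3 b hb.1
        exact ⟨by linarith [(h1 b hb.1).1], c2, c3⟩
    have h5 := Gl_lip hK (ℓ := ℓ) (d := s / 128) (E := δW / ‖W z‖) hα (by positivity) (by linarith)
      (ω := z) (hS.inter (convex_closedBall b₁ (s / 512)))
      (fun b hb => by linarith [(h1 b hb.1).1]) (fun b hb => (hcone b hb).1)
      (fun b hb => h2 b hb.1)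
      (fun b hb => by
        have h6 := h4 b hb.1 _ (hcone b hb)
        rw [sub_sub_cancel] at h6
        rw [le_div_iff₀ hW1, mul_comm]
        exact le_trans (mul_le_mul_of_nonneg_left
          (cone_exp (by positivity) hD hα (hcone b hb)) hW1.le) h6)
      (b₁ := b₁) (b₂ := b₂) ⟨hb₁, mem_closedBall_self (by positivity)⟩
      ⟨hb₂, by simpa [dist_eq_norm] using hh⟩
    calc ‖W z‖ * ‖Gl lam α b₂ z - Gl lam α b₁ z‖
        ≤ ‖W z‖ * (8 * α / (s / 128) ^ 2 * (δW / ‖W z‖) * Real.exp ℓ * ‖b₂ - b₁‖) := by gcongr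
      _ = _ := by field_simp
  have hl : ‖ω - cb b₁‖ ≤ 19 := by
    have h5 := cone_norm (by linarith) (h3 b₁ hb₁)
    have : ω - cb b₁ = -(b₁ - ω) + ((b₁.re / 64 : ℝ) : ℂ) := by simp only [cb]; ring
    rw [this]
    refine (norm_add_le _ _).trans ?_
    rw [norm_neg, Complex.norm_real, Real.norm_eq_abs, abs_of_pos (by linarith)]
    linarith
  rw [e]
  calc _ ≤ δW * (32 * B / s ^ 2) * (2 * ‖b₂ - b₁‖) +
        δW * (8 * α / (s / 128) ^ 2 * Real.exp ℓ) * ‖b₂ - b₁‖ * 19 := by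
        refine (norm_add_le _ _).trans (add_le_add (A1.trans ?_) (A2.trans ?_)) <;> gcongr
    _ = _ := by ring

lemma Lam_omega (hK : HK lam) (α : ℝ) {W : ℂ → ℂ} (hW : Differentiable ℂ W) {b ω₁ ω₂ : ℂ}
    (hb : 0 < b.re) (h1 : ω₁.re < b.re) (h2 : ω₂.re < b.re) :
    Lam lam α W b ω₂ - Lam lam α W b ω₁ = Seg (fun z => W z * Gl lam α b z) ω₁ ω₂ := by
  rw [Lam, Lam, ← Seg_add_left (WG_diff hK α hW hb) (a := cb b) (b := ω₁) (c := ω₂)
    (by simp; linarith) h1 h2]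
  ring

noncomputable def Af (lam : ℕ → ℂ) (α : ℝ) (W : ℂ → ℂ) (θ s ϑ : ℝ) (ω : ℂ) : ℂ :=
  Lam lam α W (bp θ s ϑ) ω - Lam lam α W (bp θ s (-ϑ)) ω

lemma Af_omega (hK : HK lam) {α A θ s ϑ x D Λ δW : ℝ} {W : ℂ → ℂ} (hW : Differentiable ℂ W)
    (hs : 0 < s) (hx : 0 < x) (hD : D ≤ 2) (hA : 0 ≤ A)
    (hDf : ∀ u : ℂ, ‖u‖ ≤ Real.exp (-x) → ‖Df lam α θ s ϑ u‖ ≤ Real.exp (Λ - A * P u))
    (h4 : ∀ τ : ℂ, Cone x D τ → ‖W (bp θ s 0 - τ)‖ * Real.exp (-(A / (200 * τ.re))) ≤ δW)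
    {ω₁ ω₂ : ℂ} (h1 : Cone x D (bp θ s 0 - ω₁)) (h2 : Cone x D (bp θ s 0 - ω₂)) :
    ‖Af lam α W θ s ϑ ω₂ - Af lam α W θ s ϑ ω₁‖ ≤ δW * Real.exp Λ * 36 := by
  have a1 : ω₁.re < s := by have := h1.1; simp at this; linarith
  have a2 : ω₂.re < s := by have := h2.1; simp at this; linarith
  have e1 := Lam_omega hK α hW (b := bp θ s ϑ) (ω₁ := ω₁) (ω₂ := ω₂) (by simpa using hs)
    (by simpa using a1) (by simpa using a2)
  have e2 := Lam_omega hK α hW (b := bp θ s (-ϑ)) (ω₁ := ω₁) (ω₂ := ω₂) (by simpa using hs)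
    (by simpa using a1) (by simpa using a2)
  have e3 := Seg_sub (convex_halfSpace_re_lt s) a1 a2
    (by simpa using (WG_diff hK α hW (b := bp θ s (-ϑ)) (by simpa using hs)).continuousOn)
    (by simpa using (WG_diff hK α hW (b := bp θ s ϑ) (by simpa using hs)).continuousOn)
  have e : Af lam α W θ s ϑ ω₂ - Af lam α W θ s ϑ ω₁ =
      -Seg (fun z => W z * Gl lam α (bp θ s (-ϑ)) z - W z * Gl lam α (bp θ s ϑ) z) ω₁ ω₂ := by
    rw [← e3, ← e1, ← e2, Af, Af]; ring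
  have hδ : 0 ≤ δW := le_trans (by positivity) (h4 _ h1)
  rw [e, norm_neg]
  refine (Seg_norm_le (C := δW * Real.exp Λ) fun t ht => ?_).trans ?_
  · have h5 := cone_seg h1 h2 ht
    set z := ω₁ + t * (ω₂ - ω₁)
    have h6 := h4 _ h5
    rw [sub_sub_cancel] at h6
    have h7 := hDf (cexp (-(bp θ s 0 - z)))
      (by rw [norm_exp_neg]; exact Real.exp_le_exp.2 (by linarith [h5.1]))
    rw [Df_eq, sub_eq_add_neg Λ, Real.exp_add] at h7
    have h8 := cone_exp hx hD hA h5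
    rw [← mul_sub, norm_mul]
    calc ‖W z‖ * ‖Gl lam α (bp θ s (-ϑ)) z - Gl lam α (bp θ s ϑ) z‖
        ≤ ‖W z‖ * (Real.exp Λ * Real.exp (-(A / (200 * (bp θ s 0 - z).re)))) := by
          gcongr; exact h7.trans (by gcongr)
      _ = ‖W z‖ * Real.exp (-(A / (200 * (bp θ s 0 - z).re))) * Real.exp Λ := by ring
      _ ≤ _ := by gcongr
  · have h5 := cone_norm hx.le h1
    have h6 := cone_norm hx.le h2
    have h7 : ‖ω₂ - ω₁‖ ≤ 36 := by
      have : ω₂ - ω₁ = (bp θ s 0 - ω₁) - (bp θ s 0 - ω₂) := by ring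
      rw [this]
      linarith [norm_sub_le (bp θ s 0 - ω₁) (bp θ s 0 - ω₂)]
    gcongr

lemma gaps {f : ℝ → ℂ} {ϑ C a : ℝ} (hϑ : 0 ≤ ϑ) (hC : 0 ≤ C) (Θ : Finset ℝ) :
    ∀ b : ℝ, a ≤ b → (∀ θ ∈ Θ, a ≤ θ - ϑ ∧ θ + ϑ ≤ b) →
    (∀ θ ∈ Θ, ∀ θ' ∈ Θ, θ < θ' → θ + ϑ ≤ θ' - ϑ) →
    (∀ u v, a ≤ u → u ≤ v → v ≤ b → (∀ β ∈ Icc u v, ∀ θ ∈ Θ, ϑ ≤ |β - θ|) →
      ‖f v - f u‖ ≤ C * (v - u)) →
    ‖f b - f a - ∑ θ ∈ Θ, (f (θ + ϑ) - f (θ - ϑ))‖ ≤ C * (b - a) := by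
  induction Θ using Finset.induction_on_max with
  | empty =>
    intro b hab _ _ h
    simpa using h a b le_rfl hab le_rfl (by simp)
  | insert m Θ hm ih =>
    intro b hab h1 h2 h3
    have hmm := h1 m (Finset.mem_insert_self _ _)
    have h4 : ∀ θ ∈ Θ, θ + ϑ ≤ m - ϑ := fun θ hθ =>
      h2 θ (Finset.mem_insert_of_mem hθ) m (Finset.mem_insert_self _ _) (hm θ hθ)
    have h5 := ih (m - ϑ) hmm.1
      (fun θ hθ => ⟨(h1 θ (Finset.mem_insert_of_mem hθ)).1, h4 θ hθ⟩)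
      (fun θ hθ θ' hθ' => h2 θ (Finset.mem_insert_of_mem hθ) θ' (Finset.mem_insert_of_mem hθ'))
      (fun u v hu huv hv h => h3 u v hu huv (by linarith [hmm.2]) fun β hβ θ hθ => by
        rcases Finset.mem_insert.1 hθ with rfl | hθ
        · rw [abs_sub_comm]; exact le_trans (by linarith [hβ.2]) (le_abs_self _)
        · exact h β hβ θ hθ)
    have h6 := h3 (m + ϑ) b (by linarith [hmm.1]) hmm.2 le_rfl fun β hβ θ hθ => by
      refine le_trans ?_ (le_abs_self _)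
      rcases Finset.mem_insert.1 hθ with rfl | hθ
      · linarith [hβ.1]
      · linarith [hβ.1, h4 θ hθ]
    rw [Finset.sum_insert fun h => lt_irrefl _ (hm m h)]
    have e : f b - f a - (f (m + ϑ) - f (m - ϑ) + ∑ θ ∈ Θ, (f (θ + ϑ) - f (θ - ϑ))) =
        (f b - f (m + ϑ)) + (f (m - ϑ) - f a - ∑ θ ∈ Θ, (f (θ + ϑ) - f (θ - ϑ))) := by ring
    rw [e]
    refine (norm_add_le _ _).trans ?_
    nlinarith [mul_nonneg hC hϑ]

end Pool.Agent.Lib.MP_b4c8d9_an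
end

-- part Pool.Agent.Lib.MP_b4c8d9_an.Raw
section

/-! The three estimates on the local symbols, with explicit parameters. -/

namespace Pool.Agent.Lib.MP_b4c8d9_an

open Complex Real Metric Set Filter Topology MeasureTheory

variable {lam : ℕ → ℂ}

noncomputable def Wx (θ : ℝ) (ξ ω : ℂ) : ℂ := cexp (ξ * (ω - θ * I))

lemma Wx_diff (θ : ℝ) (ξ : ℂ) : Differentiable ℂ (Wx θ ξ) := by
  unfold Wx; fun_prop

lemma Wx_norm {θ r : ℝ} {ξ ω : ℂ} (h : ‖ω - θ * I‖ ≤ r) : ‖Wx θ ξ ω‖ ≤ Real.exp (‖ξ‖ * r) := by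
  rw [Wx, Complex.norm_exp]
  refine Real.exp_le_exp.2 ((re_le_norm _).trans ?_)
  rw [norm_mul]; gcongr

/-- The local symbol (up to the factor `2 π i`). -/
noncomputable def Sy (lam : ℕ → ℂ) (α θ s ϑ x : ℝ) (ξ : ℂ) : ℂ :=
  Af lam α (Wx θ ξ) θ s ϑ (θ * I - x)

lemma Sy_eq (hK : HK lam) (α θ ϑ x : ℝ) {s : ℝ} (hs : 0 < s) (ξ : ℂ) :
    Sy lam α θ s ϑ x ξ =
      Seg (fun z => Wx θ ξ z * Kl lam z) (cb (bp θ s (-ϑ))) (cb (bp θ s ϑ)) +
      Seg (fun z => Wx θ ξ z * Gl lam α (bp θ s ϑ) z) (cb (bp θ s ϑ)) (θ * I - x) -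
      Seg (fun z => Wx θ ξ z * Gl lam α (bp θ s (-ϑ)) z) (cb (bp θ s (-ϑ))) (θ * I - x) := by
  rw [Sy, Af, Lam, Lam, ← Seg_add_right (WK_diff hK (Wx_diff θ ξ)) (a := 1)
    (b := cb (bp θ s (-ϑ))) (c := cb (bp θ s ϑ)) (by simp) (by simp; linarith) (by simp; linarith)]
  ring

lemma Sy_diff (hK : HK lam) (α θ ϑ : ℝ) {s x : ℝ} (hs : 0 < s) (hx : 0 < x) :
    Differentiable ℂ (Sy lam α θ s ϑ x) := by
  rw [funext (Sy_eq hK α θ ϑ x hs)]
  have h : ∀ v : ℝ, Differentiable ℂ fun ξ =>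
      Seg (fun z => Wx θ ξ z * Gl lam α (bp θ s v) z) (cb (bp θ s v)) (θ * I - x) := fun v =>
    Seg_entire (convex_halfSpace_re_lt (bp θ s v).re) (by simp; linarith) (by simp; linarith)
      (Gl_diff hK α (by simpa using hs)).continuousOn _
  exact ((Seg_entire (convex_halfSpace_re_gt 0) (by simp; linarith) (by simp; linarith)
    (Kl_diff hK).continuousOn _).add (h ϑ)).sub (h (-ϑ))

lemma norm_le_re_im {z : ℂ} {a b : ℝ} (h1 : |z.re| ≤ a) (h2 : |z.im| ≤ b) : ‖z‖ ≤ a + b :=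
  (Complex.norm_le_abs_re_add_abs_im z).trans (add_le_add h1 h2)

lemma Sy_bound (hK : HK lam) {B α ℓ θ s ϑ x : ℝ} (hB : ∀ n, ‖lam n‖ ≤ B) (hα : 0 ≤ α) (hs : 0 < s)
    (h1 : s ≤ ϑ) (h2 : ϑ ≤ x) (h3 : x ≤ 1 / 3)
    (hG : ∀ v, |v| = ϑ → Good lam α ℓ (cexp (-bp θ s v))) (ξ : ℂ) :
    ‖Sy lam α θ s ϑ x ξ‖ ≤ Real.exp (‖ξ‖ * (2 * x)) * (4 * B / s + 1024 / s * Real.exp ℓ) := by
  have hB0 : 0 ≤ B := (norm_nonneg _).trans (hB 0)
  have hc : ∀ v, |v| = ϑ → cb (bp θ s v) ∈ closedBall ((θ : ℂ) * I) (2 * x) := by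
    intro v hv
    rw [mem_closedBall, dist_eq_norm]
    refine (norm_le_re_im (a := x) (b := x) ?_ ?_).trans (by linarith)
    · simp; rw [abs_le]; constructor <;> linarith
    · simp; linarith
  have hω : (θ : ℂ) * I - x ∈ closedBall ((θ : ℂ) * I) (2 * x) := by
    rw [mem_closedBall, dist_eq_norm]; simp; rw [abs_of_pos (by linarith)]; linarith
  have hW : ∀ z ∈ closedBall ((θ : ℂ) * I) (2 * x), ‖Wx θ ξ z‖ ≤ Real.exp (‖ξ‖ * (2 * x)) :=
    fun z hz => Wx_norm (by rwa [mem_closedBall, dist_eq_norm] at hz)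
  have p1 : |ϑ| = ϑ := abs_of_pos (by linarith)
  have p2 : |-ϑ| = ϑ := by rw [abs_neg, p1]
  have A1 : ‖Seg (fun z => Wx θ ξ z * Kl lam z) (cb (bp θ s (-ϑ))) (cb (bp θ s ϑ))‖ ≤
      Real.exp (‖ξ‖ * (2 * x)) * (4 * B / s) := by
    refine (Seg_norm_le (C := Real.exp (‖ξ‖ * (2 * x)) * (4 * B / s)) fun t ht => ?_).trans ?_
    · rw [norm_mul]
      refine mul_le_mul (hW _ (seg_mem (convex_closedBall _ _) (hc _ p2) (hc _ p1) ht))
        ((Kl_bound hB (d := s / 2) (by positivity) (by linarith) ?_).trans (le_of_eq ?_))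
        (norm_nonneg _) (by positivity)
      · exact seg_mem (convex_halfSpace_re_ge (s / 2)) (by simp; linarith) (by simp; linarith) ht
      · field_simp; ring
    · apply mul_le_of_le_one_right (by positivity)
      refine (norm_le_re_im (a := 0) (b := 1) (by simp) ?_).trans (by linarith)
      simp; rw [abs_le]; constructor <;> linarith
  have A2 : ∀ v, |v| = ϑ →
      ‖Seg (fun z => Wx θ ξ z * Gl lam α (bp θ s v) z) (cb (bp θ s v)) (θ * I - x)‖ ≤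
      Real.exp (‖ξ‖ * (2 * x)) * (512 / s * Real.exp ℓ) := by
    intro v hv
    refine (Seg_norm_le (C := Real.exp (‖ξ‖ * (2 * x)) * (512 / s * Real.exp ℓ))
      fun t ht => ?_).trans ?_
    · rw [norm_mul]
      refine mul_le_mul (hW _ (seg_mem (convex_closedBall _ _) (hc _ hv) hω ht))
        ((Gl_bound hK hα (d := s / 64) (by positivity) (by linarith) (by simpa using hs) ?_
          (hG v hv)).trans (le_of_eq ?_)) (norm_nonneg _) (by positivity)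
      · have := seg_mem (convex_halfSpace_re_le (s - s / 64)) (a := cb (bp θ s v))
          (b := θ * I - x) (by simp) (by simp; linarith) ht
        rw [sub_re, bp_re]
        have h4 : (cb (bp θ s v) + t * (θ * I - x - cb (bp θ s v))).re ≤ s - s / 64 := this
        linarith
      · field_simp; ring
    · apply mul_le_of_le_one_right (by positivity)
      refine (norm_le_re_im (a := 2 / 3) (b := 1 / 3) ?_ ?_).trans (by linarith)
      · simp; rw [abs_le]; constructor <;> linarith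
      · simp; linarith
  rw [Sy_eq hK α θ ϑ x hs]
  refine (norm_sub_le _ _).trans ((add_le_add (norm_add_le _ _) le_rfl).trans ?_)
  have := A2 _ p1
  have := A2 _ p2
  calc _ ≤ Real.exp (‖ξ‖ * (2 * x)) * (4 * B / s) + Real.exp (‖ξ‖ * (2 * x)) * (512 / s * Real.exp ℓ)
      + Real.exp (‖ξ‖ * (2 * x)) * (512 / s * Real.exp ℓ) := by gcongr
    _ = _ := by ring

lemma side_convex (θ m x L σ : ℝ) :
    Convex ℝ {b : ℂ | m ≤ b.re ∧ b.re ≤ x ∧ L * b.re ≤ σ * (b.im - θ) ∧ σ * (b.im - θ) ≤ x} := by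
  intro z hz w hw a c ha hc hac
  obtain ⟨z1, z2, z3, z4⟩ := hz
  obtain ⟨w1, w2, w3, w4⟩ := hw
  obtain rfl : c = 1 - a := by linarith
  simp only [mem_ofPred_eq, add_re, add_im, smul_re, smul_im, smul_eq_mul]
  refine ⟨?_, ?_, ?_, ?_⟩
  · nlinarith [mul_le_mul_of_nonneg_left z1 ha, mul_le_mul_of_nonneg_left w1 hc]
  · nlinarith [mul_le_mul_of_nonneg_left z2 ha, mul_le_mul_of_nonneg_left w2 hc]
  · nlinarith [mul_le_mul_of_nonneg_left z3 ha, mul_le_mul_of_nonneg_left w3 hc]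
  · nlinarith [mul_le_mul_of_nonneg_left z4 ha, mul_le_mul_of_nonneg_left w4 hc]

noncomputable def Cm (B α s ℓ : ℝ) : ℝ := 64 * B / s ^ 2 + 19 * (8 * α / (s / 128) ^ 2 * Real.exp ℓ)

lemma Sy_cmp (hK : HK lam) {B b ℓ θ s ϑ x s' ϑ' x' m L Λ : ℝ} (hB : ∀ n, ‖lam n‖ ≤ B)
    (hm : 0 < m) (hL : 0 ≤ L) (h1 : m ≤ s) (h2 : m ≤ s') (h3 : s ≤ x) (h4 : s' ≤ x) (h5 : ϑ ≤ x)
    (h6 : ϑ' ≤ x) (h7 : L * s ≤ ϑ) (h8 : L * s' ≤ ϑ') (hx' : 0 < x') (h9 : x' ≤ x) (hx : x ≤ 1 / 3)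
    (hG : ∀ c : ℂ, m ≤ c.re → c.re ≤ x → L * c.re ≤ |c.im - θ| → |c.im - θ| ≤ x →
      Good lam (200000 * b ^ 2) ℓ (cexp (-c)))
    (hDf : ∀ u : ℂ, ‖u‖ ≤ Real.exp (-x') → ‖Df lam (200000 * b ^ 2) θ s' ϑ' u‖ ≤
      Real.exp (Λ - 200000 * b ^ 2 / 1000 * P u)) (ξ : ℂ) :
    ‖Sy lam (200000 * b ^ 2) θ s' ϑ' x' ξ - Sy lam (200000 * b ^ 2) θ s ϑ x ξ‖ ≤
      Real.exp (‖ξ‖ * (20 * x) - b ^ 2 / (2 * x)) *
        (36 * Real.exp Λ + 2 * Cm B (200000 * b ^ 2) m ℓ) := by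
  have hB0 : 0 ≤ B := (norm_nonneg _).trans (hB 0)
  have hx0 : 0 < x := hx'.trans_le h9
  have hWb : ∀ (c τ : ℂ) (d A : ℝ), 0 < d → 200 * b ^ 2 ≤ A → ‖c - θ * I‖ ≤ 2 * x →
      Cone d (2 * x) τ → ‖Wx θ ξ (c - τ)‖ * Real.exp (-(A / (200 * τ.re))) ≤
        Real.exp (‖ξ‖ * (20 * x) - b ^ 2 / (2 * x)) := by
    intro c τ d A hd hA hc hτ
    have a1 := cone_norm hd.le hτ
    have a2 : ‖c - τ - θ * I‖ ≤ 20 * x := by
      rw [sub_right_comm]; linarith [norm_sub_le (c - θ * I) τ]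
    have a3 : 0 < τ.re := hd.trans_le hτ.1
    have a4 : b ^ 2 / (2 * x) ≤ A / (200 * τ.re) := by
      rw [div_le_div_iff₀ (by positivity) (by positivity)]
      have := hτ.2.1
      calc b ^ 2 * (200 * τ.re) = 200 * b ^ 2 * τ.re := by ring
        _ ≤ A * (2 * x) := by gcongr; exact le_trans (by positivity) hA
    rw [sub_eq_add_neg (‖ξ‖ * _), Real.exp_add]
    exact mul_le_mul (Wx_norm a2) (Real.exp_le_exp.2 (by linarith)) (by positivity) (by positivity)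
  have A1 := Af_omega hK (D := 2 * x) (Wx_diff θ ξ) (hm.trans_le h2) hx' (by linarith)
    (by positivity) hDf
    (fun τ hτ => hWb _ τ _ _ hx' (by linarith) (by
      refine (norm_le_re_im (a := x) (b := x) ?_ ?_).trans (by linarith)
      · simp; rw [abs_le]; constructor <;> linarith
      · simp; linarith) hτ)
    (ω₁ := θ * I - x) (ω₂ := θ * I - x')
    ⟨by simp; linarith, by simp; linarith, by simp; linarith⟩
    ⟨by simp; linarith, by simp; linarith, by simp; linarith⟩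
  have A2 : ∀ σ : ℝ, |σ| = 1 →
      ‖Lam lam (200000 * b ^ 2) (Wx θ ξ) (bp θ s' (σ * ϑ')) (θ * I - x) -
        Lam lam (200000 * b ^ 2) (Wx θ ξ) (bp θ s (σ * ϑ)) (θ * I - x)‖ ≤
      Real.exp (‖ξ‖ * (20 * x) - b ^ 2 / (2 * x)) * Cm B (200000 * b ^ 2) m ℓ := by
    intro σ hσ
    have hσ2 : σ * σ = 1 := by rw [← abs_mul_abs_self, hσ, mul_one]
    have habs : ∀ c : ℂ, m ≤ c.re → L * c.re ≤ σ * (c.im - θ) → |c.im - θ| = σ * (c.im - θ) := by
      intro c a1 a2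
      have : 0 ≤ L * c.re := mul_nonneg hL (by linarith)
      rw [← abs_of_nonneg (this.trans a2), abs_mul, hσ, one_mul]
    have hmem : ∀ s₁ ϑ₁ : ℝ, m ≤ s₁ → s₁ ≤ x → ϑ₁ ≤ x → L * s₁ ≤ ϑ₁ → bp θ s₁ (σ * ϑ₁) ∈
        {b : ℂ | m ≤ b.re ∧ b.re ≤ x ∧ L * b.re ≤ σ * (b.im - θ) ∧ σ * (b.im - θ) ≤ x} := by
      intro s₁ ϑ₁ a1 a2 a3 a4
      simp only [mem_ofPred_eq, bp_re, bp_im, add_sub_cancel_left, ← mul_assoc, hσ2, one_mul]
      exact ⟨a1, a2, a4, a3⟩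
    have h := move hK (ℓ := ℓ) (D := 2 * x) (α := 200000 * b ^ 2) hB (by positivity) hm
      (by linarith) (Wx_diff θ ξ) (side_convex θ m x L σ) (ω := θ * I - x)
      (fun c hc => ⟨hc.1, by linarith [hc.2.1], by linarith [hc.2.1]⟩)
      (fun c hc => hG c hc.1 hc.2.1 (by rw [habs c hc.1 hc.2.2.1]; exact hc.2.2.1)
        (by rw [habs c hc.1 hc.2.2.1]; exact hc.2.2.2))
      (fun c hc => ⟨by simp; linarith [hc.1], by simp; linarith [hc.2.1], by
        simp; rw [habs c hc.1 hc.2.2.1]; linarith [hc.1, hc.2.2.2]⟩)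
      (fun c hc τ hτ => hWb c τ _ _ (by positivity) (by nlinarith) (by
        refine (norm_le_re_im (a := x) (b := x) ?_ ?_).trans (by linarith)
        · simp; rw [abs_le]; constructor <;> linarith [hc.1, hc.2.1]
        · simp; rw [habs c hc.1 hc.2.2.1]; exact hc.2.2.2) hτ)
      (hmem s ϑ h1 h3 h5 h7) (hmem s' ϑ' h2 h4 h6 h8)
    refine h.trans (mul_le_of_le_one_right (by positivity) ?_)
    have b1 : 0 ≤ L * s := mul_nonneg hL (by linarith)
    have b2 : 0 ≤ L * s' := mul_nonneg hL (by linarith)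
    refine (norm_le_re_im (a := 1 / 3) (b := 1 / 3) ?_ ?_).trans (by linarith)
    · simp only [sub_re, bp_re]; rw [abs_le]; constructor <;> linarith
    · simp only [sub_im, bp_im, add_sub_add_left_eq_sub, ← mul_sub, abs_mul, hσ, one_mul]
      rw [abs_le]; constructor <;> linarith
  have A3 := A2 1 abs_one
  have A4 := A2 (-1) (by simp)
  simp only [one_mul, neg_mul] at A3 A4
  have e : Sy lam (200000 * b ^ 2) θ s' ϑ' x' ξ - Sy lam (200000 * b ^ 2) θ s ϑ x ξ =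
      (Af lam (200000 * b ^ 2) (Wx θ ξ) θ s' ϑ' (θ * I - x') -
        Af lam (200000 * b ^ 2) (Wx θ ξ) θ s' ϑ' (θ * I - x)) +
      (Lam lam (200000 * b ^ 2) (Wx θ ξ) (bp θ s' ϑ') (θ * I - x) -
        Lam lam (200000 * b ^ 2) (Wx θ ξ) (bp θ s ϑ) (θ * I - x)) -
      (Lam lam (200000 * b ^ 2) (Wx θ ξ) (bp θ s' (-ϑ')) (θ * I - x) -
        Lam lam (200000 * b ^ 2) (Wx θ ξ) (bp θ s (-ϑ)) (θ * I - x)) := by
    simp only [Sy, Af]; ring
  rw [e]
  refine (norm_sub_le _ _).trans ((add_le_add (norm_add_le _ _) le_rfl).trans ?_)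
  linarith

lemma Lam_cmul (α : ℝ) (c : ℂ) (W : ℂ → ℂ) (b ω : ℂ) :
    Lam lam α (fun z => c * W z) b ω = c * Lam lam α W b ω := by
  simp only [Lam, mul_assoc, Seg_cmul, mul_add]

lemma Lam_period (hK : HK lam) (α : ℝ) (n : ℕ) {b : ℂ} (hb : 0 < b.re) (ω : ℂ) :
    Lam lam α (fun z => cexp (n * z)) (b + 2 * π * I) (ω + 2 * π * I) =
      Lam lam α (fun z => cexp (n * z)) b ω + 2 * π * I * lam n := by
  have e1 : cb (b + 2 * π * I) = cb b + 2 * π * I := by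
    simp only [cb]; simp; ring
  have e2 : (fun z => cexp (n * (z + 2 * π * I)) * Gl lam α (b + 2 * π * I) (z + 2 * π * I)) =
      fun z => cexp (n * z) * Gl lam α b z := by
    funext z
    rw [Gl, Gl, add_sub_add_right_eq_sub, mul_add, Complex.exp_add,
      Complex.exp_nat_mul_two_pi_mul_I, neg_add, Complex.exp_add, Complex.exp_neg (2 * π * I),
      Complex.exp_two_pi_mul_I]
    simp
  rw [Lam, Lam, e1, Seg_shift, e2, ← Seg_add_right (WK_diff hK (W := fun z => cexp (n * z))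
    (by fun_prop)) (a := 1) (b := cb b) (c := cb b + 2 * π * I) (by simp) (by simp; linarith)
    (by simp; linarith), Seg_coef hK n (by simp; linarith)]
  ring

lemma Sy_repr (hK : HK lam) {B b k ℓ s ϑ x β₀ Λ : ℝ} (hB : ∀ n, ‖lam n‖ ≤ B) (hs : 0 < s)
    (h1 : s ≤ ϑ) (h2 : ϑ ≤ x) (hx : x ≤ 1 / 3) (Θ : Finset ℝ)
    (h3 : ∀ θ ∈ Θ, β₀ ≤ θ - ϑ ∧ θ + ϑ ≤ β₀ + 2 * π)
    (h4 : ∀ θ ∈ Θ, ∀ θ' ∈ Θ, θ < θ' → θ + ϑ ≤ θ' - ϑ)
    (hG : ∀ β ∈ Icc β₀ (β₀ + 2 * π), (∀ θ ∈ Θ, ϑ ≤ |β - θ|) →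
      Good lam (200000 * b ^ 2) ℓ (cexp (-bp 0 s β)))
    (hDf : ∀ θ ∈ Θ, ∀ u : ℂ, ‖u‖ ≤ Real.exp (-x) → ‖Df lam (200000 * b ^ 2) θ s ϑ u‖ ≤
      Real.exp (Λ - 200000 * b ^ 2 / 1000 * P u)) (n : ℕ) (hn : k ^ 2 ≤ n) :
    ‖2 * π * I * lam n - ∑ θ ∈ Θ, cexp (θ * I) ^ n * Sy lam (200000 * b ^ 2) θ s ϑ x n‖ ≤
      Real.exp (n * s - 2 * b * k) * (7 * Cm B (200000 * b ^ 2) s ℓ + Θ.card * (36 * Real.exp Λ)) +
        56 * Real.exp (ℓ - n) := by
  have hB0 : 0 ≤ B := (norm_nonneg _).trans (hB 0)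
  have hW : Differentiable ℂ fun z : ℂ => cexp (n * z) := by fun_prop
  have hπ := Real.pi_lt_d2
  have hπ0 := Real.pi_pos
  have hWb : ∀ (c τ : ℂ) (d A : ℝ), 0 < d → 200 * b ^ 2 ≤ A → c.re = s →
      Cone d 2 τ → ‖cexp (n * (c - τ))‖ * Real.exp (-(A / (200 * τ.re))) ≤
        Real.exp (n * s - 2 * b * k) := by
    intro c τ d A hd hA hc hτ
    have a3 : 0 < τ.re := hd.trans_le hτ.1
    rw [Complex.norm_exp, ← Real.exp_add]
    apply Real.exp_le_exp.2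
    have a1 : ((n : ℂ) * (c - τ)).re = n * (s - τ.re) := by simp [hc]
    have a2 : 2 * b * k - n * τ.re ≤ A / (200 * τ.re) := by
      rw [le_div_iff₀ (by positivity)]
      nlinarith [sq_nonneg (k * τ.re - b), mul_le_mul_of_nonneg_right hn (sq_nonneg τ.re)]
    rw [a1]; linarith
  set ω₀ : ℂ := bp 0 (-1) (β₀ + π) with hω₀
  have hcone : ∀ (c : ℂ) (d : ℝ), d ≤ 1 → c.re = s → β₀ ≤ c.im → c.im ≤ β₀ + 2 * π →
      Cone d 2 (c - ω₀) := by
    intro c d hd a1 a2 a3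
    refine ⟨by simp [hω₀]; linarith, by simp [hω₀]; linarith, ?_⟩
    simp only [hω₀, sub_im, bp_im, sub_re, bp_re]
    rw [abs_le]; constructor <;> linarith
  have hCm : 0 ≤ Cm B (200000 * b ^ 2) s ℓ := by unfold Cm; positivity
  have G1 := gaps (f := fun β => Lam lam (200000 * b ^ 2) (fun z => cexp (n * z)) (bp 0 s β) ω₀)
    (ϑ := ϑ) (C := Real.exp (n * s - 2 * b * k) * Cm B (200000 * b ^ 2) s ℓ) (a := β₀)
    (by linarith) (by positivity) Θ (β₀ + 2 * π) (by linarith) h3 h4 (by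
      intro u v hu huv hv hβ
      have h := move hK (ℓ := ℓ) (D := 2) (α := 200000 * b ^ 2) hB (by positivity) hs le_rfl hW
        (vert_convex s u v) (ω := ω₀)
        (fun c hc => ⟨hc.1.ge, by linarith [hc.1], by linarith [hc.1]⟩)
        (fun c hc => by
          rw [eq_bp (θ := 0) hc.1, sub_zero]
          exact hG _ ⟨by linarith [hc.2.1], by linarith [hc.2.2]⟩ (hβ _ ⟨hc.2.1, hc.2.2⟩))
        (fun c hc => hcone c _ (by linarith [hc.1]) hc.1 (by linarith [hc.2.1])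
          (by linarith [hc.2.2]))
        (fun c hc τ hτ => hWb c τ _ _ (by positivity) (by nlinarith) hc.1 hτ)
        (b₁ := bp 0 s u) (b₂ := bp 0 s v) ⟨by simp, by simp, by simpa using huv⟩
        ⟨by simp, by simpa using huv, by simp⟩
      rwa [bp_sub_norm, abs_of_nonneg (by linarith)] at h)
  have e0 : bp 0 s (β₀ + 2 * π) = bp 0 s β₀ + 2 * π * I := by simp only [bp]; push_cast; ring
  have G2 : ‖2 * π * I * lam n -
      (Lam lam (200000 * b ^ 2) (fun z => cexp (n * z)) (bp 0 s (β₀ + 2 * π)) ω₀ -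
      Lam lam (200000 * b ^ 2) (fun z => cexp (n * z)) (bp 0 s β₀) ω₀)‖ ≤
      56 * Real.exp (ℓ - n) := by
    have e1 := Lam_period hK (200000 * b ^ 2) n (b := bp 0 s β₀) (by simpa using hs) ω₀
    rw [← e0] at e1
    have e2 := Lam_omega hK (200000 * b ^ 2) hW (b := bp 0 s (β₀ + 2 * π)) (ω₁ := ω₀)
      (ω₂ := ω₀ + 2 * π * I) (by simpa using hs) (by simp [hω₀]; linarith)
      (by simp [hω₀]; linarith)
    rw [show 2 * π * I * lam n -
      (Lam lam (200000 * b ^ 2) (fun z => cexp (n * z)) (bp 0 s (β₀ + 2 * π)) ω₀ -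
      Lam lam (200000 * b ^ 2) (fun z => cexp (n * z)) (bp 0 s β₀) ω₀) =
      Seg (fun z => cexp (n * z) * Gl lam (200000 * b ^ 2) (bp 0 s (β₀ + 2 * π)) z) ω₀
        (ω₀ + 2 * π * I) by rw [← e2, e1]; ring]
    refine (Seg_norm_le (C := Real.exp (-n) * (8 / 1 * Real.exp ℓ)) fun t _ => ?_).trans ?_
    · have a1 : (ω₀ + t * (ω₀ + 2 * π * I - ω₀)).re = -1 := by simp [hω₀]
      rw [norm_mul, Complex.norm_exp]
      refine mul_le_mul (Real.exp_le_exp.2 (by rw [← ofReal_natCast, re_ofReal_mul, a1]; linarith))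
        (Gl_bound hK (by positivity) one_pos le_rfl (by simpa using hs)
          (by rw [sub_re, a1, bp_re]; linarith)
          (hG _ ⟨by linarith, le_rfl⟩ fun θ hθ =>
            le_trans (by linarith [(h3 θ hθ).2]) (le_abs_self _))) (norm_nonneg _) (by positivity)
    · have : ‖ω₀ + 2 * π * I - ω₀‖ ≤ 7 := by
        simp [abs_of_pos hπ0]; linarith
      rw [sub_eq_add_neg ℓ, Real.exp_add]
      calc _ ≤ Real.exp (-n) * (8 / 1 * Real.exp ℓ) * 7 := by gcongr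
        _ = _ := by ring
  have G3 : ∀ θ ∈ Θ,
      ‖(Lam lam (200000 * b ^ 2) (fun z => cexp (n * z)) (bp 0 s (θ + ϑ)) ω₀ -
        Lam lam (200000 * b ^ 2) (fun z => cexp (n * z)) (bp 0 s (θ - ϑ)) ω₀) -
        cexp (θ * I) ^ n * Sy lam (200000 * b ^ 2) θ s ϑ x n‖ ≤
      Real.exp (n * s - 2 * b * k) * (36 * Real.exp Λ) := by
    intro θ hθ
    have a1 := h3 θ hθ
    have h := Af_omega hK (D := 2) hW hs (by linarith) le_rfl (by positivity) (hDf θ hθ)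
      (fun τ hτ => hWb _ τ x _ (by linarith) (by linarith) (by simp) hτ)
      (ω₁ := θ * I - x) (ω₂ := ω₀) ⟨by simp; linarith, by simp; linarith, by simp; linarith⟩
      (hcone _ _ (by linarith) (by simp) (by simp; linarith [a1.1]) (by simp; linarith [a1.2]))
    have e1 : (fun z : ℂ => cexp (n * z)) = fun z => cexp (θ * I) ^ n * Wx θ n z := by
      funext z
      rw [Wx, ← Complex.exp_nat_mul, ← Complex.exp_add]; congr 1; ring
    have e2 : cexp (θ * I) ^ n * Sy lam (200000 * b ^ 2) θ s ϑ x n =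
        Af lam (200000 * b ^ 2) (fun z => cexp (n * z)) θ s ϑ (θ * I - x) := by
      rw [e1, Sy, Af, Af, Lam_cmul, Lam_cmul, mul_sub]
    have e3 : bp 0 s (θ + ϑ) = bp θ s ϑ := by simp [bp]
    have e4 : bp 0 s (θ - ϑ) = bp θ s (-ϑ) := by simp [bp, sub_eq_add_neg]
    rw [e2, e3, e4]
    exact h.trans (le_of_eq (by ring))
  have G4 := (norm_sum_le _ _).trans (Finset.sum_le_card_nsmul _ _ _ G3)
  rw [Finset.sum_sub_distrib, nsmul_eq_mul] at G4
  have key : ∀ a₁ a₂ a₃ a₄ : ℂ, ‖a₁ - a₄‖ ≤ ‖a₁ - a₂‖ + ‖a₂ - a₃‖ + ‖a₃ - a₄‖ := by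
    intro a₁ a₂ a₃ a₄
    linarith [norm_sub_le_norm_sub_add_norm_sub a₁ a₂ a₄, norm_sub_le_norm_sub_add_norm_sub a₂ a₃ a₄]
  refine (key _ _ _ _).trans ((add_le_add (add_le_add G2 G1) G4).trans ?_)
  have : Real.exp (n * s - 2 * b * k) * Cm B (200000 * b ^ 2) s ℓ * (β₀ + 2 * π - β₀) ≤
      Real.exp (n * s - 2 * b * k) * Cm B (200000 * b ^ 2) s ℓ * 7 := by gcongr; linarith
  linarith

end Pool.Agent.Lib.MP_b4c8d9_an
end
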